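import Pool.Agent.Lib_helper54.FD.Block

set_option autoImplicit false

/-! Infinite direct sums of the finite complexes. -/

namespace Pool.Agent.Lib_helper54.FD

open Finset

variable {𝕜 : Type} [RCLike 𝕜]

section diag

variable {ι : Type} {A B A' : ι → Type} [∀ R, Fintype (A R)] [∀ R, Fintype (B R)]
  [∀ R, Fintype (A' R)]

/-- The block of index `R` of an element of `ℓ¹(Σ R, A R)`. -/
def blk {ι : Type} {A : ι → Type} (x : ell1 𝕜 (Σ R, A R)) (R : ι) : A R → 𝕜 :=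
  fun a => co x ⟨R, a⟩

theorem blk_ext {ι : Type} {A : ι → Type} {x y : ell1 𝕜 (Σ R, A R)}
    (h : ∀ R, blk x R = blk y R) : x = y :=
  co_injective (funext fun p => congrFun (h p.1) p.2)

theorem hasSum_blk (x : ell1 𝕜 (Σ R, A R)) : HasSum (fun R => N (blk x R)) ‖x‖ :=
  (hasSum_norm_co x).sigma fun _ => hasSum_fintype _

theorem summable_blk {f : ∀ R, A R → 𝕜} (hf : Summable fun R => N (f R)) :
    Summable fun p : Σ R, A R => ‖f p.1 p.2‖ := by
  refine (summable_sigma_of_nonneg fun _ => norm_nonneg _).2 ⟨fun R => ?_, ?_⟩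
  · exact (hasSum_fintype _).summable
  · refine hf.congr fun R => ?_
    exact (tsum_fintype _).symm

/-- The element with given blocks. -/
noncomputable def mkBlk (f : ∀ R, A R → 𝕜) (hf : Summable fun R => N (f R)) :
    ell1 𝕜 (Σ R, A R) :=
  mk1 (fun p => f p.1 p.2) (summable_blk hf)

theorem blk_mkBlk (f : ∀ R, A R → 𝕜) (hf : Summable fun R => N (f R)) (R : ι) :
    blk (mkBlk f hf) R = f R := rfl

theorem norm_blk (x : ell1 𝕜 (Σ R, A R)) : ‖x‖ = ∑' R, N (blk x R) := (hasSum_blk x).tsum_eq.symm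

theorem summable_of_le {f : ∀ R, B R → 𝕜} {C : ℝ} (x : ell1 𝕜 (Σ R, A R))
    (h : ∀ R, N (f R) ≤ C * N (blk x R)) : Summable fun R => N (f R) :=
  Summable.of_nonneg_of_le (fun _ => N_nonneg _) h ((hasSum_blk x).summable.mul_left C)

theorem norm_le_of_blk {C : ℝ} (x : ell1 𝕜 (Σ R, A R)) (y : ell1 𝕜 (Σ R, B R))
    (h : ∀ R, N (blk y R) ≤ C * N (blk x R)) : ‖y‖ ≤ C * ‖x‖ := by
  rw [norm_blk, norm_blk x, ← tsum_mul_left]
  exact (hasSum_blk y).summable.tsum_le_tsum h ((hasSum_blk x).summable.mul_left C)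

/-- The block-diagonal operator. -/
noncomputable def diag (d : ∀ R, (A R → 𝕜) →ₗ[𝕜] (B R → 𝕜)) (C : ℝ)
    (h : ∀ R x, N (d R x) ≤ C * N x) : ell1 𝕜 (Σ R, A R) →L[𝕜] ell1 𝕜 (Σ R, B R) :=
  LinearMap.mkContinuous
    { toFun := fun x => mkBlk (fun R => d R (blk x R)) (summable_of_le x fun R => h R _)
      map_add' := fun x y => blk_ext fun R => map_add (d R) (blk x R) (blk y R)
      map_smul' := fun c x => blk_ext fun R => map_smul (d R) c (blk x R) }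
    C (fun x => norm_le_of_blk x _ fun R => h R (blk x R))

theorem blk_diag (d : ∀ R, (A R → 𝕜) →ₗ[𝕜] (B R → 𝕜)) (C : ℝ)
    (h : ∀ R x, N (d R x) ≤ C * N x) (x : ell1 𝕜 (Σ R, A R)) (R : ι) :
    blk (diag d C h x) R = d R (blk x R) := rfl

/-- Lifting blockwise. -/
theorem diag_lift (d : ∀ R, (A R → 𝕜) →ₗ[𝕜] (B R → 𝕜)) (C : ℝ)
    (h : ∀ R x, N (d R x) ≤ C * N x) (C' : ℝ) (x : ell1 𝕜 (Σ R, B R))
    (hx : ∀ R, ∃ y, d R y = blk x R ∧ N y ≤ C' * N (blk x R)) : ∃ y, diag d C h y = x := by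
  choose y hy1 hy2 using hx
  exact ⟨mkBlk y (summable_of_le x hy2), blk_ext fun R => by rw [blk_diag, blk_mkBlk, hy1]⟩

theorem diag_exact (d : ∀ R, (A R → 𝕜) →ₗ[𝕜] (B R → 𝕜)) (C : ℝ)
    (h : ∀ R x, N (d R x) ≤ C * N x) (d' : ∀ R, (A' R → 𝕜) →ₗ[𝕜] (A R → 𝕜))
    (h' : ∀ R x, N (d' R x) ≤ C * N x) (C' : ℝ) (hdd : ∀ R x, d R (d' R x) = 0)
    (hex : ∀ R x, d R x = 0 → ∃ y, d' R y = x ∧ N y ≤ C' * N x) (x : ell1 𝕜 (Σ R, A R)) :
    diag d C h x = 0 ↔ ∃ y, diag d' C h' y = x := by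
  constructor
  · intro hx
    refine diag_lift d' C h' C' x fun R => hex R _ ?_
    rw [← blk_diag d C h, hx]
    rfl
  · rintro ⟨y, rfl⟩
    exact blk_ext fun R => by
      rw [blk_diag, blk_diag, hdd]
      rfl

omit [∀ R, Fintype (A R)] in
theorem continuous_blk (R : ι) : Continuous fun x : ell1 𝕜 (Σ R, A R) => blk x R :=
  continuous_pi fun a => (ap (coord (⟨R, a⟩ : Σ R, A R))).continuous

theorem diag_closed (d : ∀ R, (A R → 𝕜) →ₗ[𝕜] (B R → 𝕜)) (C : ℝ)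
    (h : ∀ R x, N (d R x) ≤ C * N x) (C' : ℝ)
    (hcl : ∀ R x, ∃ y, d R y = d R x ∧ N y ≤ C' * N (d R x)) :
    IsClosed (Set.range (diag d C h)) := by
  have h1 : Set.range (diag d C h) =
      ⋂ R, (fun x : ell1 𝕜 (Σ R, B R) => blk x R) ⁻¹' (LinearMap.range (d R) : Set (B R → 𝕜)) := by
    ext x
    rw [Set.mem_iInter]
    constructor
    · rintro ⟨y, rfl⟩ R
      exact ⟨blk y R, rfl⟩
    · intro hx
      refine diag_lift d C h C' x fun R => ?_
      obtain ⟨y, hy⟩ := hx R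
      obtain ⟨z, hz1, hz2⟩ := hcl R y
      rw [hy] at hz1 hz2
      exact ⟨z, hz1, hz2⟩
  rw [h1]
  refine isClosed_iInter fun R => IsClosed.preimage (continuous_blk R) ?_
  exact (LinearMap.range (d R)).closed_of_finiteDimensional

/-- The embedding of a block. -/
noncomputable def emb (R : ι) (x : A R → 𝕜) : ell1 𝕜 (Σ R, A R) :=
  ∑ a, x a • e1 (⟨R, a⟩ : Σ R, A R)

theorem co_sum {S κ : Type} (F : Finset κ) (c : κ → 𝕜) (x : κ → ell1 𝕜 S) (s : S) :
    co (∑ k ∈ F, c k • x k) s = ∑ k ∈ F, c k * co (x k) s := by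
  have h := map_sum (ap (coord s)) (fun k => c k • x k) F
  refine Eq.trans h (sum_congr rfl fun k _ => ?_)
  exact map_smul (ap (coord s)) (c k) (x k)

theorem blk_emb_self (R : ι) (x : A R → 𝕜) : blk (emb R x) R = x := by
  classical
  funext a
  change co (∑ a, x a • e1 (⟨R, a⟩ : Σ R, A R)) ⟨R, a⟩ = x a
  rw [co_sum, sum_eq_single a]
  · rw [co_e1_self, mul_one]
  · intro b _ hb
    rw [co_e1_ne, mul_zero]
    intro h
    exact hb (eq_of_heq (Sigma.mk.inj h).2).symm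
  · intro h
    exact absurd (mem_univ a) h

theorem blk_emb_ne {R R' : ι} (h : R' ≠ R) (x : A R → 𝕜) : blk (emb R x) R' = 0 := by
  funext a
  change co (∑ a, x a • e1 (⟨R, a⟩ : Σ R, A R)) ⟨R', a⟩ = (0 : 𝕜)
  rw [co_sum]
  refine sum_eq_zero fun b _ => ?_
  rw [co_e1_ne, mul_zero]
  intro h'
  exact h (Sigma.mk.inj h').1

theorem diag_emb (d : ∀ R, (A R → 𝕜) →ₗ[𝕜] (B R → 𝕜)) (C : ℝ)
    (h : ∀ R x, N (d R x) ≤ C * N x) (R : ι) (x : A R → 𝕜) :
    diag d C h (emb R x) = emb R (d R x) := by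
  refine blk_ext fun R' => ?_
  rw [blk_diag]
  by_cases hR : R' = R
  · subst hR
    rw [blk_emb_self, blk_emb_self]
  · rw [blk_emb_ne hR, blk_emb_ne hR, map_zero]

/-- Certificates and right inverses of the adjoint of a block-diagonal operator. -/
theorem diag_cert (d : ∀ R, (A R → 𝕜) →ₗ[𝕜] (B R → 𝕜)) (C : ℝ)
    (h : ∀ R x, N (d R x) ≤ C * N x)
    (r : dualB (ell1 𝕜 (Σ R, A R)) →L[𝕜] dualB (ell1 𝕜 (Σ R, B R)))
    (hr : ∀ φ, dualMap (diag d C h) (r φ) = φ) (R : ι) [Nonempty (A R)] {M E τ : ℝ}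
    (hc : Cert (d R) M E τ) : τ ≤ ‖r‖ * E := by
  refine hc.le (fun b y => ap (r (coord (⟨R, y⟩ : Σ R, A R))) (e1 (⟨R, b⟩ : Σ R, B R))) ‖r‖
    (fun b => ?_) (norm_nonneg _) (fun x y => ?_)
  · have h1 := sum_norm_coord_le r (e1 (⟨R, b⟩ : Σ R, B R))
      (univ.map ⟨fun y : A R => (⟨R, y⟩ : Σ R, A R), sigma_mk_injective⟩)
    rw [sum_map, norm_e1, mul_one] at h1
    exact h1
  · have h1 : ap (r (coord (⟨R, y⟩ : Σ R, A R))) (diag d C h (emb R x)) = x y := by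
      have h2 := congrArg (fun φ => ap φ (emb R x)) (hr (coord ⟨R, y⟩))
      change ap (r (coord (⟨R, y⟩ : Σ R, A R))) (diag d C h (emb R x)) =
        blk (emb R x) R y at h2
      rw [h2, blk_emb_self]
    rw [diag_emb] at h1
    rw [← h1, emb, map_sum]
    exact sum_congr rfl fun b _ => (map_smul (ap (r (coord (⟨R, y⟩ : Σ R, A R)))) _ _).symm

end diag

/-- Cokernels of operators with closed range. -/
theorem exists_coker {A B : Ban 𝕜} (f : A →L[𝕜] B) (hf : IsClosed (Set.range f)) :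
    ∃ (Q : Ban 𝕜) (q : B →L[𝕜] Q), Function.Surjective q ∧ ∀ x, q x = 0 ↔ ∃ y, f y = x := by
  let S : Submodule 𝕜 B := LinearMap.range (f : A →ₗ[𝕜] B)
  have hS : IsClosed (S : Set B) := hf
  refine ⟨⟨B ⧸ S⟩, S.mkQL, Submodule.mkQ_surjective S, fun x => ?_⟩
  change S.mkQ x = 0 ↔ _
  rw [Submodule.mkQ_apply, Submodule.Quotient.mk_eq_zero]
  exact Iff.rfl

/-- The existence of spaces of projective and flat dimension `m`. -/
theorem exists_space (hb : HasBlocks 𝕜) (m : ℕ) :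
    ∃ X : Ban 𝕜, HasResolution IsEll1 X m ∧ ∀ n, Res DualInj n X → m ≤ n := by
  obtain ⟨C, hC, h⟩ := exists_cx hb m
  choose P hP hcert using fun R : ℕ => h (R + 1) (by omega)
  let D : ∀ i, ell1 𝕜 (Σ R, (P R).A (i + 2)) →L[𝕜] ell1 𝕜 (Σ R, (P R).A (i + 1)) := fun i =>
    diag (fun R => (P R).d (i + 1)) C (fun R x => (hP R).bound (i + 1) x)
  obtain ⟨X, ε, hε, h0⟩ := exists_coker (D 0) (diag_closed _ C _ C fun R x => (hP R).closed x)
  have hex : ∀ i x, D i x = 0 ↔ ∃ y, D (i + 1) y = x := fun i x =>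
    diag_exact _ C _ _ _ C (fun R x => (hP R).dd (i + 1) x) (fun R x => (hP R).exact i x) x
  have hsub : ∀ i, m < i → Subsingleton (ell1 𝕜 (Σ R, (P R).A (i + 1))) := fun i hi => by
    have h1 : ∀ R, IsEmpty ((P R).A (i + 1)) := fun R => (hP R).empty (i + 1) (by omega)
    have h2 : IsEmpty (Σ R, (P R).A (i + 1)) := ⟨fun p => (h1 p.1).elim p.2⟩
    exact ⟨fun x y => co_injective (Subsingleton.elim _ _)⟩
  refine ⟨X, (hasResolution_iff _ _ _).2 ⟨fun i => ell1 𝕜 (Σ R, (P R).A (i + 1)), ε, D, hε, h0, hex,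
    fun i _ => isEll1_ell1 _, hsub⟩, fun n hn => ?_⟩
  by_contra hlt
  obtain ⟨k, rfl⟩ : ∃ k, m = k + 1 := ⟨m - 1, by omega⟩
  have hk : Res DualInj k X := res_mono good_D (by omega) hn
  obtain ⟨r, hr⟩ := last_map dualInj_ell1 k X (fun i => ell1 𝕜 (Σ R, (P R).A (i + 1))) ε D hε h0
    hex (fun i => proj_ell1 _) (fun i => dualInj_ell1 _) (hsub (k + 2) (by omega)) hk
  -- the left inverses of the last maps
  have key : ∀ R : ℕ, ((R + 1 : ℕ) : ℝ) ≤ ‖r‖ * ((k + 1) * 2 ^ (k + 1)) := by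
    intro R
    have i1 : Nonempty ((P R).A (k + 1 + 1)) := (hP R).nonempty
    refine cert_growth (m := k) (R := R + 1) (by omega) ?_
    exact diag_cert (fun R => (P R).d (k + 1)) C (fun R x => (hP R).bound (k + 1) x) r hr R
      (hcert R)
  obtain ⟨R, hR⟩ := exists_nat_gt (‖r‖ * ((k + 1) * 2 ^ (k + 1)))
  have h1 := key R
  push_cast at h1
  linarith

end Pool.Agent.Lib_helper54.FD
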