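import Mathlib

set_option autoImplicit false

/-! (Proofs by helper77.) -/

/-!
# T4a: Cayley graphs of `(ZMod p)^(2R)` with good spectral gap and large average distance
-/

namespace Pool.Agent.Lib_helper54.FD.T4a

open Finset
open scoped BigOperators ComplexConjugate

/-- Parseval on a finite abelian group (after helper83). -/
theorem parseval {G : Type} [AddCommGroup G] [Fintype G] (f : G → ℂ) :
    ∑ ψ : AddChar G ℂ, ‖∑ y, f y * ψ y‖ ^ 2 = (Fintype.card G : ℝ) * ∑ y, ‖f y‖ ^ 2 := by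
  classical
  have key : ∑ ψ : AddChar G ℂ, (∑ y, f y * ψ y) * conj (∑ y, f y * ψ y)
      = (Fintype.card G : ℂ) * ∑ y, f y * conj (f y) := by
    have h1 : ∀ ψ : AddChar G ℂ, (∑ y, f y * ψ y) * conj (∑ y, f y * ψ y)
        = ∑ y, ∑ y', f y * conj (f y') * ψ (y - y') := by
      intro ψ
      rw [map_sum, Finset.sum_mul_sum]
      refine Finset.sum_congr rfl fun y _ => Finset.sum_congr rfl fun y' _ => ?_
      rw [map_mul, ← AddChar.map_neg_eq_conj, sub_eq_add_neg, AddChar.map_add_eq_mul]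
      ring
    calc ∑ ψ : AddChar G ℂ, (∑ y, f y * ψ y) * conj (∑ y, f y * ψ y)
        = ∑ ψ : AddChar G ℂ, ∑ y, ∑ y', f y * conj (f y') * ψ (y - y') :=
          Finset.sum_congr rfl fun ψ _ => h1 ψ
      _ = ∑ y, ∑ y', f y * conj (f y') * ∑ ψ : AddChar G ℂ, ψ (y - y') := by
          rw [Finset.sum_comm]
          refine Finset.sum_congr rfl fun y _ => ?_
          rw [Finset.sum_comm]
          refine Finset.sum_congr rfl fun y' _ => ?_
          rw [Finset.mul_sum]
      _ = ∑ y, f y * conj (f y) * (Fintype.card G : ℂ) := by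
          refine Finset.sum_congr rfl fun y _ => ?_
          rw [Finset.sum_eq_single y]
          · rw [AddChar.sum_apply_eq_ite, if_pos (sub_self y)]
          · intro y' _ hne
            rw [AddChar.sum_apply_eq_ite, if_neg (sub_ne_zero.mpr hne.symm), mul_zero]
          · intro h; exact absurd (Finset.mem_univ y) h
      _ = _ := by rw [Finset.mul_sum]; exact Finset.sum_congr rfl fun y _ => by ring
  have h2 : ∀ w : ℂ, ((‖w‖ ^ 2 : ℝ) : ℂ) = w * conj w := by
    intro w
    rw [Complex.mul_conj, Complex.normSq_eq_norm_sq]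
  have h3 : ((∑ ψ : AddChar G ℂ, ‖∑ y, f y * ψ y‖ ^ 2 : ℝ) : ℂ)
      = (((Fintype.card G : ℝ) * ∑ y, ‖f y‖ ^ 2 : ℝ) : ℂ) := by
    rw [Complex.ofReal_sum, Complex.ofReal_mul, Complex.ofReal_sum]
    simp_rw [h2]
    simpa using key
  exact_mod_cast h3

/-- The generators. -/
def gen (p n : ℕ) (q : ZMod p × ZMod p) : Fin n → ZMod p := fun i => q.1 * q.2 ^ (i : ℕ)

section
variable (p n : ℕ) [hp : Fact p.Prime]

/-- Characters that are trivial on the lines through `n` distinct moment vectors are trivial. -/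
theorem char_trivial (ψ : AddChar (Fin n → ZMod p) ℂ) (t : Fin n → ZMod p)
    (ht : Function.Injective t) (h : ∀ j s, ψ (gen p n (s, t j)) = 1) : ψ = 0 := by
  classical
  have hdet : (Matrix.vandermonde t).det ≠ 0 := Matrix.det_vandermonde_ne_zero_iff.mpr ht
  have hunit : IsUnit (Matrix.vandermonde t) := by
    rw [Matrix.isUnit_iff_isUnit_det]
    exact isUnit_iff_ne_zero.mpr hdet
  rw [AddChar.eq_zero_iff]
  intro x
  -- solve `∑ j, s j * t j ^ i = x i`
  obtain ⟨u, hu⟩ := hunit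
  let s : Fin n → ZMod p := Matrix.vecMul x ((u⁻¹ : (Matrix (Fin n) (Fin n) (ZMod p))ˣ) :
    Matrix (Fin n) (Fin n) (ZMod p))
  have hs : Matrix.vecMul s (Matrix.vandermonde t) = x := by
    simp only [s]
    rw [Matrix.vecMul_vecMul, ← hu, Units.inv_mul, Matrix.vecMul_one]
  have hx : x = ∑ j, gen p n (s j, t j) := by
    rw [← hs]
    funext i
    rw [Finset.sum_apply]
    simp only [Matrix.vecMul, dotProduct, Matrix.vandermonde_apply, gen]
  rw [hx]
  have hmul : ∀ S : Finset (Fin n), ψ (∑ j ∈ S, gen p n (s j, t j)) = 1 := by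
    intro S
    induction S using Finset.induction_on with
    | empty => simp
    | insert a S ha ih =>
      rw [Finset.sum_insert ha, AddChar.map_add_eq_mul, ih, h a (s a), one_mul]
  exact hmul _

theorem coeff_bound (ψ : AddChar (Fin n → ZMod p) ℂ) (hψ : ψ ≠ 0) :
    ‖∑ q : ZMod p × ZMod p, ψ (gen p n q)‖ ≤ n * p := by
  classical
  -- for a fixed `t` the sum over `s` is `p` or `0`
  let χ : ZMod p → AddChar (ZMod p) ℂ := fun t =>
    { toFun := fun s => ψ (gen p n (s, t))
      map_zero_eq_one' := by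
        have : gen p n (0, t) = 0 := by funext i; simp [gen]
        rw [this]; exact AddChar.map_zero_eq_one ψ
      map_add_eq_mul' := by
        intro a b
        have : gen p n (a + b, t) = gen p n (a, t) + gen p n (b, t) := by
          funext i; simp [gen, add_mul]
        rw [this]; exact AddChar.map_add_eq_mul ψ _ _ }
  have hχ : ∀ t, ∑ s, ψ (gen p n (s, t)) = if χ t = 0 then (p : ℂ) else 0 := by
    intro t
    have h1 := AddChar.sum_eq_ite (χ t)
    rw [ZMod.card] at h1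
    exact h1
  have hsum : ∑ q : ZMod p × ZMod p, ψ (gen p n q) = ∑ t, if χ t = 0 then (p : ℂ) else 0 := by
    rw [Fintype.sum_prod_type_right]
    exact Finset.sum_congr rfl fun t _ => hχ t
  have hcard : (Finset.univ.filter fun t => χ t = 0).card ≤ n := by
    by_contra hlt
    push Not at hlt
    obtain ⟨S, hS, hSc⟩ := Finset.exists_subset_card_eq hlt.le
    let e := S.equivFinOfCardEq hSc
    apply hψ
    refine char_trivial p n ψ (fun j => ((e.symm j : S) : ZMod p)) ?_ ?_
    · intro a b hab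
      exact e.symm.injective (Subtype.ext hab)
    · intro j s
      have hm : ((e.symm j : S) : ZMod p) ∈ Finset.univ.filter fun t => χ t = 0 :=
        hS (e.symm j).2
      rw [Finset.mem_filter] at hm
      have h5 : χ ((e.symm j : S) : ZMod p) s = 1 := by
        have := congrArg (fun c : AddChar (ZMod p) ℂ => c s) hm.2
        simpa using this
      exact h5
  rw [hsum, Finset.sum_ite, Finset.sum_const_zero, add_zero, Finset.sum_const, nsmul_eq_mul,
    norm_mul, Complex.norm_natCast, Complex.norm_natCast]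
  have : ((Finset.univ.filter fun t => χ t = 0).card : ℝ) ≤ n := by exact_mod_cast hcard
  exact mul_le_mul_of_nonneg_right this (Nat.cast_nonneg _)

theorem contraction_complex (f : (Fin n → ZMod p) → ℂ) (hf : ∑ x, f x = 0) :
    ∑ x, ‖(Fintype.card (ZMod p × ZMod p) : ℂ)⁻¹ * ∑ s, f (x + gen p n s)‖ ^ 2
      ≤ ((n : ℝ) / p) ^ 2 * ∑ x, ‖f x‖ ^ 2 := by
  classical
  set c : ℂ := (Fintype.card (ZMod p × ZMod p) : ℂ)⁻¹ with hc
  have hp0 : (0 : ℝ) < p := by exact_mod_cast hp.out.pos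
  have hcn : ‖c‖ = ((p : ℝ) * p)⁻¹ := by
    rw [hc, norm_inv, Complex.norm_natCast, Fintype.card_prod, ZMod.card]
    push_cast; rfl
  set g : (Fin n → ZMod p) → ℂ := fun x => c * ∑ s, f (x + gen p n s) with hg
  have hF : ∀ ψ : AddChar (Fin n → ZMod p) ℂ, ∑ y, g y * ψ y
      = (c * ∑ s, (-ψ) (gen p n s)) * ∑ y, f y * ψ y := by
    intro ψ
    have h1 : ∀ s, ∑ y, f (y + gen p n s) * ψ y = (-ψ) (gen p n s) * ∑ y, f y * ψ y := by
      intro s
      rw [Finset.mul_sum]
      rw [← Equiv.sum_comp (Equiv.addRight (gen p n s))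
        (fun y => (-ψ) (gen p n s) * (f y * ψ y))]
      refine Finset.sum_congr rfl fun y _ => ?_
      simp only [Equiv.coe_addRight]
      rw [AddChar.map_add_eq_mul, AddChar.neg_apply]
      have h2 : ψ (-gen p n s) * ψ (gen p n s) = 1 := by
        rw [← AddChar.map_add_eq_mul]; simp
      calc f (y + gen p n s) * ψ y
          = f (y + gen p n s) * ψ y * (ψ (-gen p n s) * ψ (gen p n s)) := by rw [h2, mul_one]
        _ = _ := by ring
    calc ∑ y, g y * ψ y = ∑ y, ∑ s, c * (f (y + gen p n s) * ψ y) := by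
          refine Finset.sum_congr rfl fun y _ => ?_
          rw [hg]
          simp only
          rw [mul_assoc, Finset.sum_mul, Finset.mul_sum]
      _ = ∑ s, c * ((-ψ) (gen p n s) * ∑ y, f y * ψ y) := by
          rw [Finset.sum_comm]
          refine Finset.sum_congr rfl fun s _ => ?_
          rw [← Finset.mul_sum, h1]
      _ = _ := by
          rw [← Finset.mul_sum, ← Finset.sum_mul]; ring
  have hbd : ∀ ψ : AddChar (Fin n → ZMod p) ℂ, ‖∑ y, g y * ψ y‖ ^ 2
      ≤ ((n : ℝ) / p) ^ 2 * ‖∑ y, f y * ψ y‖ ^ 2 := by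
    intro ψ
    by_cases hψ : ψ = 0
    · subst hψ
      have h0 : ∑ y, f y * (0 : AddChar (Fin n → ZMod p) ℂ) y = 0 := by
        simpa using hf
      rw [hF, h0]; simp
    · rw [hF, norm_mul, mul_pow]
      refine mul_le_mul_of_nonneg_right ?_ (by positivity)
      refine pow_le_pow_left₀ (norm_nonneg _) ?_ 2
      rw [norm_mul, hcn]
      have h3 := coeff_bound p n (-ψ) (neg_ne_zero.mpr hψ)
      calc ((p : ℝ) * p)⁻¹ * ‖∑ s, (-ψ) (gen p n s)‖ ≤ ((p : ℝ) * p)⁻¹ * (n * p) :=
            mul_le_mul_of_nonneg_left h3 (by positivity)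
        _ = (n : ℝ) / p := by field_simp
  have hcard : (0 : ℝ) < Fintype.card (Fin n → ZMod p) := by exact_mod_cast Fintype.card_pos
  have h4 := parseval g
  have h5 := parseval f
  have h6 : ∑ ψ : AddChar (Fin n → ZMod p) ℂ, ‖∑ y, g y * ψ y‖ ^ 2
      ≤ ((n : ℝ) / p) ^ 2 * ∑ ψ : AddChar (Fin n → ZMod p) ℂ, ‖∑ y, f y * ψ y‖ ^ 2 := by
    rw [Finset.mul_sum]
    exact Finset.sum_le_sum fun ψ _ => hbd ψ
  rw [h4, h5] at h6
  have h7 : (Fintype.card (Fin n → ZMod p) : ℝ) * ∑ y, ‖g y‖ ^ 2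
      ≤ (Fintype.card (Fin n → ZMod p) : ℝ) * (((n : ℝ) / p) ^ 2 * ∑ y, ‖f y‖ ^ 2) := by
    calc _ ≤ _ := h6
      _ = _ := by ring
  exact le_of_mul_le_mul_left h7 hcard

/-- The real-linear isometric embedding of the scalars in `ℂ`. -/
noncomputable def emb {𝕜 : Type} [RCLike 𝕜] : 𝕜 →ₗ[ℝ] ℂ where
  toFun z := ⟨RCLike.re z, RCLike.im z⟩
  map_add' a b := by apply Complex.ext <;> simp
  map_smul' c a := by
    apply Complex.ext
    · simp [RCLike.smul_re]
    · simp [RCLike.smul_im]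

theorem norm_emb {𝕜 : Type} [RCLike 𝕜] (z : 𝕜) : ‖emb z‖ ^ 2 = ‖z‖ ^ 2 := by
  rw [← Complex.normSq_eq_norm_sq, ← RCLike.normSq_eq_def', Complex.normSq_apply,
    RCLike.normSq_apply]
  rfl

theorem contraction {𝕜 : Type} [RCLike 𝕜] (f : (Fin n → ZMod p) → 𝕜) (hf : ∑ x, f x = 0) :
    ∑ x, ‖(Fintype.card (ZMod p × ZMod p) : 𝕜)⁻¹ • ∑ s, f (x + gen p n s)‖ ^ 2
      ≤ ((n : ℝ) / p) ^ 2 * ∑ x, ‖f x‖ ^ 2 := by
  have h := contraction_complex p n (fun x => emb (f x)) (by rw [← map_sum, hf, map_zero])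
  simp only [norm_emb] at h
  refine le_trans (le_of_eq ?_) h
  refine Finset.sum_congr rfl fun x _ => ?_
  rw [← norm_emb]
  congr 2
  have h1 : (Fintype.card (ZMod p × ZMod p) : 𝕜)⁻¹ • ∑ s, f (x + gen p n s)
      = ((Fintype.card (ZMod p × ZMod p) : ℝ)⁻¹ : ℝ) • ∑ s, f (x + gen p n s) := by
    rw [RCLike.real_smul_eq_coe_smul (K := 𝕜)]
    push_cast
    rfl
  rw [h1, map_smul, map_sum, Complex.real_smul]
  push_cast
  rfl

end

/-! ## Word length -/

section
variable (p n : ℕ) [hp : Fact p.Prime]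

/-- `x` is a sum of `k` generators. -/
def InB (k : ℕ) (x : Fin n → ZMod p) : Prop :=
  ∃ c : Fin k → ZMod p × ZMod p, ∑ i, gen p n (c i) = x

theorem inB_succ (k : ℕ) (x : Fin n → ZMod p) (q : ZMod p × ZMod p) (h : InB p n k x) :
    InB p n (k + 1) (x + gen p n q) := by
  obtain ⟨c, hc⟩ := h
  refine ⟨Fin.snoc (α := fun _ => ZMod p × ZMod p) c q, ?_⟩
  rw [Fin.sum_univ_castSucc]
  simp only [Fin.snoc_castSucc, Fin.snoc_last, hc]

theorem gen_zero (t : ZMod p) : gen p n (0, t) = 0 := by funext i; simp [gen]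

theorem inB_mono (k : ℕ) (x : Fin n → ZMod p) (h : InB p n k x) : InB p n (k + 1) x := by
  have := inB_succ p n k x (0, 0) h
  rwa [gen_zero, add_zero] at this

open Classical in
/-- Truncated word length. -/
noncomputable def phi (R : ℕ) (x : Fin n → ZMod p) : ℝ :=
  ∑ k ∈ Finset.range R, if InB p n k x then (0 : ℝ) else 1

theorem phi_zero (R : ℕ) : phi p n R 0 = 0 := by
  classical
  unfold phi
  refine Finset.sum_eq_zero fun k _ => ?_
  rw [if_pos]
  refine ⟨fun _ => (0, 0), ?_⟩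
  simp [gen_zero]

theorem phi_nonneg (R : ℕ) (x : Fin n → ZMod p) : 0 ≤ phi p n R x := by
  classical
  unfold phi
  refine Finset.sum_nonneg fun k _ => ?_
  split_ifs <;> norm_num

theorem phi_le (R : ℕ) (x : Fin n → ZMod p) : phi p n R x ≤ R := by
  classical
  unfold phi
  calc _ ≤ ∑ _k ∈ Finset.range R, (1 : ℝ) := by
        refine Finset.sum_le_sum fun k _ => ?_
        split_ifs <;> norm_num
    _ = R := by simp

theorem phi_step (R : ℕ) (x y : Fin n → ZMod p)
    (h : ∀ k, InB p n k x → InB p n (k + 1) y) : phi p n R y ≤ phi p n R x + 1 := by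
  classical
  unfold phi
  cases R with
  | zero => simp
  | succ R =>
    rw [Finset.sum_range_succ' (fun k => if InB p n k y then (0 : ℝ) else 1) R,
      Finset.sum_range_succ (fun k => if InB p n k x then (0 : ℝ) else 1) R]
    have h1 : ∑ k ∈ Finset.range R, (if InB p n (k + 1) y then (0 : ℝ) else 1)
        ≤ ∑ k ∈ Finset.range R, (if InB p n k x then (0 : ℝ) else 1) := by
      refine Finset.sum_le_sum fun k _ => ?_
      by_cases hk : InB p n k x
      · rw [if_pos hk, if_pos (h k hk)]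
      · rw [if_neg hk]; split_ifs <;> norm_num
    have h2 : (if InB p n 0 y then (0 : ℝ) else 1) ≤ 1 := by split_ifs <;> norm_num
    have h3 : (0 : ℝ) ≤ (if InB p n R x then (0 : ℝ) else 1) := by split_ifs <;> norm_num
    linarith

theorem phi_lip (R : ℕ) (x : Fin n → ZMod p) (q : ZMod p × ZMod p) :
    |phi p n R (x + gen p n q) - phi p n R x| ≤ 1 := by
  rw [abs_le]
  have h1 := phi_step p n R x (x + gen p n q) (fun k hk => inB_succ p n k x q hk)
  have h2 := phi_step p n R (x + gen p n q) x (fun k hk => by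
    have h3 := inB_succ p n k _ (-q.1, q.2) hk
    have h4 : x + gen p n q + gen p n (-q.1, q.2) = x := by
      funext i; simp [gen]
    rwa [h4] at h3)
  constructor <;> linarith

theorem card_inB (k : ℕ) [DecidablePred (InB p n k)] :
    (Finset.univ.filter fun x => InB p n k x).card ≤ (p * p) ^ k := by
  classical
  have h1 : (Finset.univ.filter fun x => InB p n k x)
      ⊆ (Finset.univ : Finset (Fin k → ZMod p × ZMod p)).image fun c => ∑ i, gen p n (c i) := by
    intro x hx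
    rw [Finset.mem_filter] at hx
    obtain ⟨c, hc⟩ := hx.2
    rw [Finset.mem_image]
    exact ⟨c, Finset.mem_univ _, hc⟩
  calc _ ≤ _ := Finset.card_le_card h1
    _ ≤ (Finset.univ : Finset (Fin k → ZMod p × ZMod p)).card := Finset.card_image_le
    _ = (p * p) ^ k := by simp [ZMod.card]

theorem sum_phi (R : ℕ) : (R / 2 : ℝ) * Fintype.card (Fin (2 * R) → ZMod p)
    ≤ ∑ x, phi p (2 * R) R x := by
  classical
  have hcardG : (Fintype.card (Fin (2 * R) → ZMod p) : ℝ) = (p * p : ℝ) ^ R := by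
    rw [Fintype.card_fun, ZMod.card, Fintype.card_fin, pow_mul]
    push_cast; ring
  have h1 : ∑ x, phi p (2 * R) R x
      = ∑ k ∈ Finset.range R, ∑ x, if InB p (2 * R) k x then (0 : ℝ) else 1 := by
    unfold phi
    rw [Finset.sum_comm]
  rw [h1]
  have h2 : ∀ k ∈ Finset.range R, (1 / 2 : ℝ) * Fintype.card (Fin (2 * R) → ZMod p)
      ≤ ∑ x : Fin (2 * R) → ZMod p, if InB p (2 * R) k x then (0 : ℝ) else 1 := by
    intro k hk
    rw [Finset.mem_range] at hk
    have h3 : ∑ x : Fin (2 * R) → ZMod p, (if InB p (2 * R) k x then (0 : ℝ) else 1)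
        = (Fintype.card (Fin (2 * R) → ZMod p) : ℝ)
          - ((Finset.univ.filter fun x => InB p (2 * R) k x).card : ℝ) := by
      have h4 : ∀ x : Fin (2 * R) → ZMod p, (if InB p (2 * R) k x then (0 : ℝ) else 1)
          = 1 - (if InB p (2 * R) k x then (1 : ℝ) else 0) := by
        intro x; split_ifs <;> norm_num
      rw [Finset.sum_congr rfl fun x _ => h4 x, Finset.sum_sub_distrib, Finset.sum_boole]
      simp
    rw [h3]
    have h5 : ((Finset.univ.filter fun x => InB p (2 * R) k x).card : ℝ) ≤ (p * p : ℝ) ^ k := by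
      exact_mod_cast card_inB p (2 * R) k
    have hp2 : (2 : ℝ) ≤ p := by exact_mod_cast hp.out.two_le
    have h6 : 2 * (p * p : ℝ) ^ k ≤ (p * p : ℝ) ^ R := by
      have h7 : (2 : ℝ) ≤ p * p := by nlinarith
      calc 2 * (p * p : ℝ) ^ k ≤ (p * p) * (p * p : ℝ) ^ k :=
            mul_le_mul_of_nonneg_right h7 (by positivity)
        _ = (p * p : ℝ) ^ (k + 1) := by ring
        _ ≤ (p * p : ℝ) ^ R := pow_le_pow_right₀ (by linarith) hk
    rw [hcardG]
    linarith
  calc (R / 2 : ℝ) * Fintype.card (Fin (2 * R) → ZMod p)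
      = ∑ _k ∈ Finset.range R, (1 / 2 : ℝ) * Fintype.card (Fin (2 * R) → ZMod p) := by
        rw [Finset.sum_const, Finset.card_range, nsmul_eq_mul]; ring
    _ ≤ _ := Finset.sum_le_sum h2

end

end Pool.Agent.Lib_helper54.FD.T4a

namespace Pool.Agent.Lib_helper54.FD

open Finset

theorem exists_expander (𝕜 : Type) [RCLike 𝕜] (R : ℕ) (ε : ℝ) (hε : 0 < ε) :
    ∃ (G : Type) (_ : AddCommGroup G) (_ : Fintype G) (S : Type) (_ : Fintype S)
      (_ : Nonempty S) (g : S → G) (φ : G → ℝ),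
      φ 0 = 0 ∧ (∀ x, 0 ≤ φ x ∧ φ x ≤ R) ∧ (∀ x s, |φ (x + g s) - φ x| ≤ 1) ∧
      (R / 2 : ℝ) * Fintype.card G ≤ ∑ x, φ x ∧
      ∀ f : G → 𝕜, ∑ x, f x = 0 →
        ∑ x, ‖(Fintype.card S : 𝕜)⁻¹ • ∑ s, f (x + g s)‖ ^ 2 ≤ ε * ∑ x, ‖f x‖ ^ 2 := by
  -- a large prime
  obtain ⟨N, hN⟩ := exists_nat_gt ((2 * R : ℝ) / Real.sqrt ε)
  obtain ⟨p, hpN, hpp⟩ := Nat.exists_infinite_primes N
  have : Fact p.Prime := ⟨hpp⟩
  have hsq : 0 < Real.sqrt ε := Real.sqrt_pos.mpr hε
  have hp0 : (0 : ℝ) < p := by exact_mod_cast hpp.pos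
  have hle : (((2 * R : ℕ) : ℝ) / p) ^ 2 ≤ ε := by
    have h1 : (2 * R : ℝ) / Real.sqrt ε ≤ p := hN.le.trans (by exact_mod_cast hpN)
    have h2 : ((2 * R : ℕ) : ℝ) / p ≤ Real.sqrt ε := by
      rw [div_le_iff₀ hp0]
      rw [div_le_iff₀ hsq] at h1
      push_cast
      linarith
    calc (((2 * R : ℕ) : ℝ) / p) ^ 2 ≤ Real.sqrt ε ^ 2 :=
          pow_le_pow_left₀ (by positivity) h2 2
      _ = ε := Real.sq_sqrt hε.le
  refine ⟨Fin (2 * R) → ZMod p, inferInstance, inferInstance, ZMod p × ZMod p, inferInstance,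
    inferInstance, T4a.gen p (2 * R), T4a.phi p (2 * R) R, T4a.phi_zero p _ R,
    fun x => ⟨T4a.phi_nonneg p _ R x, T4a.phi_le p _ R x⟩, fun x s => T4a.phi_lip p _ R x s,
    T4a.sum_phi p R, ?_⟩
  intro f hf
  refine (T4a.contraction p (2 * R) f hf).trans ?_
  exact mul_le_mul_of_nonneg_right hle (Finset.sum_nonneg fun x _ => by positivity)

end Pool.Agent.Lib_helper54.FD
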