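import Mathlib

set_option autoImplicit false

/-! (Proofs by helper77.) -/

/-!
# T4b: from an `L²` contraction to the `L¹` Poincare inequality
-/

namespace Pool.Agent.Lib_helper54.FD.T4b

open Finset

variable {𝕜 : Type} [RCLike 𝕜]

section mazur
variable {Y : Type} [NormedAddCommGroup Y] [NormedSpace 𝕜 Y]

/-- The Mazur map `u ↦ u / ‖u‖^{1/2}`. -/
noncomputable def M (𝕜 : Type) [RCLike 𝕜] {Y : Type} [NormedAddCommGroup Y] [NormedSpace 𝕜 Y]
    (u : Y) : Y := (((Real.sqrt ‖u‖)⁻¹ : ℝ) : 𝕜) • u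

theorem M_neg (u : Y) : M 𝕜 (-u) = -M 𝕜 u := by
  unfold M
  rw [norm_neg, smul_neg]

theorem norm_M_sq (u : Y) : ‖M 𝕜 u‖ ^ 2 = ‖u‖ := by
  unfold M
  rw [norm_smul, RCLike.norm_ofReal, abs_of_nonneg (by positivity), mul_pow, inv_pow,
    Real.sq_sqrt (norm_nonneg _)]
  by_cases h : ‖u‖ = 0
  · rw [h]; simp
  · field_simp

theorem M_holder_aux (u v : Y) (huv : ‖v‖ ≤ ‖u‖) : ‖M 𝕜 u - M 𝕜 v‖ ^ 2 ≤ 8 * ‖u - v‖ := by
  by_cases hv : ‖v‖ = 0
  · have hv0 : v = 0 := norm_eq_zero.mp hv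
    subst hv0
    have : M 𝕜 (0 : Y) = 0 := by unfold M; rw [smul_zero]
    rw [this, sub_zero, sub_zero, norm_M_sq]
    linarith [norm_nonneg u]
  · have hvpos : 0 < ‖v‖ := lt_of_le_of_ne (norm_nonneg v) (Ne.symm hv)
    have hupos : 0 < ‖u‖ := lt_of_lt_of_le hvpos huv
    set a : ℝ := Real.sqrt ‖u‖ with ha
    set b : ℝ := Real.sqrt ‖v‖ with hb
    have hapos : 0 < a := Real.sqrt_pos.mpr hupos
    have hbpos : 0 < b := Real.sqrt_pos.mpr hvpos
    have ha2 : a ^ 2 = ‖u‖ := Real.sq_sqrt hupos.le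
    have hb2 : b ^ 2 = ‖v‖ := Real.sq_sqrt hvpos.le
    have hba : b ≤ a := Real.sqrt_le_sqrt huv
    have hd : a ^ 2 - b ^ 2 ≤ ‖u - v‖ := by
      rw [ha2, hb2]; exact norm_sub_norm_le u v
    have hd2 : ‖u - v‖ ≤ 2 * a ^ 2 := by
      rw [ha2]; calc ‖u - v‖ ≤ ‖u‖ + ‖v‖ := norm_sub_le u v
        _ ≤ 2 * ‖u‖ := by linarith
    have key : ‖M 𝕜 u - M 𝕜 v‖ ≤ 2 * (‖u - v‖ / a) := by
      have h1 : M 𝕜 u - M 𝕜 v = ((a⁻¹ : ℝ) : 𝕜) • (u - v) + (((a⁻¹ : ℝ) - b⁻¹ : ℝ) : 𝕜) • v := by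
        unfold M
        rw [RCLike.ofReal_sub, sub_smul, smul_sub]
        abel
      have h2 : ‖((a⁻¹ : ℝ) : 𝕜) • (u - v)‖ = ‖u - v‖ / a := by
        rw [norm_smul, RCLike.norm_ofReal, abs_of_nonneg (by positivity)]
        field_simp
      have h3 : ‖(((a⁻¹ : ℝ) - b⁻¹ : ℝ) : 𝕜) • v‖ ≤ ‖u - v‖ / a := by
        rw [norm_smul, RCLike.norm_ofReal, ← hb2]
        have h4 : a⁻¹ - b⁻¹ ≤ 0 := by
          rw [sub_nonpos]; exact inv_anti₀ hbpos hba
        rw [abs_of_nonpos h4, le_div_iff₀ hapos]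
        have h5 : -(a⁻¹ - b⁻¹) * b ^ 2 * a = b * (a - b) := by
          field_simp; ring
        rw [h5]
        calc b * (a - b) ≤ (a + b) * (a - b) :=
              mul_le_mul_of_nonneg_right (by linarith) (by linarith)
          _ = a ^ 2 - b ^ 2 := by ring
          _ ≤ _ := hd
      rw [h1]
      calc _ ≤ ‖((a⁻¹ : ℝ) : 𝕜) • (u - v)‖ + ‖(((a⁻¹ : ℝ) - b⁻¹ : ℝ) : 𝕜) • v‖ := norm_add_le _ _
        _ ≤ _ := by rw [h2]; linarith
    calc ‖M 𝕜 u - M 𝕜 v‖ ^ 2 ≤ (2 * (‖u - v‖ / a)) ^ 2 :=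
          pow_le_pow_left₀ (norm_nonneg _) key 2
      _ = 4 * ‖u - v‖ * (‖u - v‖ / a ^ 2) := by field_simp; ring
      _ ≤ 4 * ‖u - v‖ * 2 := by
          refine mul_le_mul_of_nonneg_left ?_ (by positivity)
          rw [div_le_iff₀ (by positivity)]; exact hd2
      _ = _ := by ring

theorem M_holder (u v : Y) : ‖M 𝕜 u - M 𝕜 v‖ ^ 2 ≤ 8 * ‖u - v‖ := by
  rcases le_total ‖v‖ ‖u‖ with h | h
  · exact M_holder_aux u v h
  · rw [norm_sub_rev, norm_sub_rev u v]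
    exact M_holder_aux v u h

end mazur

section poincare
variable {G : Type} [AddCommGroup G] [Fintype G] {S : Type} [Fintype S]
    [Nonempty S] (g : S → G) {Y : Type} [NormedAddCommGroup Y] [NormedSpace 𝕜 Y]

theorem jensen {ι : Type} [Fintype ι] [Nonempty ι] (v : ι → Y) :
    ‖(Fintype.card ι : 𝕜)⁻¹ • ∑ i, v i‖ ^ 2 ≤ (∑ i, ‖v i‖ ^ 2) / Fintype.card ι := by
  have hc : (0 : ℝ) < Fintype.card ι := by exact_mod_cast Fintype.card_pos
  rw [norm_smul, norm_inv, RCLike.norm_natCast, mul_pow, le_div_iff₀ hc]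
  have h1 : ‖∑ i, v i‖ ^ 2 ≤ (Fintype.card ι : ℝ) * ∑ i, ‖v i‖ ^ 2 := by
    calc ‖∑ i, v i‖ ^ 2 ≤ (∑ i, ‖v i‖) ^ 2 :=
          pow_le_pow_left₀ (norm_nonneg _) (norm_sum_le _ _) 2
      _ ≤ _ := by
          have := sq_sum_le_card_mul_sum_sq (s := (Finset.univ : Finset ι)) (f := fun i => ‖v i‖)
          simpa using this
  calc ((Fintype.card ι : ℝ)⁻¹) ^ 2 * ‖∑ i, v i‖ ^ 2 * Fintype.card ι
      ≤ ((Fintype.card ι : ℝ)⁻¹) ^ 2 * ((Fintype.card ι : ℝ) * ∑ i, ‖v i‖ ^ 2) * Fintype.card ι := by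
        gcongr
    _ = ∑ i, ‖v i‖ ^ 2 := by field_simp

/-- Hypothesis: contraction on mean-zero functions. -/
def Contr (𝕜 : Type) [RCLike 𝕜] {G : Type} [AddCommGroup G] [Fintype G] {S : Type} [Fintype S]
    (g : S → G) (Y : Type) [NormedAddCommGroup Y] [NormedSpace 𝕜 Y] : Prop :=
  ∀ f : G → Y, ∑ x, f x = 0 →
      ∑ x, ‖(Fintype.card S : 𝕜)⁻¹ • ∑ s, f (x + g s)‖ ^ 2 ≤ (1 / 4 : ℝ) * ∑ x, ‖f x‖ ^ 2

theorem l2_poincare (h : Contr 𝕜 g Y) (F : G → Y) (hF : ∑ x, F x = 0) :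
    ∑ x, ‖F x‖ ^ 2 ≤ 4 * ((∑ x, ∑ s, ‖F (x + g s) - F x‖ ^ 2) / Fintype.card S) := by
  have hc : (0 : ℝ) < Fintype.card S := by exact_mod_cast Fintype.card_pos
  have hc' : (Fintype.card S : 𝕜) ≠ 0 := by
    have : Fintype.card S ≠ 0 := Fintype.card_ne_zero
    exact_mod_cast this
  have h1 := h F hF
  set AF : G → Y := fun x => (Fintype.card S : 𝕜)⁻¹ • ∑ s, F (x + g s) with hAF
  have h2 : ∀ x, ‖F x‖ ^ 2 ≤ 2 * ‖AF x - F x‖ ^ 2 + 2 * ‖AF x‖ ^ 2 := by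
    intro x
    have h3 : ‖F x‖ ≤ ‖AF x - F x‖ + ‖AF x‖ := by
      calc ‖F x‖ = ‖AF x - (AF x - F x)‖ := by congr 1; abel
        _ ≤ ‖AF x‖ + ‖AF x - F x‖ := norm_sub_le _ _
        _ = _ := add_comm _ _
    nlinarith [norm_nonneg (F x), norm_nonneg (AF x - F x), norm_nonneg (AF x),
      sq_nonneg (‖AF x - F x‖ - ‖AF x‖)]
  have h4 : ∀ x, ‖AF x - F x‖ ^ 2 ≤ (∑ s, ‖F (x + g s) - F x‖ ^ 2) / Fintype.card S := by
    intro x
    have h5 : AF x - F x = (Fintype.card S : 𝕜)⁻¹ • ∑ s, (F (x + g s) - F x) := by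
      rw [Finset.sum_sub_distrib, Finset.sum_const, Finset.card_univ, smul_sub]
      congr 1
      rw [← Nat.cast_smul_eq_nsmul 𝕜, smul_smul, inv_mul_cancel₀ hc', one_smul]
    rw [h5]
    exact jensen _
  have h6 : ∑ x, ‖AF x - F x‖ ^ 2 ≤ (∑ x, ∑ s, ‖F (x + g s) - F x‖ ^ 2) / Fintype.card S := by
    rw [Finset.sum_div]
    exact Finset.sum_le_sum fun x _ => h4 x
  have h7 : ∑ x, ‖F x‖ ^ 2 ≤ 2 * ∑ x, ‖AF x - F x‖ ^ 2 + 2 * ∑ x, ‖AF x‖ ^ 2 := by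
    rw [Finset.mul_sum, Finset.mul_sum, ← Finset.sum_add_distrib]
    exact Finset.sum_le_sum fun x _ => h2 x
  linarith

end poincare

end Pool.Agent.Lib_helper54.FD.T4b

namespace Pool.Agent.Lib_helper54.FD

open Finset T4b

variable {𝕜 : Type} [RCLike 𝕜]

theorem poincare_of_contraction (G : Type) [AddCommGroup G] [Fintype G] (S : Type) [Fintype S]
    [Nonempty S] (g : S → G) (Y : Type) [NormedAddCommGroup Y] [NormedSpace 𝕜 Y]
    (h : ∀ f : G → Y, ∑ x, f x = 0 →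
      ∑ x, ‖(Fintype.card S : 𝕜)⁻¹ • ∑ s, f (x + g s)‖ ^ 2 ≤ (1 / 4 : ℝ) * ∑ x, ‖f x‖ ^ 2)
    (f : G → Y) :
    ∑ x, ‖f x‖ ≤ 1000 * ((∑ x, ∑ s, ‖f (x + g s) - f x‖) / Fintype.card S) + ‖∑ x, f x‖ := by
  classical
  have hC : Contr 𝕜 g Y := h
  have hc : (0 : ℝ) < Fintype.card S := by exact_mod_cast Fintype.card_pos
  have hN : (0 : ℝ) < Fintype.card G := by exact_mod_cast Fintype.card_pos
  have hN' : (Fintype.card G : 𝕜) ≠ 0 := by
    have : Fintype.card G ≠ 0 := Fintype.card_ne_zero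
    exact_mod_cast this
  set N : ℝ := (Fintype.card G : ℝ) with hNdef
  set E : ℝ := (∑ x, ∑ s, ‖f (x + g s) - f x‖) / Fintype.card S with hE
  have hE0 : 0 ≤ E := by rw [hE]; positivity
  -- the antisymmetric kernel
  set H : G → G → Y := fun x y => M 𝕜 (f x - f y) with hH
  set m : G → Y := fun y => (Fintype.card G : 𝕜)⁻¹ • ∑ x, H x y with hm
  have hanti : ∀ x y, H x y = -H y x := by
    intro x y
    simp only [hH]
    rw [← M_neg, neg_sub]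
  -- row estimate
  have hrow : ∀ y, ∑ x, ‖H x y - m y‖ ^ 2 ≤ 32 * E := by
    intro y
    have hz : ∑ x, (H x y - m y) = 0 := by
      rw [Finset.sum_sub_distrib, Finset.sum_const, Finset.card_univ, hm]
      simp only
      rw [← Nat.cast_smul_eq_nsmul 𝕜, smul_smul, mul_inv_cancel₀ hN', one_smul, sub_self]
    have h1 := l2_poincare g hC (fun x => H x y - m y) hz
    have h2 : ∑ x, ∑ s, ‖(H (x + g s) y - m y) - (H x y - m y)‖ ^ 2
        ≤ ∑ x, ∑ s, 8 * ‖f (x + g s) - f x‖ := by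
      refine Finset.sum_le_sum fun x _ => Finset.sum_le_sum fun s _ => ?_
      have h3 : (H (x + g s) y - m y) - (H x y - m y)
          = M 𝕜 (f (x + g s) - f y) - M 𝕜 (f x - f y) := by
        simp only [hH]; abel
      rw [h3]
      have h4 := M_holder (𝕜 := 𝕜) (f (x + g s) - f y) (f x - f y)
      have h5 : f (x + g s) - f y - (f x - f y) = f (x + g s) - f x := by abel
      rwa [h5] at h4
    have h6 : ∑ x, ∑ s, 8 * ‖f (x + g s) - f x‖ = 8 * ∑ x, ∑ s, ‖f (x + g s) - f x‖ := by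
      simp_rw [← Finset.mul_sum]
    calc ∑ x, ‖H x y - m y‖ ^ 2 ≤ _ := h1
      _ ≤ 4 * ((8 * ∑ x, ∑ s, ‖f (x + g s) - f x‖) / Fintype.card S) := by
          rw [← h6]
          gcongr
      _ = 32 * E := by rw [hE]; ring
  -- mean estimate
  have hmz : ∑ y, m y = 0 := by
    rw [hm]
    simp only
    rw [← Finset.smul_sum]
    have h1 : ∑ y, ∑ x, H x y = -∑ y, ∑ x, H x y := by
      calc ∑ y, ∑ x, H x y = ∑ y, ∑ x, -H y x :=
            Finset.sum_congr rfl fun y _ => Finset.sum_congr rfl fun x _ => hanti x y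
        _ = -∑ y, ∑ x, H y x := by
            rw [← Finset.sum_neg_distrib]
            refine Finset.sum_congr rfl fun y _ => ?_
            rw [Finset.sum_neg_distrib]
        _ = -∑ y, ∑ x, H x y := by rw [Finset.sum_comm]
    have h2 : ∑ y, ∑ x, H x y = 0 := by
      have h3 : (2 : 𝕜) • ∑ y, ∑ x, H x y = 0 := by
        rw [two_smul]
        nth_rewrite 1 [h1]
        exact neg_add_cancel _
      rcases smul_eq_zero.mp h3 with h4 | h4
      · exact absurd h4 two_ne_zero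
      · exact h4
    rw [h2, smul_zero]
  have hmean : ∑ y, ‖m y‖ ^ 2 ≤ 32 * E := by
    have h1 := l2_poincare g hC m hmz
    have h2 : ∀ y s, ‖m (y + g s) - m y‖ ^ 2 ≤ 8 * ‖f (y + g s) - f y‖ := by
      intro y s
      have h3 : m (y + g s) - m y = (Fintype.card G : 𝕜)⁻¹ • ∑ x, (H x (y + g s) - H x y) := by
        rw [Finset.sum_sub_distrib, smul_sub]
      rw [h3]
      refine (jensen _).trans ?_
      have h4 : ∑ x, ‖H x (y + g s) - H x y‖ ^ 2 ≤ ∑ _x : G, 8 * ‖f (y + g s) - f y‖ := by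
        refine Finset.sum_le_sum fun x _ => ?_
        have h5 := M_holder (𝕜 := 𝕜) (f x - f (y + g s)) (f x - f y)
        have h6 : f x - f (y + g s) - (f x - f y) = -(f (y + g s) - f y) := by abel
        rw [h6, norm_neg] at h5
        exact h5
      rw [Finset.sum_const, Finset.card_univ, nsmul_eq_mul] at h4
      rw [div_le_iff₀ hN]
      linarith
    have h7 : ∑ y, ∑ s, ‖m (y + g s) - m y‖ ^ 2 ≤ 8 * ∑ x, ∑ s, ‖f (x + g s) - f x‖ := by
      rw [Finset.mul_sum]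
      refine Finset.sum_le_sum fun y _ => ?_
      rw [Finset.mul_sum]
      exact Finset.sum_le_sum fun s _ => h2 y s
    calc ∑ y, ‖m y‖ ^ 2 ≤ _ := h1
      _ ≤ 4 * ((8 * ∑ x, ∑ s, ‖f (x + g s) - f x‖) / Fintype.card S) := by gcongr
      _ = 32 * E := by rw [hE]; ring
  -- total
  have htot : ∑ y, ∑ x, ‖f x - f y‖ ≤ N * (128 * E) := by
    have h1 : ∀ y, ∑ x, ‖f x - f y‖ ≤ 64 * E + 2 * (N * ‖m y‖ ^ 2) := by
      intro y
      have h2 : ∀ x, ‖f x - f y‖ ≤ 2 * ‖H x y - m y‖ ^ 2 + 2 * ‖m y‖ ^ 2 := by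
        intro x
        rw [← norm_M_sq (𝕜 := 𝕜) (f x - f y)]
        have h3 : ‖H x y‖ ≤ ‖H x y - m y‖ + ‖m y‖ := by
          calc ‖H x y‖ = ‖(H x y - m y) + m y‖ := by congr 1; abel
            _ ≤ _ := norm_add_le _ _
        change ‖H x y‖ ^ 2 ≤ _
        nlinarith [norm_nonneg (H x y), norm_nonneg (H x y - m y), norm_nonneg (m y),
          sq_nonneg (‖H x y - m y‖ - ‖m y‖)]
      calc ∑ x, ‖f x - f y‖ ≤ ∑ x, (2 * ‖H x y - m y‖ ^ 2 + 2 * ‖m y‖ ^ 2) :=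
            Finset.sum_le_sum fun x _ => h2 x
        _ = 2 * ∑ x, ‖H x y - m y‖ ^ 2 + N * (2 * ‖m y‖ ^ 2) := by
            rw [Finset.sum_add_distrib, ← Finset.mul_sum, Finset.sum_const, Finset.card_univ,
              nsmul_eq_mul]
        _ ≤ _ := by linarith [hrow y]
    calc ∑ y, ∑ x, ‖f x - f y‖ ≤ ∑ y, (64 * E + 2 * (N * ‖m y‖ ^ 2)) :=
          Finset.sum_le_sum fun y _ => h1 y
      _ = N * (64 * E) + 2 * N * ∑ y, ‖m y‖ ^ 2 := by
          rw [Finset.sum_add_distrib, Finset.sum_const, Finset.card_univ, nsmul_eq_mul,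
            Finset.mul_sum]
          congr 1
          exact Finset.sum_congr rfl fun y _ => by ring
      _ ≤ N * (64 * E) + 2 * N * (32 * E) := by
          have : 0 ≤ 2 * N := by positivity
          linarith [mul_le_mul_of_nonneg_left hmean this]
      _ = _ := by ring
  -- conclusion
  have hfin : ∀ x, N * ‖f x‖ ≤ ∑ y, ‖f x - f y‖ + ‖∑ y, f y‖ := by
    intro x
    have h1 : (Fintype.card G : 𝕜) • f x = ∑ y, (f x - f y) + ∑ y, f y := by
      rw [Finset.sum_sub_distrib, Finset.sum_const, Finset.card_univ,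
        ← Nat.cast_smul_eq_nsmul 𝕜]
      abel
    have h2 : ‖(Fintype.card G : 𝕜) • f x‖ = N * ‖f x‖ := by
      rw [norm_smul, RCLike.norm_natCast]
    rw [← h2, h1]
    exact (norm_add_le _ _).trans (by gcongr; exact norm_sum_le _ _)
  have hsum : N * ∑ x, ‖f x‖ ≤ N * (128 * E) + N * ‖∑ y, f y‖ := by
    rw [Finset.mul_sum]
    calc ∑ x, N * ‖f x‖ ≤ ∑ x, (∑ y, ‖f x - f y‖ + ‖∑ y, f y‖) :=
          Finset.sum_le_sum fun x _ => hfin x
      _ = ∑ x, ∑ y, ‖f x - f y‖ + N * ‖∑ y, f y‖ := by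
          rw [Finset.sum_add_distrib, Finset.sum_const, Finset.card_univ, nsmul_eq_mul]
      _ ≤ _ := by
          rw [Finset.sum_comm]
          linarith
  have h8 : ∑ x, ‖f x‖ ≤ 128 * E + ‖∑ y, f y‖ := by
    have h9 : N * ∑ x, ‖f x‖ ≤ N * (128 * E + ‖∑ y, f y‖) := by linarith
    exact le_of_mul_le_mul_left h9 hN
  linarith

end Pool.Agent.Lib_helper54.FD
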