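import Pool.Agent.Lib_helper54.FD.Induct
import Pool.Agent.Lib_helper54.FD.T4a
import Pool.Agent.Lib_helper54.FD.T4b

set_option autoImplicit false

/-! Blocks from Cayley graphs. -/

namespace Pool.Agent.Lib_helper54.FD

open Finset

variable {𝕜 : Type} [RCLike 𝕜]

/-- Comparison of a norm on a finite-dimensional space with a Euclidean one. -/
theorem exists_coords (Y : Type) [NormedAddCommGroup Y] [NormedSpace 𝕜 Y]
    [FiniteDimensional 𝕜 Y] : ∃ (n : ℕ) (e : Y →ₗ[𝕜] (Fin n → 𝕜)) (K L : ℝ), 0 ≤ K ∧ 0 ≤ L ∧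
      (∀ y, ‖y‖ ^ 2 ≤ K * ∑ k, ‖e y k‖ ^ 2) ∧ ∀ y, ∑ k, ‖e y k‖ ^ 2 ≤ L * ‖y‖ ^ 2 := by
  let e : Y ≃L[𝕜] (Fin (Module.finrank 𝕜 Y) → 𝕜) :=
    (Module.finBasis 𝕜 Y).equivFun.toContinuousLinearEquiv
  refine ⟨_, (e.toLinearEquiv : Y →ₗ[𝕜] (Fin (Module.finrank 𝕜 Y) → 𝕜)),
    ‖(e.symm : (Fin (Module.finrank 𝕜 Y) → 𝕜) →L[𝕜] Y)‖ ^ 2,
    Module.finrank 𝕜 Y * ‖(e : Y →L[𝕜] (Fin (Module.finrank 𝕜 Y) → 𝕜))‖ ^ 2,
    by positivity, by positivity, fun y => ?_, fun y => ?_⟩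
  · have h1 : ‖y‖ ≤ ‖(e.symm : (Fin (Module.finrank 𝕜 Y) → 𝕜) →L[𝕜] Y)‖ * ‖e y‖ := by
      have := (e.symm : (Fin (Module.finrank 𝕜 Y) → 𝕜) →L[𝕜] Y).le_opNorm (e y)
      simpa using this
    have h2 : ‖e y‖ ^ 2 ≤ ∑ k, ‖e y k‖ ^ 2 := by
      have h3 : ‖e y‖ ≤ Real.sqrt (∑ k, ‖e y k‖ ^ 2) := by
        refine (pi_norm_le_iff_of_nonneg (Real.sqrt_nonneg _)).2 fun k => ?_
        refine Real.le_sqrt_of_sq_le ?_
        exact single_le_sum (f := fun k => ‖e y k‖ ^ 2) (fun _ _ => by positivity) (mem_univ k)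
      calc ‖e y‖ ^ 2 ≤ Real.sqrt (∑ k, ‖e y k‖ ^ 2) ^ 2 := by gcongr
        _ = _ := Real.sq_sqrt (sum_nonneg fun _ _ => by positivity)
    calc ‖y‖ ^ 2 ≤ (‖(e.symm : (Fin (Module.finrank 𝕜 Y) → 𝕜) →L[𝕜] Y)‖ * ‖e y‖) ^ 2 := by gcongr
      _ = ‖(e.symm : (Fin (Module.finrank 𝕜 Y) → 𝕜) →L[𝕜] Y)‖ ^ 2 * ‖e y‖ ^ 2 := by ring
      _ ≤ _ := by gcongr; exact h2
  · have h1 : ∀ k, ‖e y k‖ ^ 2 ≤
        (‖(e : Y →L[𝕜] (Fin (Module.finrank 𝕜 Y) → 𝕜))‖ * ‖y‖) ^ 2 := fun k => by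
      gcongr
      exact (norm_le_pi_norm (e y) k).trans
        ((e : Y →L[𝕜] (Fin (Module.finrank 𝕜 Y) → 𝕜)).le_opNorm y)
    calc ∑ k, ‖e y k‖ ^ 2 ≤ ∑ _k : Fin (Module.finrank 𝕜 Y),
          (‖(e : Y →L[𝕜] (Fin (Module.finrank 𝕜 Y) → 𝕜))‖ * ‖y‖) ^ 2 := sum_le_sum fun k _ => h1 k
      _ = _ := by
        rw [sum_const, card_univ, Fintype.card_fin, nsmul_eq_mul]
        ring

/-- From scalar contractions to vector-valued ones. -/
theorem contraction_of_scalar {G S : Type} [AddCommGroup G] [Fintype G] [Fintype S]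
    (g : S → G) (Y : Type) [NormedAddCommGroup Y] [NormedSpace 𝕜 Y] {n : ℕ}
    (e : Y →ₗ[𝕜] (Fin n → 𝕜)) {K L ε : ℝ} (hK : 0 ≤ K) (hε : 0 ≤ ε)
    (h1 : ∀ y, ‖y‖ ^ 2 ≤ K * ∑ k, ‖e y k‖ ^ 2) (h2 : ∀ y, ∑ k, ‖e y k‖ ^ 2 ≤ L * ‖y‖ ^ 2)
    (h : ∀ f : G → 𝕜, ∑ x, f x = 0 →
      ∑ x, ‖(Fintype.card S : 𝕜)⁻¹ • ∑ s, f (x + g s)‖ ^ 2 ≤ ε * ∑ x, ‖f x‖ ^ 2)
    (f : G → Y) (hf : ∑ x, f x = 0) :
    ∑ x, ‖(Fintype.card S : 𝕜)⁻¹ • ∑ s, f (x + g s)‖ ^ 2 ≤ (K * ε * L) * ∑ x, ‖f x‖ ^ 2 := by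
  have e1 : ∀ x k, e ((Fintype.card S : 𝕜)⁻¹ • ∑ s, f (x + g s)) k =
      (Fintype.card S : 𝕜)⁻¹ • ∑ s, e (f (x + g s)) k := fun x k => by
    rw [map_smul, map_sum, Pi.smul_apply, Finset.sum_apply]
  have e2 : ∀ k, ∑ x, e (f x) k = 0 := fun k => by
    have := congrFun (congrArg e hf) k
    rw [map_sum, Finset.sum_apply, map_zero] at this
    exact this
  calc ∑ x, ‖(Fintype.card S : 𝕜)⁻¹ • ∑ s, f (x + g s)‖ ^ 2
      ≤ ∑ x, K * ∑ k, ‖e ((Fintype.card S : 𝕜)⁻¹ • ∑ s, f (x + g s)) k‖ ^ 2 :=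
        sum_le_sum fun x _ => h1 _
    _ = K * ∑ k, ∑ x, ‖(Fintype.card S : 𝕜)⁻¹ • ∑ s, e (f (x + g s)) k‖ ^ 2 := by
        rw [← mul_sum, sum_comm]
        simp only [e1]
    _ ≤ K * ∑ k, ε * ∑ x, ‖e (f x) k‖ ^ 2 := by
        gcongr with k _
        exact h (fun x => e (f x) k) (e2 k)
    _ = K * ε * ∑ x, ∑ k, ‖e (f x) k‖ ^ 2 := by
        rw [← mul_sum, sum_comm]
        ring
    _ ≤ K * ε * ∑ x, L * ‖f x‖ ^ 2 := by
        gcongr with x _
        exact h2 _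
    _ = _ := by
        rw [← mul_sum]
        ring

/-- The `ℓ₁`-norm on the quotient. -/
theorem exists_quotient {A : Type} [Fintype A] (S : Submodule 𝕜 (A → 𝕜)) :
    ∃ (Y : Type) (_ : NormedAddCommGroup Y) (_ : NormedSpace 𝕜 Y) (_ : FiniteDimensional 𝕜 Y)
      (q : (A → 𝕜) →ₗ[𝕜] Y), (∀ x, q x = 0 ↔ x ∈ S) ∧ (∀ x, ‖q x‖ ≤ N x) ∧
      ∀ y, ∃ x, q x = y ∧ N x ≤ 2 * ‖y‖ := by
  let ι : PiLp 1 (fun _ : A => 𝕜) ≃ₗ[𝕜] (A → 𝕜) := WithLp.linearEquiv 1 𝕜 (A → 𝕜)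
  let T : Submodule 𝕜 (PiLp 1 (fun _ : A => 𝕜)) := S.comap ι.toLinearMap
  have hN : ∀ x : A → 𝕜, ‖ι.symm x‖ = N x := fun x => PiLp.norm_eq_of_L1 _
  have hT : IsClosed (T : Set (PiLp 1 (fun _ : A => 𝕜))) := T.closed_of_finiteDimensional
  refine ⟨PiLp 1 (fun _ : A => 𝕜) ⧸ T, inferInstance, inferInstance, inferInstance,
    T.mkQ ∘ₗ ι.symm.toLinearMap, fun x => ?_, fun x => ?_, fun y => ?_⟩
  · change T.mkQ (ι.symm x) = 0 ↔ _
    rw [Submodule.mkQ_apply, Submodule.Quotient.mk_eq_zero]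
    change ι (ι.symm x) ∈ S ↔ _
    rw [ι.apply_symm_apply]
  · rw [← hN]
    exact Submodule.Quotient.norm_mk_le T _
  · by_cases hy : y = 0
    · refine ⟨0, by rw [map_zero, hy], ?_⟩
      rw [N_zero]
      positivity
    · obtain ⟨x, hx, hx2⟩ := Submodule.Quotient.norm_mk_lt y (norm_pos_iff.2 hy)
      refine ⟨ι x, ?_, ?_⟩
      · change T.mkQ (ι.symm (ι x)) = y
        rw [ι.symm_apply_apply]
        exact hx
      · rw [← hN, ι.symm_apply_apply]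
        linarith

theorem hasBlocks (𝕜 : Type) [RCLike 𝕜] : HasBlocks 𝕜 := by
  intro A _ S R
  obtain ⟨Y, _, _, _, q, hq0, hq1, hq2⟩ := exists_quotient S
  obtain ⟨n, e, K, L, hK, hL, hKe, hLe⟩ := exists_coords (𝕜 := 𝕜) Y
  have hε : 0 < 1 / (4 * (K * L + 1)) := by positivity
  obtain ⟨G, _, _, T, _, _, g, φ, h0, hφ, hLip, hmean, hgap⟩ := exists_expander 𝕜 R _ hε
  classical
  have hcG : (0 : ℝ) < Fintype.card G := by exact_mod_cast Fintype.card_pos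
  have hcT : (0 : ℝ) < Fintype.card T := by exact_mod_cast Fintype.card_pos
  have hcon : ∀ f : G → Y, ∑ x, f x = 0 →
      ∑ x, ‖(Fintype.card T : 𝕜)⁻¹ • ∑ s, f (x + g s)‖ ^ 2 ≤ (1 / 4 : ℝ) * ∑ x, ‖f x‖ ^ 2 := by
    intro f hf
    refine (contraction_of_scalar g Y e hK hε.le hKe hLe hgap f hf).trans ?_
    gcongr
    rw [mul_one_div, div_mul_eq_mul_div, div_le_iff₀ (by positivity)]
    linarith
  have hpoin := poincare_of_contraction G T g Y hcon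
  set μ : ℝ := (∑ x, φ x) / Fintype.card G with hμ
  have hμ0 : 0 ≤ μ := div_nonneg (sum_nonneg fun x _ => (hφ x).1) hcG.le
  have hμR : μ ≤ R := by
    rw [hμ, div_le_iff₀ hcG]
    calc ∑ x, φ x ≤ ∑ _x : G, (R : ℝ) := sum_le_sum fun x _ => (hφ x).2
      _ = R * Fintype.card G := by rw [sum_const, card_univ, nsmul_eq_mul]; ring
  have hsum0 : ∑ x, (φ x - μ) = 0 := by
    rw [sum_sub_distrib, sum_const, card_univ, nsmul_eq_mul, hμ]
    field_simp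
    ring
  let t : (G × T) ⊕ Unit → G → 𝕜 := Sum.elim
    (fun p v => (Fintype.card T : 𝕜)⁻¹ * ((if v = p.1 + g p.2 then 1 else 0) -
      (if v = p.1 then 1 else 0))) (fun _ _ => 1)
  have ht1 : ∀ (M : Type) [AddCommGroup M] [Module 𝕜 M] (F : G → M) (p : G × T),
      ∑ v, t (Sum.inl p) v • F v = (Fintype.card T : 𝕜)⁻¹ • (F (p.1 + g p.2) - F p.1) := by
    intro M _ _ F p
    simp only [t, Sum.elim_inl, mul_smul, sub_smul, ← smul_sum, sum_sub_distrib, ite_smul,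
      one_smul, zero_smul, sum_ite_eq', mem_univ, if_true]
  have ht2 : ∀ (M : Type) [AddCommGroup M] [Module 𝕜 M] (F : G → M) (u : Unit),
      ∑ v, t (Sum.inr u) v • F v = ∑ v, F v := by
    intro M _ _ F u
    simp only [t, Sum.elim_inr, one_smul]
  have hnT : ‖((Fintype.card T : 𝕜))⁻¹‖ = (Fintype.card T : ℝ)⁻¹ := by
    rw [norm_inv, RCLike.norm_natCast]
  refine ⟨G, (G × T) ⊕ Unit, inferInstance, inferInstance, t,
    fun v x => ((φ (x - v) - μ : ℝ) : 𝕜), Sum.elim (fun _ => (Fintype.card T : ℝ)⁻¹) (fun _ => 0),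
    ⟨0⟩, fun v => ?_, fun f z hz => ?_, fun v x => ?_, fun v w => ?_, ?_, ?_⟩
  · -- columns
    rw [Fintype.sum_sum_type, Fintype.sum_prod_type]
    have h1 : ∀ x s, ‖t (Sum.inl (x, s)) v‖ ≤ (Fintype.card T : ℝ)⁻¹ *
        ((if v = x + g s then 1 else 0) + (if v = x then 1 else 0)) := by
      intro x s
      simp only [t, Sum.elim_inl, norm_mul, hnT]
      gcongr
      refine (norm_sub_le _ _).trans (add_le_add ?_ ?_) <;> split_ifs <;> simp
    have h2 : ∑ x : G, ∑ s : T, ‖t (Sum.inl (x, s)) v‖ ≤ 2 := by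
      calc ∑ x : G, ∑ s : T, ‖t (Sum.inl (x, s)) v‖
          ≤ ∑ x : G, ∑ s : T, (Fintype.card T : ℝ)⁻¹ *
            ((if v = x + g s then 1 else 0) + (if v = x then 1 else 0)) :=
            sum_le_sum fun x _ => sum_le_sum fun s _ => h1 x s
        _ = (Fintype.card T : ℝ)⁻¹ * ∑ s : T, ∑ x : G,
            (((if v = x + g s then 1 else 0) + (if v = x then 1 else 0) : ℝ)) := by
            rw [sum_comm, mul_sum]
            exact sum_congr rfl fun s _ => (mul_sum _ _ _).symm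
        _ = (Fintype.card T : ℝ)⁻¹ * ∑ _s : T, (2 : ℝ) := by
            congr 1
            refine sum_congr rfl fun s _ => ?_
            rw [sum_add_distrib]
            have h3 : ∀ x : G, (if v = x + g s then (1 : ℝ) else 0) =
                if v - g s = x then 1 else 0 := fun x => by
              simp only [sub_eq_iff_eq_add]
            simp only [h3, sum_ite_eq, mem_univ, if_true]
            norm_num
        _ = 2 := by
            rw [sum_const, card_univ, nsmul_eq_mul]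
            field_simp
    have h4 : ∑ u : Unit, ‖t (Sum.inr u) v‖ = 1 := by simp [t]
    rw [h4]
    linarith
  · -- lower bound
    have hq : ∀ w, ∑ v, t w v • q (f v) = q (z w) := fun w => by
      have := (hq0 _).2 (hz w)
      rw [map_sub, map_sum, sub_eq_zero] at this
      simp only [map_smul] at this
      exact this.symm
    choose f' hf1 hf2 using fun v => hq2 (q (f v))
    refine ⟨f', fun v => (hq0 _).1 (by rw [map_sub, hf1, sub_self]), ?_⟩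
    have h1 := hpoin (fun v => q (f v))
    have h2 : ∀ x s, (Fintype.card T : ℝ)⁻¹ * ‖q (f (x + g s)) - q (f x)‖ ≤
        N (z (Sum.inl (x, s))) := fun x s => by
      have h3 := ht1 Y (fun v => q (f v)) (x, s)
      rw [hq] at h3
      have h4 := hq1 (z (Sum.inl (x, s)))
      rw [h3, norm_smul, hnT] at h4
      exact h4
    have h5 : ‖∑ v, q (f v)‖ ≤ N (z (Sum.inr ())) := by
      have h3 := ht2 Y (fun v => q (f v)) ()
      rw [← h3, hq]
      exact hq1 _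
    have h6 : (∑ x, ∑ s, ‖q (f (x + g s)) - q (f x)‖) / Fintype.card T ≤
        ∑ x, ∑ s, N (z (Sum.inl (x, s))) := by
      rw [div_eq_inv_mul, mul_sum]
      refine sum_le_sum fun x _ => ?_
      rw [mul_sum]
      exact sum_le_sum fun s _ => h2 x s
    rw [Fintype.sum_sum_type, Fintype.sum_prod_type]
    have h7 : ∑ u : Unit, N (z (Sum.inr u)) = N (z (Sum.inr ())) := by simp
    rw [h7]
    have h8 : ∑ v, N (f' v) ≤ 2 * ∑ v, ‖q (f v)‖ := by
      rw [mul_sum]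
      exact sum_le_sum fun v _ => hf2 v
    have h9 := N_nonneg (z (Sum.inr ()))
    linarith
  · -- bound
    rw [RCLike.norm_ofReal, abs_le]
    have := hφ (x - v)
    constructor <;> linarith
  · -- image
    rcases w with ⟨x, s⟩ | u
    · have h1 := ht1 𝕜 (fun y => ((φ (y - v) - μ : ℝ) : 𝕜)) (x, s)
      simp only [smul_eq_mul] at h1
      rw [h1, norm_mul, hnT, ← RCLike.ofReal_sub, RCLike.norm_ofReal]
      change _ ≤ (Fintype.card T : ℝ)⁻¹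
      have h2 := hLip (x - v) s
      have h3 : φ (x + g s - v) - μ - (φ (x - v) - μ) = φ (x - v + g s) - φ (x - v) := by
        rw [show x + g s - v = x - v + g s by abel]
        ring
      rw [h3]
      exact mul_le_of_le_one_right (by positivity) h2
    · have h1 := ht2 𝕜 (fun y => ((φ (y - v) - μ : ℝ) : 𝕜)) u
      simp only [smul_eq_mul] at h1
      rw [h1, ← RCLike.ofReal_sum]
      have h2 : ∑ y, (φ (y - v) - μ) = 0 := by
        rw [← hsum0]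
        exact Fintype.sum_equiv (Equiv.subRight v) _ _ fun y => rfl
      rw [h2]
      simp
  · -- sum of beta
    rw [Fintype.sum_sum_type]
    simp only [Sum.elim_inl, Sum.elim_inr, sum_const, card_univ, Fintype.card_prod, nsmul_eq_mul,
      Nat.cast_mul, mul_zero, add_zero]
    rw [mul_assoc, mul_inv_cancel₀ hcT.ne', mul_one]
  · -- trace
    simp only [sub_self, h0, zero_sub]
    rw [sum_const, card_univ, nsmul_eq_mul, norm_mul, RCLike.norm_natCast, RCLike.norm_ofReal,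
      abs_neg, abs_of_nonneg hμ0, hμ]
    rw [mul_div_cancel₀ _ hcG.ne']
    exact hmean

end Pool.Agent.Lib_helper54.FD
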