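import Pool.Agent.Lib_helper54.FD.Shift

set_option autoImplicit false

/-! Finite complexes of finite `ℓ₁`-spaces, their cones, and certificates. -/

namespace Pool.Agent.Lib_helper54.FD

open Finset

variable {𝕜 : Type} [RCLike 𝕜]

/-- The `ℓ₁` norm of a function on a finite set. -/
noncomputable def N {A : Type} [Fintype A] (x : A → 𝕜) : ℝ := ∑ a, ‖x a‖

section N

variable {A B V : Type} [Fintype A] [Fintype B] [Fintype V]

theorem N_nonneg (x : A → 𝕜) : 0 ≤ N x := sum_nonneg fun _ _ => norm_nonneg _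

theorem N_zero : N (0 : A → 𝕜) = 0 := sum_eq_zero fun _ _ => norm_zero

theorem N_add_le (x y : A → 𝕜) : N (x + y) ≤ N x + N y := by
  unfold N
  rw [← sum_add_distrib]
  exact sum_le_sum fun a _ => norm_add_le _ _

theorem N_neg (x : A → 𝕜) : N (-x) = N x := sum_congr rfl fun _ _ => norm_neg _

theorem N_sub_le (x y : A → 𝕜) : N (x - y) ≤ N x + N y := by
  rw [sub_eq_add_neg]
  exact (N_add_le _ _).trans_eq (by rw [N_neg])

theorem N_smul (c : 𝕜) (x : A → 𝕜) : N (c • x) = ‖c‖ * N x := by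
  unfold N
  rw [mul_sum]
  exact sum_congr rfl fun a _ => norm_smul c (x a)

theorem N_sum_le {ι : Type} (s : Finset ι) (x : ι → A → 𝕜) :
    N (∑ i ∈ s, x i) ≤ ∑ i ∈ s, N (x i) := by
  unfold N
  rw [sum_comm]
  exact sum_le_sum fun a _ => by rw [Finset.sum_apply]; exact norm_sum_le _ _

theorem N_eq_zero {x : A → 𝕜} (h : N x ≤ 0) : x = 0 := by
  funext a
  have h1 : ‖x a‖ ≤ N x := single_le_sum (f := fun a => ‖x a‖) (fun _ _ => norm_nonneg _)
    (mem_univ a)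
  exact norm_le_zero_iff.1 (h1.trans h)

theorem N_prod (x : V × A → 𝕜) : N x = ∑ v, N fun a => x (v, a) := Fintype.sum_prod_type _

theorem N_sum (x : A ⊕ B → 𝕜) : N x = N (fun a => x (Sum.inl a)) + N fun b => x (Sum.inr b) :=
  Fintype.sum_sum_type _

theorem N_empty [IsEmpty A] (x : A → 𝕜) : N x = 0 := sum_of_isEmpty _

end N

/-- A linear map applied to each slice. -/
def dR (V : Type) {A B : Type} (d : (A → 𝕜) →ₗ[𝕜] (B → 𝕜)) :
    (V × A → 𝕜) →ₗ[𝕜] (V × B → 𝕜) where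
  toFun x p := d (fun a => x (p.1, a)) p.2
  map_add' x y := by
    funext p
    exact congrFun (map_add d (fun a => x (p.1, a)) fun a => y (p.1, a)) p.2
  map_smul' c x := by
    funext p
    exact congrFun (map_smul d c fun a => x (p.1, a)) p.2

theorem dR_apply {V A B : Type} (d : (A → 𝕜) →ₗ[𝕜] (B → 𝕜)) (x : V × A → 𝕜) (v : V) (b : B) :
    dR V d x (v, b) = d (fun a => x (v, a)) b := rfl

/-- The matrix `t` applied in the first variable. -/
def tR {V W : Type} [Fintype V] (t : W → V → 𝕜) (A : Type) :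
    (V × A → 𝕜) →ₗ[𝕜] (W × A → 𝕜) where
  toFun x p := ∑ v, t p.1 v * x (v, p.2)
  map_add' x y := by
    funext p
    simp only [Pi.add_apply, mul_add, sum_add_distrib]
  map_smul' c x := by
    funext p
    simp only [Pi.smul_apply, smul_eq_mul, RingHom.id_apply, mul_sum]
    exact sum_congr rfl fun v _ => by ring

section

variable {V W A B A' : Type} [Fintype V] [Fintype W] [Fintype A] [Fintype B] [Fintype A']
  (t : W → V → 𝕜)

omit [Fintype W] [Fintype A] [Fintype B] in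
theorem tR_slice (x : V × A → 𝕜) (w : W) :
    (fun a => tR t A x (w, a)) = ∑ v, t w v • fun a => x (v, a) := by
  funext a
  rw [Finset.sum_apply]
  rfl

omit [Fintype W] [Fintype A] [Fintype B] in
theorem dR_tR (d : (A → 𝕜) →ₗ[𝕜] (B → 𝕜)) (x : V × A → 𝕜) :
    dR W d (tR t A x) = tR t B (dR V d x) := by
  funext p
  obtain ⟨w, b⟩ := p
  rw [dR_apply, tR_slice, map_sum, Finset.sum_apply]
  refine sum_congr rfl fun v _ => ?_
  rw [map_smul]
  rfl

omit [Fintype V] [Fintype A] [Fintype B] [Fintype A'] in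
theorem dR_dR (d : (A → 𝕜) →ₗ[𝕜] (B → 𝕜)) (d' : (A' → 𝕜) →ₗ[𝕜] (A → 𝕜))
    (h : ∀ x, d (d' x) = 0) (x : V × A' → 𝕜) : dR V d (dR V d' x) = 0 := by
  funext p
  exact congrFun (h fun a => x (p.1, a)) p.2

theorem N_dR_le (d : (A → 𝕜) →ₗ[𝕜] (B → 𝕜)) {C : ℝ} (h : ∀ x, N (d x) ≤ C * N x)
    (x : V × A → 𝕜) : N (dR V d x) ≤ C * N x := by
  rw [N_prod, N_prod, mul_sum]
  exact sum_le_sum fun v _ => h fun a => x (v, a)

theorem N_tR_le {K : ℝ} (ht : ∀ v, ∑ w, ‖t w v‖ ≤ K) (x : V × A → 𝕜) :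
    N (tR t A x) ≤ K * N x := by
  rw [N_prod, N_prod, mul_sum]
  calc ∑ w, N (fun a => tR t A x (w, a))
      ≤ ∑ w, ∑ v, ‖t w v‖ * N (fun a => x (v, a)) := sum_le_sum fun w _ => by
        rw [tR_slice]
        refine (N_sum_le _ _).trans_eq (sum_congr rfl fun v _ => N_smul _ _)
    _ = ∑ v, (∑ w, ‖t w v‖) * N (fun a => x (v, a)) := by
        rw [sum_comm]
        exact sum_congr rfl fun v _ => (sum_mul _ _ _).symm
    _ ≤ ∑ v, K * N (fun a => x (v, a)) := sum_le_sum fun v _ => by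
        gcongr
        · exact N_nonneg _
        · exact ht v

/-- Lifting slicewise. -/
theorem dR_lift (d : (A → 𝕜) →ₗ[𝕜] (B → 𝕜)) (p : (B → 𝕜) → Prop) {C : ℝ}
    (h : ∀ x, p x → ∃ y, d y = x ∧ N y ≤ C * N x) (x : V × B → 𝕜)
    (hx : ∀ v, p fun b => x (v, b)) : ∃ y, dR V d y = x ∧ N y ≤ C * N x := by
  choose y hy1 hy2 using fun v => h _ (hx v)
  refine ⟨fun q => y q.1 q.2, funext fun q => congrFun (hy1 q.1) q.2, ?_⟩
  rw [N_prod, N_prod, mul_sum]
  exact sum_le_sum fun v _ => hy2 v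

end

/-- A complex of finite `ℓ₁`-spaces. -/
structure Cx (𝕜 : Type) [RCLike 𝕜] where
  /-- the index sets -/
  A : ℕ → Type
  [inst : ∀ i, Fintype (A i)]
  /-- the differentials -/
  d : ∀ i, (A (i + 1) → 𝕜) →ₗ[𝕜] (A i → 𝕜)

attribute [instance] Cx.inst

/-- The complex has terms `1, …, m + 1`, and it is exact with constant `C`, except at the term
`1`, where the range is closed with constant `C`. -/
structure Cx.IsGood (P : Cx 𝕜) (m : ℕ) (C : ℝ) : Prop where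
  empty0 : IsEmpty (P.A 0)
  empty : ∀ i, m + 1 < i → IsEmpty (P.A i)
  nonempty : Nonempty (P.A (m + 1))
  dd : ∀ i x, P.d i (P.d (i + 1) x) = 0
  bound : ∀ i x, N (P.d i x) ≤ C * N x
  exact : ∀ i x, P.d (i + 1) x = 0 → ∃ y, P.d (i + 2) y = x ∧ N y ≤ C * N x
  closed : ∀ x, ∃ y, P.d 1 y = P.d 1 x ∧ N y ≤ C * N (P.d 1 x)

/-- A certificate that the left inverses of `D` have norm at least `τ / E`. -/
def Cert {A B : Type} [Fintype A] [Fintype B] (D : (A → 𝕜) →ₗ[𝕜] (B → 𝕜)) (M E τ : ℝ) : Prop :=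
  ∃ (Φ : A → A → 𝕜) (β : B → ℝ), (∀ y z, ‖Φ y z‖ ≤ M) ∧ (∀ y b, ‖D (Φ y) b‖ ≤ β b) ∧
    ∑ b, β b ≤ E * Fintype.card A ∧ τ * Fintype.card A ≤ ‖∑ y, Φ y y‖

theorem Cert.le {A B : Type} [Fintype A] [Fintype B] [Nonempty A] {D : (A → 𝕜) →ₗ[𝕜] (B → 𝕜)}
    {M E τ : ℝ} (h : Cert D M E τ) (s : B → A → 𝕜) (K : ℝ) (hs : ∀ b, ∑ y, ‖s b y‖ ≤ K)
    (hK : 0 ≤ K) (hinv : ∀ x y, ∑ b, D x b * s b y = x y) : τ ≤ K * E := by
  obtain ⟨Φ, β, -, h2, h3, h4⟩ := h
  have hc : (0 : ℝ) < Fintype.card A := by exact_mod_cast Fintype.card_pos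
  refine le_of_mul_le_mul_right (h4.trans ?_) hc
  calc ‖∑ y, Φ y y‖ = ‖∑ y, ∑ b, D (Φ y) b * s b y‖ := by
        congr 1
        exact sum_congr rfl fun y _ => (hinv _ _).symm
    _ ≤ ∑ y, ∑ b, β b * ‖s b y‖ := by
        refine (norm_sum_le _ _).trans (sum_le_sum fun y _ => (norm_sum_le _ _).trans
          (sum_le_sum fun b _ => ?_))
        rw [norm_mul]
        gcongr
        exact h2 y b
    _ = ∑ b, β b * ∑ y, ‖s b y‖ := by
        rw [sum_comm]
        exact sum_congr rfl fun b _ => (mul_sum _ _ _).symm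
    _ ≤ ∑ b, β b * K := sum_le_sum fun b _ => by
        gcongr
        · exact (norm_nonneg _).trans (h2 (Classical.arbitrary A) b)
        · exact hs b
    _ = (∑ b, β b) * K := (sum_mul _ _ _).symm
    _ ≤ (E * Fintype.card A) * K := by gcongr
    _ = K * E * Fintype.card A := by ring

/-! ### The cone -/

section cone

variable (P : Cx 𝕜) {V W : Type} [Fintype V] [Fintype W] (t : W → V → 𝕜)

/-- The index sets of the cone. -/
def coneA (V W : Type) : ℕ → Type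
  | 0 => W × P.A 0
  | i + 1 => (W × P.A (i + 1)) ⊕ (V × P.A i)

instance coneInst : ∀ i, Fintype (coneA P V W i)
  | 0 => inferInstanceAs (Fintype (W × P.A 0))
  | i + 1 => inferInstanceAs (Fintype ((W × P.A (i + 1)) ⊕ (V × P.A i)))

/-- The left component. -/
def cl {A B : Type} : (A ⊕ B → 𝕜) →ₗ[𝕜] (A → 𝕜) := LinearMap.funLeft 𝕜 𝕜 Sum.inl

/-- The right component. -/
def cr {A B : Type} : (A ⊕ B → 𝕜) →ₗ[𝕜] (B → 𝕜) := LinearMap.funLeft 𝕜 𝕜 Sum.inr

/-- Pairing. -/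
def pr {A B : Type} : ((A → 𝕜) × (B → 𝕜)) →ₗ[𝕜] (A ⊕ B → 𝕜) :=
  (LinearEquiv.sumArrowLequivProdArrow A B 𝕜 𝕜).symm

/-- The differential of the cone. -/
noncomputable def coneD : ∀ i, (coneA P V W (i + 1) → 𝕜) →ₗ[𝕜] (coneA P V W i → 𝕜)
  | 0 => dR W (P.d 0) ∘ₗ cl + tR t (P.A 0) ∘ₗ cr
  | i + 1 => pr ∘ₗ (dR W (P.d (i + 1)) ∘ₗ cl + tR t (P.A (i + 1)) ∘ₗ cr).prod
      (-(dR V (P.d i) ∘ₗ cr))

/-- The cone. -/
noncomputable def cone : Cx 𝕜 := { A := coneA P V W, d := coneD P t }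

theorem N_cl_cr {A B : Type} [Fintype A] [Fintype B] (x : A ⊕ B → 𝕜) :
    N x = N (cl x) + N (cr x) := N_sum x

theorem ext_cl_cr {A B : Type} {x y : A ⊕ B → 𝕜} (h1 : cl x = cl y) (h2 : cr x = cr y) :
    x = y := by
  funext c
  cases c with
  | inl a => exact congrFun h1 a
  | inr b => exact congrFun h2 b

theorem cl_pr {A B : Type} (x : A → 𝕜) (y : B → 𝕜) : cl (pr (x, y)) = x := rfl

theorem cr_pr {A B : Type} (x : A → 𝕜) (y : B → 𝕜) : cr (pr (x, y)) = y := rfl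

/-- The first components of an element of the cone. -/
def c1 {i : ℕ} (x : (cone P t).A (i + 1) → 𝕜) : W × P.A (i + 1) → 𝕜 :=
  cl (A := W × P.A (i + 1)) (B := V × P.A i) x

/-- The second components of an element of the cone. -/
def c2 {i : ℕ} (x : (cone P t).A (i + 1) → 𝕜) : V × P.A i → 𝕜 :=
  cr (A := W × P.A (i + 1)) (B := V × P.A i) x

/-- Elements of the cone from two components. -/
def c12 {i : ℕ} (a : W × P.A (i + 1) → 𝕜) (b : V × P.A i → 𝕜) : (cone P t).A (i + 1) → 𝕜 :=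
  pr (a, b)

theorem c1_c12 {i : ℕ} (a : W × P.A (i + 1) → 𝕜) (b : V × P.A i → 𝕜) :
    c1 P t (c12 P t a b) = a := rfl

theorem c2_c12 {i : ℕ} (a : W × P.A (i + 1) → 𝕜) (b : V × P.A i → 𝕜) :
    c2 P t (c12 P t a b) = b := rfl

theorem cone_ext {i : ℕ} {x y : (cone P t).A (i + 1) → 𝕜} (h1 : c1 P t x = c1 P t y)
    (h2 : c2 P t x = c2 P t y) : x = y :=
  ext_cl_cr (A := W × P.A (i + 1)) (B := V × P.A i) h1 h2

theorem N_cone {i : ℕ} (x : (cone P t).A (i + 1) → 𝕜) :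
    N x = N (c1 P t x) + N (c2 P t x) :=
  N_cl_cr (A := W × P.A (i + 1)) (B := V × P.A i) x

/-- The components of an element of the cone in the last term. -/
def c0 (x : (cone P t).A 0 → 𝕜) : W × P.A 0 → 𝕜 := x

theorem N_cone_zero (x : (cone P t).A 0 → 𝕜) : N x = N (c0 P t x) := rfl

theorem cone_ext_zero {x y : (cone P t).A 0 → 𝕜} (h : c0 P t x = c0 P t y) : x = y := h

theorem c0_coneD (x : (cone P t).A 1 → 𝕜) :
    c0 P t ((cone P t).d 0 x) = dR W (P.d 0) (c1 P t x) + tR t (P.A 0) (c2 P t x) := rfl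

theorem c1_coneD (i : ℕ) (x : (cone P t).A (i + 2) → 𝕜) :
    c1 P t ((cone P t).d (i + 1) x) =
      dR W (P.d (i + 1)) (c1 P t x) + tR t (P.A (i + 1)) (c2 P t x) := rfl

theorem c2_coneD (i : ℕ) (x : (cone P t).A (i + 2) → 𝕜) :
    c2 P t ((cone P t).d (i + 1) x) = - dR V (P.d i) (c2 P t x) := rfl

variable {P t}

theorem cone_dd (hP : ∀ i x, P.d i (P.d (i + 1) x) = 0) (i : ℕ)
    (x : (cone P t).A (i + 2) → 𝕜) : (cone P t).d i ((cone P t).d (i + 1) x) = 0 := by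
  cases i with
  | zero =>
    refine cone_ext_zero P t ?_
    rw [c0_coneD, c1_coneD, c2_coneD, map_add, dR_dR _ _ (hP 0), dR_tR, map_neg, zero_add,
      add_neg_cancel]
    rfl
  | succ i =>
    refine cone_ext P t ?_ ?_
    · rw [c1_coneD, c1_coneD, c2_coneD, map_add, dR_dR _ _ (hP (i + 1)), dR_tR, map_neg,
        zero_add, add_neg_cancel]
      rfl
    · rw [c2_coneD, c2_coneD, map_neg, dR_dR _ _ (hP i), neg_zero, neg_zero]
      rfl

theorem cone_bound {C : ℝ} (hC : 0 ≤ C) (hP : ∀ i x, N (P.d i x) ≤ C * N x)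
    (ht : ∀ v, ∑ w, ‖t w v‖ ≤ 3) (i : ℕ)
    (x : (cone P t).A (i + 1) → 𝕜) : N ((cone P t).d i x) ≤ (C + 3) * N x := by
  cases i with
  | zero =>
    rw [N_cone_zero, c0_coneD, N_cone]
    refine (N_add_le _ _).trans ?_
    have h1 := N_dR_le (V := W) (P.d 0) (hP 0) (c1 P t x)
    have h2 := N_tR_le t (A := P.A 0) ht (c2 P t x)
    have h3 := N_nonneg (c1 P t x)
    have h4 := N_nonneg (c2 P t x)
    nlinarith
  | succ i =>
    rw [N_cone, N_cone, c1_coneD, c2_coneD, N_neg]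
    have h0 := N_add_le (dR W (P.d (i + 1)) (c1 P t x)) (tR t (P.A (i + 1)) (c2 P t x))
    have h1 := N_dR_le (V := W) (P.d (i + 1)) (hP (i + 1)) (c1 P t x)
    have h2 := N_tR_le t (A := P.A (i + 1)) ht (c2 P t x)
    have h5 := N_dR_le (V := V) (P.d i) (hP i) (c2 P t x)
    have h3 := N_nonneg (c1 P t x)
    have h4 := N_nonneg (c2 P t x)
    nlinarith

theorem cone_lift {C : ℝ} (hC : 0 ≤ C)
    (hP : ∀ i x, P.d (i + 1) x = 0 → ∃ y, P.d (i + 2) y = x ∧ N y ≤ C * N x)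
    (ht : ∀ v, ∑ w, ‖t w v‖ ≤ 3) (i : ℕ) (a : W × P.A (i + 2) → 𝕜) (b : V × P.A (i + 2) → 𝕜)
    (h : dR W (P.d (i + 1)) a + tR t (P.A (i + 1)) (dR V (P.d (i + 1)) b) = 0) :
    ∃ y : (cone P t).A (i + 3) → 𝕜,
      c1 P t ((cone P t).d (i + 2) y) = a ∧
      c2 P t ((cone P t).d (i + 2) y) = dR V (P.d (i + 1)) b ∧
      N y ≤ C * (N a + 3 * N b) + N b := by
  have h1 : dR W (P.d (i + 1)) (a + tR t (P.A (i + 2)) b) = 0 := by
    rw [map_add, dR_tR, h]
  obtain ⟨a', h2, h3⟩ := dR_lift (V := W) (P.d (i + 2)) (fun x => P.d (i + 1) x = 0) (hP i)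
    (a + tR t (P.A (i + 2)) b) (fun w => funext fun c => congrFun h1 (w, c))
  refine ⟨c12 P t a' (-b), ?_, ?_, ?_⟩
  · rw [c1_coneD, c1_c12, c2_c12, h2, map_neg, add_neg_cancel_right]
  · rw [c2_coneD, c2_c12, map_neg, neg_neg]
  · rw [N_cone, c1_c12, c2_c12, N_neg]
    have h4 := N_tR_le t (A := P.A (i + 2)) ht b
    have h5 := N_add_le a (tR t (P.A (i + 2)) b)
    have h6 : C * N (a + tR t (P.A (i + 2)) b) ≤ C * (N a + 3 * N b) := by
      gcongr
      linarith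
    linarith

/-- A block for the subspace `S`: an operator `t` which is bounded below modulo `S`, with a
certificate `ψ`, `β` for the absence of left inverses of small norm. -/
structure IsBlock {V W A : Type} [Fintype V] [Fintype W] [Fintype A]
    (S : Submodule 𝕜 (A → 𝕜)) (R : ℝ) (t : W → V → 𝕜) (ψ : V → V → 𝕜) (β : W → ℝ) : Prop where
  nonempty : Nonempty V
  col : ∀ v, ∑ w, ‖t w v‖ ≤ 3
  low : ∀ (f : V → A → 𝕜) (z : W → A → 𝕜), (∀ w, z w - ∑ v, t w v • f v ∈ S) →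
    ∃ f' : V → A → 𝕜, (∀ v, f v - f' v ∈ S) ∧ ∑ v, N (f' v) ≤ 2000 * ∑ w, N (z w)
  psi_le : ∀ v x, ‖ψ v x‖ ≤ R
  t_psi : ∀ v w, ‖∑ x, t w x * ψ v x‖ ≤ β w
  sum_beta : ∑ w, β w ≤ Fintype.card V
  trace : R / 2 * Fintype.card V ≤ ‖∑ v, ψ v v‖

theorem cone_exact {m : ℕ} {C : ℝ} (hC : 0 ≤ C) (hP : P.IsGood m C)
    (ht : ∀ v, ∑ w, ‖t w v‖ ≤ 3)
    (hlow : ∀ f : V → P.A 1 → 𝕜, (∀ w, ∑ v, t w v • f v ∈ LinearMap.range (P.d 1)) →
      ∀ v, f v ∈ LinearMap.range (P.d 1)) (i : ℕ)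
    (x : (cone P t).A (i + 2) → 𝕜) (hx : (cone P t).d (i + 1) x = 0) :
    ∃ y, (cone P t).d (i + 2) y = x ∧ N y ≤ (3 * C ^ 2 + C) * N x := by
  have hx1 := c1_coneD P t i x
  have hx2 := c2_coneD P t i x
  rw [hx] at hx1 hx2
  change 0 = _ at hx1
  change 0 = _ at hx2
  have key : ∃ b, dR V (P.d (i + 1)) b = c2 P t x ∧ N b ≤ C * N (c2 P t x) := by
    cases i with
    | zero =>
      refine dR_lift (P.d 1) (fun x => x ∈ LinearMap.range (P.d 1)) ?_ _ ?_
      · rintro _ ⟨y, rfl⟩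
        exact hP.closed y
      · refine hlow (fun v b => c2 P t x (v, b)) fun w => ?_
        refine ⟨-fun a => c1 P t x (w, a), ?_⟩
        rw [map_neg, ← tR_slice]
        refine neg_eq_of_add_eq_zero_right (funext fun a => ?_)
        exact (congrFun hx1 (w, a)).symm
    | succ j =>
      refine dR_lift (P.d (j + 2)) (fun x => P.d (j + 1) x = 0) (hP.exact j) _ fun v => ?_
      funext b
      have := congrFun hx2 (v, b)
      change 0 = - P.d (j + 1) (fun a => c2 P t x (v, a)) b at this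
      exact neg_eq_zero.1 this.symm
  obtain ⟨b, hb1, hb2⟩ := key
  obtain ⟨y, hy1, hy2, hy3⟩ := cone_lift hC hP.exact ht i (c1 P t x) b (by
    rw [hb1]; exact hx1.symm)
  refine ⟨y, cone_ext P t hy1 (hy2.trans hb1), hy3.trans ?_⟩
  rw [N_cone P t x]
  have h1 := N_nonneg (c1 P t x)
  have h2 := N_nonneg (c2 P t x)
  have h3 := N_nonneg b
  have h4 : C * N b ≤ C * (C * N (c2 P t x)) := by gcongr
  have h5 : 0 ≤ C ^ 2 * N (c1 P t x) := by positivity
  nlinarith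

theorem cone_closed {m : ℕ} {C : ℝ} (hC : 0 ≤ C) (hP : P.IsGood m C)
    (ht : ∀ v, ∑ w, ‖t w v‖ ≤ 3)
    (hlow : ∀ (f : V → P.A 1 → 𝕜) (z : W → P.A 1 → 𝕜),
      (∀ w, z w - ∑ v, t w v • f v ∈ LinearMap.range (P.d 1)) →
      ∃ f' : V → P.A 1 → 𝕜, (∀ v, f v - f' v ∈ LinearMap.range (P.d 1)) ∧
        ∑ v, N (f' v) ≤ 2000 * ∑ w, N (z w))
    (x : (cone P t).A 2 → 𝕜) :
    ∃ y, (cone P t).d 1 y = (cone P t).d 1 x ∧
      N y ≤ (6001 * C + 2000) * N ((cone P t).d 1 x) := by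
  have hx1 := c1_coneD P t 0 x
  have h0 := hP.empty0
  set z : W × P.A 1 → 𝕜 := c1 P t ((cone P t).d 1 x) with hz
  obtain ⟨f', hf1, hf2⟩ := hlow (fun v b => c2 P t x (v, b)) (fun w b => z (w, b)) (fun w => by
    refine ⟨fun a => c1 P t x (w, a), ?_⟩
    rw [← tR_slice]
    funext a
    have := congrFun hx1 (w, a)
    refine eq_sub_of_add_eq ?_
    exact this.symm)
  choose c hc using hf1
  have hN : N (fun p : V × P.A 1 => f' p.1 p.2) ≤ 2000 * N z := by
    rw [N_prod, N_prod]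
    exact hf2
  obtain ⟨a', ha1, ha2⟩ := dR_lift (V := W) (P.d 1) (fun x => x ∈ LinearMap.range (P.d 1))
    (C := C) (by
      rintro _ ⟨y, rfl⟩
      exact hP.closed y) (z - tR t (P.A 1) (fun p : V × P.A 1 => f' p.1 p.2)) (fun w => by
    refine ⟨(fun a => c1 P t x (w, a)) + ∑ v, t w v • c v, ?_⟩
    rw [map_add, map_sum]
    simp only [map_smul, hc]
    funext b
    have := congrFun hx1 (w, b)
    rw [Pi.add_apply, Finset.sum_apply]
    change _ = z (w, b) - ∑ v, t w v * f' v b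
    rw [this]
    change _ = P.d 1 (fun a => c1 P t x (w, a)) b + ∑ v, t w v * c2 P t x (v, b) - _
    rw [add_sub_assoc, ← sum_sub_distrib]
    congr 1
    refine sum_congr rfl fun v _ => ?_
    change t w v * (c2 P t x (v, b) - f' v b) = _
    ring)
  refine ⟨c12 P t a' (fun p => f' p.1 p.2), cone_ext P t ?_ ?_, ?_⟩
  · rw [c1_coneD, c1_c12, c2_c12, ha1]
    exact sub_add_cancel _ _
  · funext p
    exact h0.elim p.2
  · rw [N_cone P t (c12 P t a' (fun p => f' p.1 p.2)), N_cone P t ((cone P t).d 1 x), c1_c12,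
      c2_c12, ← hz]
    have h1 := N_tR_le t (A := P.A 1) ht (fun p : V × P.A 1 => f' p.1 p.2)
    have h2 := N_sub_le z (tR t (P.A 1) (fun p : V × P.A 1 => f' p.1 p.2))
    have h3 := N_nonneg (c2 P t ((cone P t).d 1 x))
    have h4 : C * N (z - tR t (P.A 1) (fun p : V × P.A 1 => f' p.1 p.2)) ≤
        C * (N z + 3 * (2000 * N z)) := by
      gcongr
      linarith
    nlinarith [mul_nonneg hC h3]

/-- The cone of a good complex with respect to a block is a good complex. -/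
theorem cone_isGood {m : ℕ} {C R : ℝ} (hC : 0 ≤ C) (hP : P.IsGood m C) {ψ : V → V → 𝕜}
    {β : W → ℝ} (ht : IsBlock (LinearMap.range (P.d 1)) R t ψ β) :
    (cone P t).IsGood (m + 1) (3 * C ^ 2 + 6001 * C + 2003) where
  empty0 := by
    have := hP.empty0
    exact inferInstanceAs (IsEmpty (W × P.A 0))
  empty i hi := by
    obtain ⟨j, rfl⟩ : ∃ j, i = j + 1 := ⟨i - 1, by omega⟩
    have h1 := hP.empty (j + 1) (by omega)
    have h2 := hP.empty j (by omega)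
    exact inferInstanceAs (IsEmpty ((W × P.A (j + 1)) ⊕ (V × P.A j)))
  nonempty := by
    have h1 := hP.nonempty
    have h2 := ht.nonempty
    exact inferInstanceAs (Nonempty ((W × P.A (m + 2)) ⊕ (V × P.A (m + 1))))
  dd := cone_dd hP.dd
  bound i x := by
    exact (cone_bound hC hP.bound ht.col i x).trans
      (mul_le_mul_of_nonneg_right (by nlinarith [sq_nonneg C]) (N_nonneg _))
  exact i x hx := by
    have hlow : ∀ f : V → P.A 1 → 𝕜, (∀ w, ∑ v, t w v • f v ∈ LinearMap.range (P.d 1)) →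
        ∀ v, f v ∈ LinearMap.range (P.d 1) := by
      intro f hf v
      obtain ⟨f', h1, h2⟩ := ht.low f 0 (fun w => by
        rw [Pi.zero_apply, zero_sub]
        exact neg_mem (hf w))
      have h3 : N (f' v) ≤ 0 := by
        refine (single_le_sum (f := fun v => N (f' v)) (fun _ _ => N_nonneg _)
          (mem_univ v)).trans (h2.trans_eq ?_)
        rw [sum_eq_zero (f := fun w => N ((0 : W → P.A 1 → 𝕜) w)) (fun w _ => N_zero), mul_zero]
      have h4 := h1 v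
      rw [N_eq_zero h3, sub_zero] at h4
      exact h4
    obtain ⟨y, hy, hy2⟩ := cone_exact hC hP ht.col hlow i x hx
    exact ⟨y, hy, hy2.trans
      (mul_le_mul_of_nonneg_right (by nlinarith [sq_nonneg C]) (N_nonneg _))⟩
  closed x := by
    obtain ⟨y, hy, hy2⟩ := cone_closed hC hP ht.col ht.low x
    exact ⟨y, hy, hy2.trans
      (mul_le_mul_of_nonneg_right (by nlinarith [sq_nonneg C]) (N_nonneg _))⟩

/-- The certificate of the cone. -/
theorem Cert.step {A A2 B : Type} [Fintype A] [Fintype A2] [Fintype B] [Nonempty A] [IsEmpty A2]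
    {D : (A → 𝕜) →ₗ[𝕜] (B → 𝕜)} {M E τ R : ℝ} (hR : 0 ≤ R) (hτ : 0 ≤ τ) (h : Cert D M E τ)
    {S : Submodule 𝕜 (A → 𝕜)} {ψ : V → V → 𝕜} {β : W → ℝ} (ht : IsBlock S R t ψ β)
    (D' : ((W × A2) ⊕ (V × A) → 𝕜) →ₗ[𝕜] ((W × A) ⊕ (V × B) → 𝕜))
    (D2 : (A2 → 𝕜) →ₗ[𝕜] (A → 𝕜))
    (h1 : ∀ x, cl (D' x) = dR W D2 (cl x) + tR t A (cr x))
    (h2 : ∀ x, cr (D' x) = - dR V D (cr x)) : Cert D' (R * M) (M + R * E) (R / 2 * τ) := by
  obtain ⟨Φ, γ, g1, g2, g3, g4⟩ := h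
  have hM : 0 ≤ M := (norm_nonneg _).trans (g1 (Classical.arbitrary A) (Classical.arbitrary A))
  have hcard : (Fintype.card ((W × A2) ⊕ (V × A)) : ℝ) = Fintype.card V * Fintype.card A := by
    rw [Fintype.card_sum, Fintype.card_prod, Fintype.card_prod, Fintype.card_eq_zero (α := A2)]
    push_cast
    ring
  refine ⟨Sum.elim (fun p => isEmptyElim p.2)
    (fun p => pr (0, fun q => ψ p.1 q.1 * Φ p.2 q.2)),
    Sum.elim (fun p => β p.1 * M) (fun p => R * γ p.2), ?_, ?_, ?_, ?_⟩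
  · rintro (p | p) (q | q)
    · exact isEmptyElim p.2
    · exact isEmptyElim p.2
    · exact isEmptyElim q.2
    · change ‖ψ p.1 q.1 * Φ p.2 q.2‖ ≤ _
      rw [norm_mul]
      gcongr
      · exact ht.psi_le _ _
      · exact g1 _ _
  · rintro (p | p) (q | q)
    · exact isEmptyElim p.2
    · exact isEmptyElim p.2
    · have := congrFun (h1 (pr (0, fun q => ψ p.1 q.1 * Φ p.2 q.2))) q
      rw [cl_pr, cr_pr, map_zero, zero_add] at this
      change ‖D' (pr (0, fun q => ψ p.1 q.1 * Φ p.2 q.2)) (Sum.inl q)‖ ≤ β q.1 * M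
      change D' (pr (0, fun q => ψ p.1 q.1 * Φ p.2 q.2)) (Sum.inl q) =
        ∑ x, t q.1 x * (ψ p.1 x * Φ p.2 q.2) at this
      have h3 : ∑ x, t q.1 x * (ψ p.1 x * Φ p.2 q.2) =
          (∑ x, t q.1 x * ψ p.1 x) * Φ p.2 q.2 := by
        rw [sum_mul]
        exact sum_congr rfl fun x _ => by ring
      rw [this, h3, norm_mul]
      gcongr
      · exact (norm_nonneg _).trans (ht.t_psi p.1 q.1)
      · exact ht.t_psi _ _
      · exact g1 _ _
    · have := congrFun (h2 (pr (0, fun q => ψ p.1 q.1 * Φ p.2 q.2))) q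
      rw [cr_pr] at this
      change ‖D' (pr (0, fun q => ψ p.1 q.1 * Φ p.2 q.2)) (Sum.inr q)‖ ≤ R * γ q.2
      change D' (pr (0, fun q => ψ p.1 q.1 * Φ p.2 q.2)) (Sum.inr q) =
        - D (fun a => ψ p.1 q.1 * Φ p.2 a) q.2 at this
      have h3 : D (fun a => ψ p.1 q.1 * Φ p.2 a) = ψ p.1 q.1 • D (Φ p.2) := by
        rw [← map_smul]
        rfl
      rw [this, h3, norm_neg, Pi.smul_apply, norm_smul]
      gcongr
      · exact ht.psi_le _ _
      · exact g2 _ _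
  · rw [Fintype.sum_sum_type, Fintype.sum_prod_type, Fintype.sum_prod_type, hcard]
    simp only [Sum.elim_inl, Sum.elim_inr, sum_const, card_univ, nsmul_eq_mul, ← mul_sum,
      ← sum_mul]
    have h3 := ht.sum_beta
    have h4 : (Fintype.card A : ℝ) * ((∑ w, β w) * M) ≤
        Fintype.card A * (Fintype.card V * M) := by gcongr
    have h5 : (Fintype.card V : ℝ) * (R * ∑ b, γ b) ≤
        Fintype.card V * (R * (E * Fintype.card A)) := by gcongr
    nlinarith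
  · have h3 : ∀ F : (W × A2) ⊕ (V × A) → (W × A2) ⊕ (V × A) → 𝕜,
        ∑ y, F y y = ∑ v, ∑ y, F (Sum.inr (v, y)) (Sum.inr (v, y)) := by
      intro F
      rw [Fintype.sum_sum_type, sum_of_isEmpty, zero_add, Fintype.sum_prod_type]
    rw [h3, hcard]
    have h4 : ∑ v, ∑ y, ψ v v * Φ y y = (∑ v, ψ v v) * ∑ y, Φ y y := by
      rw [sum_mul]
      exact sum_congr rfl fun v _ => (mul_sum _ _ _).symm
    change _ ≤ ‖∑ v, ∑ y, ψ v v * Φ y y‖
    rw [h4, norm_mul]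
    have h5 := mul_le_mul ht.trace g4 (by positivity) (norm_nonneg _)
    refine le_trans (le_of_eq ?_) h5
    ring

end cone

end Pool.Agent.Lib_helper54.FD
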