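import Mathlib

set_option autoImplicit false

/-!
Projective and flat dimension of Banach spaces (Wodzicki).
-/

namespace Pool.Agent.Lib_helper54.FD

/-- A Banach space over `𝕜`. -/
structure Ban (𝕜 : Type) [RCLike 𝕜] where
  /-- the underlying type -/
  carrier : Type
  [normed : NormedAddCommGroup carrier]
  [space : NormedSpace 𝕜 carrier]
  [complete : CompleteSpace carrier]

attribute [instance] Ban.normed Ban.space Ban.complete

variable {𝕜 : Type} [RCLike 𝕜]

instance : CoeSort (Ban 𝕜) Type := ⟨Ban.carrier⟩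

/-- Continuous linear maps `E → F`. -/
abbrev Hom (E F : Ban 𝕜) : Type := E.carrier →L[𝕜] F.carrier

/-- The value of a continuous linear map. -/
abbrev app {E F : Ban 𝕜} (f : Hom E F) (x : E.carrier) : F.carrier := f x

/-- The operator norm. -/
noncomputable abbrev opNorm {E F : Ban 𝕜} (f : Hom E F) : ℝ := ‖f‖

/-- `f` and `g` are inverse to each other. -/
def Inverse {E F : Ban 𝕜} (f : Hom E F) (g : Hom F E) : Prop :=
  (∀ x, app g (app f x) = x) ∧ ∀ y, app f (app g y) = y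

/-- The sequence `E → F → Q` given by `f` and `g` is exact. -/
def Exact {E F Q : Ban 𝕜} (f : Hom E F) (g : Hom F Q) : Prop :=
  ∀ x, app g x = 0 ↔ ∃ y, app f y = x

/-- There is an exact sequence `0 ← X ← P 0 ← P 1 ← ⋯ ← P n ← 0` with all `P i` in the class `C`
(the terms beyond `n` are zero). -/
def HasResolution (C : Ban 𝕜 → Prop) (X : Ban 𝕜) (n : ℕ) : Prop :=
  ∃ (P : ℕ → Ban 𝕜) (ε : Hom (P 0) X) (d : ∀ i, Hom (P (i + 1)) (P i)),
    Function.Surjective (app ε) ∧ Exact (d 0) ε ∧ (∀ i, Exact (d (i + 1)) (d i)) ∧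
    (∀ i, i ≤ n → C (P i)) ∧ ∀ i, n < i → Subsingleton (P i).carrier

/-- The least length of a resolution by members of `C` (`⊤` if there is none). -/
noncomputable def dimension (C : Ban 𝕜 → Prop) (X : Ban 𝕜) : ℕ∞ :=
  sInf {k : ℕ∞ | ∃ n : ℕ, k = n ∧ HasResolution C X n}

/-- The space `ℓ¹(S)`. -/
noncomputable def ell1 (𝕜 : Type) [RCLike 𝕜] (S : Type) : Ban 𝕜 := ⟨lp (fun _ : S => 𝕜) 1⟩

/-- `P` is isomorphic to `ℓ¹(S)` for some set `S`. -/
def IsEll1 (P : Ban 𝕜) : Prop :=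
  ∃ (S : Type) (f : Hom P (ell1 𝕜 S)) (g : Hom (ell1 𝕜 S) P), Inverse f g

/-- A finite-dimensional subspace as a Banach space. -/
noncomputable def sub (E : Ban 𝕜) (G : Submodule 𝕜 E.carrier) (_ : FiniteDimensional 𝕜 G) :
    Ban 𝕜 :=
  haveI := FiniteDimensional.complete 𝕜 G
  ⟨G⟩

/-- The Banach-Mazur distance of `E` and `F` is at most `lam`. -/
def DistLe (E F : Ban 𝕜) (lam : ℝ) : Prop :=
  ∃ (f : Hom E F) (g : Hom F E), Inverse f g ∧ opNorm f * opNorm g ≤ lam

/-- `E` is an `𝓛₁`-space: there is `lam` such that every finite-dimensional subspace `F` of `E`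
lies in a finite-dimensional subspace `G` whose Banach-Mazur distance to `ℓ₁ⁿ`, `n = dim G`, is
at most `lam`. -/
def IsL1Space (E : Ban 𝕜) : Prop :=
  ∃ lam : ℝ, ∀ F : Submodule 𝕜 E.carrier, FiniteDimensional 𝕜 F →
    ∃ (G : Submodule 𝕜 E.carrier) (hG : FiniteDimensional 𝕜 G), F ≤ G ∧
      DistLe (sub E G hG) (ell1 𝕜 (Fin (Module.finrank 𝕜 G))) lam

/-- The projective dimension. -/
noncomputable def pd (X : Ban 𝕜) : ℕ∞ := dimension IsEll1 X

/-- The flat dimension. -/
noncomputable def fd (X : Ban 𝕜) : ℕ∞ := dimension IsL1Space X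

end Pool.Agent.Lib_helper54.FD
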