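import Pool.Agent.Lib_helper54.FD.Homol

set_option autoImplicit false

/-! The spaces `ℓ¹(S)`: projectivity, surjections from them, and their bidual retraction. -/

namespace Pool.Agent.Lib_helper54.FD

variable {𝕜 : Type} [RCLike 𝕜] {S : Type}

/-- The coordinates of an element of `ℓ¹(S)`. -/
def co (x : ell1 𝕜 S) : S → 𝕜 := fun s => (show lp (fun _ : S => 𝕜) 1 from x) s

theorem co_add (x y : ell1 𝕜 S) : co (x + y) = co x + co y := rfl

theorem co_sub (x y : ell1 𝕜 S) : co (x - y) = co x - co y := rfl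

theorem co_smul (c : 𝕜) (x : ell1 𝕜 S) : co (c • x) = c • co x := rfl

theorem co_zero : co (0 : ell1 𝕜 S) = 0 := rfl

theorem co_injective : Function.Injective (co : ell1 𝕜 S → S → 𝕜) := fun x y h => by
  change (show lp (fun _ : S => 𝕜) 1 from x) = (show lp (fun _ : S => 𝕜) 1 from y)
  exact lp.ext h

theorem hasSum_norm_co (x : ell1 𝕜 S) : HasSum (fun s => ‖co x s‖) ‖x‖ := by
  have h : ∀ y : lp (fun _ : S => 𝕜) 1, HasSum (fun s => ‖y s‖) ‖y‖ := fun y => by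
    have h := lp.hasSum_norm (p := 1) (by norm_num) y
    simpa using h
  exact h x

theorem summable_co (x : ell1 𝕜 S) : Summable (fun s => ‖co x s‖) := (hasSum_norm_co x).summable

theorem norm_eq_tsum (x : ell1 𝕜 S) : ‖x‖ = ∑' s, ‖co x s‖ := (hasSum_norm_co x).tsum_eq.symm

/-- An element of `ℓ¹(S)` from an absolutely summable family. -/
noncomputable def mk1 (f : S → 𝕜) (hf : Summable fun s => ‖f s‖) : ell1 𝕜 S :=
  show lp (fun _ : S => 𝕜) 1 from ⟨f, memℓp_gen (by simpa using hf)⟩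

theorem co_mk1 (f : S → 𝕜) (hf : Summable fun s => ‖f s‖) : co (mk1 f hf) = f := rfl

theorem norm_mk1_le (f : S → 𝕜) (hf : Summable fun s => ‖f s‖) {C : ℝ}
    (h : ∑' s, ‖f s‖ ≤ C) : ‖mk1 f hf‖ ≤ C := by
  rw [norm_eq_tsum]; exact h

/-- The basis vectors. -/
noncomputable def e1 (s : S) : ell1 𝕜 S := by
  classical
  exact mk1 (Pi.single s 1) (by
    refine summable_of_ne_finset_zero (s := {s}) fun t ht => ?_
    rw [Pi.single_eq_of_ne (by simpa using ht), norm_zero])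

theorem co_e1_self (s : S) : co (e1 s : ell1 𝕜 S) s = 1 := by
  classical
  change (Pi.single s 1 : S → 𝕜) s = 1
  exact Pi.single_eq_same s 1

theorem co_e1_ne {s t : S} (h : t ≠ s) : co (e1 s : ell1 𝕜 S) t = 0 := by
  classical
  change (Pi.single s 1 : S → 𝕜) t = 0
  exact Pi.single_eq_of_ne h 1

theorem norm_e1 (s : S) : ‖(e1 s : ell1 𝕜 S)‖ = 1 := by
  rw [norm_eq_tsum, tsum_eq_single s]
  · rw [co_e1_self, norm_one]
  · intro t ht
    rw [co_e1_ne ht, norm_zero]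

section lift

variable {Y : Ban 𝕜}

theorem summable_lift (y : S → Y) {C : ℝ} (hy : ∀ s, ‖y s‖ ≤ C) (x : ell1 𝕜 S) :
    Summable fun s => ‖co x s • y s‖ := by
  refine Summable.of_nonneg_of_le (fun _ => norm_nonneg _) (fun s => ?_)
    ((summable_co x).mul_right C)
  rw [norm_smul]
  gcongr
  exact hy s

/-- The operator on `ℓ¹(S)` mapping the basis vectors to a bounded family. -/
noncomputable def lift1 (y : S → Y) (C : ℝ) (hy : ∀ s, ‖y s‖ ≤ C) : ell1 𝕜 S →L[𝕜] Y :=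
  LinearMap.mkContinuous
    { toFun := fun x => ∑' s, co x s • y s
      map_add' := fun x x' => by
        rw [← ((summable_lift y hy x).of_norm).tsum_add ((summable_lift y hy x').of_norm)]
        refine tsum_congr fun s => ?_
        rw [co_add, Pi.add_apply, add_smul]
      map_smul' := fun c x => by
        rw [RingHom.id_apply, ← ((summable_lift y hy x).of_norm).tsum_const_smul]
        refine tsum_congr fun s => ?_
        rw [co_smul, Pi.smul_apply, smul_assoc] }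
    C (fun x => by
      change ‖∑' s, co x s • y s‖ ≤ C * ‖x‖
      refine (norm_tsum_le_tsum_norm (summable_lift y hy x)).trans ?_
      rw [norm_eq_tsum, ← tsum_mul_left]
      refine (summable_lift y hy x).tsum_le_tsum (fun s => ?_) ((summable_co x).mul_left C)
      rw [norm_smul, mul_comm]
      gcongr
      exact hy s)

theorem lift1_apply (y : S → Y) (C : ℝ) (hy : ∀ s, ‖y s‖ ≤ C) (x : ell1 𝕜 S) :
    lift1 y C hy x = ∑' s, co x s • y s := rfl

theorem lift1_e1 (y : S → Y) (C : ℝ) (hy : ∀ s, ‖y s‖ ≤ C) (s : S) :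
    lift1 y C hy (e1 s) = y s := by
  rw [lift1_apply, tsum_eq_single s]
  · rw [co_e1_self, one_smul]
  · intro t ht
    rw [co_e1_ne ht, zero_smul]

theorem hasSum_e1 (x : ell1 𝕜 S) : HasSum (fun s => co x s • (e1 s : ell1 𝕜 S)) x := by
  have h1 : Summable fun s => co x s • (e1 s : ell1 𝕜 S) := by
    refine Summable.of_norm ?_
    refine (summable_co x).congr fun s => ?_
    rw [norm_smul, norm_e1, mul_one]
  have h2 : ∀ t, co (∑' s, co x s • (e1 s : ell1 𝕜 S)) t = co x t := by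
    intro t
    have h3 := h1.hasSum.mapL (lp.evalCLM 𝕜 (fun _ : S => 𝕜) 1 t)
    have h4 : HasSum (fun s => co x s • co (e1 s : ell1 𝕜 S) t)
        (co (∑' s, co x s • (e1 s : ell1 𝕜 S)) t) := h3
    refine h4.unique ?_
    have h5 := hasSum_single (f := fun s => co x s • co (e1 s : ell1 𝕜 S) t) t (fun s hs => by
      rw [co_e1_ne (Ne.symm hs), smul_zero])
    rw [co_e1_self, smul_eq_mul, mul_one] at h5
    exact h5
  have h6 : ∑' s, co x s • (e1 s : ell1 𝕜 S) = x := co_injective (funext h2)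
  have h7 := h1.hasSum
  rw [h6] at h7
  exact h7

theorem ext_e1 {f g : ell1 𝕜 S →L[𝕜] Y} (h : ∀ s, f (e1 s) = g (e1 s)) : f = g := by
  ext x
  have h1 := (hasSum_e1 x).mapL f
  have h2 := (hasSum_e1 x).mapL g
  simp only [map_smul, h] at h1 h2
  exact h1.unique h2

end lift

theorem proj_ell1 (S : Type) : Proj (ell1 𝕜 S) := by
  intro Y X g hg f
  obtain ⟨C, hC, hpre⟩ := g.exists_preimage_norm_le hg
  choose y hy1 hy2 using fun s => hpre (f (e1 s))
  have hb : ∀ s, ‖y s‖ ≤ C * ‖f‖ := fun s => by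
    refine (hy2 s).trans ?_
    gcongr
    exact (f.le_opNorm _).trans_eq (by rw [norm_e1, mul_one])
  refine ⟨lift1 y (C * ‖f‖) hb, fun x => ?_⟩
  have h : g ∘L lift1 y (C * ‖f‖) hb = f := ext_e1 fun s => by
    change g (lift1 y (C * ‖f‖) hb (e1 s)) = f (e1 s)
    rw [lift1_e1, hy1]
  exact congrArg (fun k : ell1 𝕜 S →L[𝕜] X => k x) h

theorem exists_surj (Z : Ban 𝕜) : ∃ (S : Type) (π : ell1 𝕜 S →L[𝕜] Z), Function.Surjective π := by
  refine ⟨{z : Z // ‖z‖ ≤ 1}, lift1 (fun z => z.1) 1 (fun z => z.2), fun z => ?_⟩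
  by_cases hz : z = 0
  · exact ⟨0, by rw [map_zero, hz]⟩
  · have hz' : ‖z‖ ≠ 0 := norm_ne_zero_iff.2 hz
    have hc : ((‖z‖ : ℝ) : 𝕜) ≠ 0 := by exact_mod_cast hz'
    have hn : ‖(((‖z‖ : ℝ) : 𝕜)⁻¹) • z‖ ≤ 1 := by
      rw [norm_smul, norm_inv, RCLike.norm_ofReal, abs_of_nonneg (norm_nonneg _),
        inv_mul_cancel₀ hz']
    refine ⟨((‖z‖ : ℝ) : 𝕜) • e1 ⟨(((‖z‖ : ℝ) : 𝕜)⁻¹) • z, hn⟩, ?_⟩
    rw [map_smul, lift1_e1, smul_inv_smul₀ hc]

/-- The coordinate functional. -/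
noncomputable def coord (s : S) : dualB (ell1 𝕜 S) := lp.evalCLM 𝕜 (fun _ : S => 𝕜) 1 s

theorem coord_apply (s : S) (x : ell1 𝕜 S) :
    (ap (coord s)) x = co x s := rfl

theorem ap_sum_smul {B : Ban 𝕜} (F : Finset S) (c : S → 𝕜) (φ : S → dualB B) (x : B) :
    ap (∑ s ∈ F, c s • φ s) x = ∑ s ∈ F, c s * ap (φ s) x := by
  change (∑ s ∈ F, c s • ap (φ s)) x = _
  rw [sum_apply]
  rfl

theorem norm_sum_coord_le (F : Finset S) (c : S → 𝕜) (hc : ∀ s, ‖c s‖ ≤ 1) :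
    ‖∑ s ∈ F, c s • (coord s : dualB (ell1 𝕜 S))‖ ≤ 1 := by
  refine ContinuousLinearMap.opNorm_le_bound _ zero_le_one fun x => ?_
  have h1 : (ap (∑ s ∈ F, c s • (coord s : dualB (ell1 𝕜 S)))) x
      = ∑ s ∈ F, c s * co x s := by
    change (∑ s ∈ F, c s • (ap (coord s))) x = _
    rw [sum_apply]
    rfl
  refine (le_of_eq (congrArg norm h1)).trans ?_
  rw [one_mul, norm_eq_tsum]
  calc ‖∑ s ∈ F, c s * co x s‖ ≤ ∑ s ∈ F, ‖c s * co x s‖ := norm_sum_le _ _
    _ ≤ ∑ s ∈ F, ‖co x s‖ := by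
        refine Finset.sum_le_sum fun s _ => ?_
        rw [norm_mul]
        exact mul_le_of_le_one_left (norm_nonneg _) (hc s)
    _ ≤ ∑' s, ‖co x s‖ := (summable_co x).sum_le_tsum _ fun _ _ => norm_nonneg _

/-- For a bounded operator `θ : ℓ¹(S)* → B*`, the values `θ(coord s)(x)` are summable. -/
theorem sum_norm_coord_le {B : Ban 𝕜} (θ : dualB (ell1 𝕜 S) →L[𝕜] dualB B) (x : B)
    (F : Finset S) : ∑ s ∈ F, ‖(ap (θ (coord s))) x‖ ≤ ‖θ‖ * ‖x‖ := by
  -- unimodular coefficients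
  have hsgn : ∀ z : 𝕜, ∃ c : 𝕜, ‖c‖ ≤ 1 ∧ c * z = (‖z‖ : 𝕜) := by
    intro z
    by_cases hz : z = 0
    · exact ⟨0, by simp, by simp [hz]⟩
    · refine ⟨(‖z‖ : 𝕜) / z, ?_, ?_⟩
      · rw [norm_div, RCLike.norm_ofReal, abs_of_nonneg (norm_nonneg _),
          div_self (norm_ne_zero_iff.2 hz)]
      · field_simp
  choose c hc1 hc2 using fun s => hsgn ((ap (θ (coord s))) x)
  have h1 : ((∑ s ∈ F, ‖(ap (θ (coord s))) x‖ : ℝ) : 𝕜)
      = (ap (θ (∑ s ∈ F, c s • (coord s : dualB (ell1 𝕜 S))))) x := by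
    have h3 : θ (∑ s ∈ F, c s • (coord s : dualB (ell1 𝕜 S)))
        = ∑ s ∈ F, c s • θ (coord s) := by
      rw [map_sum]
      exact Finset.sum_congr rfl fun s _ => map_smul θ _ _
    rw [h3, ap_sum_smul]
    push_cast
    exact Finset.sum_congr rfl fun s _ => (hc2 s).symm
  have h2 : ‖((∑ s ∈ F, ‖(ap (θ (coord s))) x‖ : ℝ) : 𝕜)‖
      = ∑ s ∈ F, ‖(ap (θ (coord s))) x‖ := by
    rw [RCLike.norm_ofReal, abs_of_nonneg (Finset.sum_nonneg fun _ _ => norm_nonneg _)]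
  rw [← h2, h1]
  calc _ ≤ ‖θ (∑ s ∈ F, c s • (coord s : dualB (ell1 𝕜 S)))‖ * ‖x‖ :=
        ContinuousLinearMap.le_opNorm _ _
    _ ≤ (‖θ‖ * ‖∑ s ∈ F, c s • (coord s : dualB (ell1 𝕜 S))‖) * ‖x‖ := by
        gcongr; exact θ.le_opNorm _
    _ ≤ (‖θ‖ * 1) * ‖x‖ := by
        gcongr
        exact norm_sum_coord_le F c hc1
    _ = ‖θ‖ * ‖x‖ := by ring

theorem summable_coordMap {B : Ban 𝕜} (θ : dualB (ell1 𝕜 S) →L[𝕜] dualB B) (x : B) :
    Summable fun s => ‖(ap (θ (coord s))) x‖ :=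
  summable_of_sum_le (fun _ => norm_nonneg _) (sum_norm_coord_le θ x)

/-- The operator `x ↦ (θ(coord s)(x))_s`. -/
noncomputable def coordMap {B : Ban 𝕜} (θ : dualB (ell1 𝕜 S) →L[𝕜] dualB B) :
    B →L[𝕜] ell1 𝕜 S :=
  LinearMap.mkContinuous
    { toFun := fun x => mk1 (fun s => (ap (θ (coord s))) x)
        (summable_coordMap θ x)
      map_add' := fun x y => co_injective (funext fun _ => map_add (ap _) x y)
      map_smul' := fun c x => co_injective (funext fun _ =>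
        map_smul (ap _) c x) }
    ‖θ‖ (fun x => norm_mk1_le _ (summable_coordMap θ x)
      ((summable_coordMap θ x).tsum_le_of_sum_le (sum_norm_coord_le θ x)))

theorem co_coordMap {B : Ban 𝕜} (θ : dualB (ell1 𝕜 S) →L[𝕜] dualB B) (x : B) (s : S) :
    co (coordMap θ x) s = (ap (θ (coord s))) x := rfl

end Pool.Agent.Lib_helper54.FD
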