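import Pool.Agent.Lib_helper54.FD.Tech

set_option autoImplicit false

/-! Elementary homological algebra of Banach spaces. -/

namespace Pool.Agent.Lib_helper54.FD

variable {𝕜 : Type} [RCLike 𝕜]

/-- Short exact sequences `0 → K → E → Q → 0`. -/
structure SES {K E Q : Ban 𝕜} (i : K →L[𝕜] E) (q : E →L[𝕜] Q) : Prop where
  inj : Function.Injective i
  ex : ∀ x, q x = 0 ↔ ∃ y, i y = x
  surj : Function.Surjective q

/-- The kernel as a Banach space. -/
noncomputable def kerB {E Q : Ban 𝕜} (q : E →L[𝕜] Q) : Ban 𝕜 :=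
  haveI : CompleteSpace (LinearMap.ker (q : E →ₗ[𝕜] Q)) := q.isClosed_ker.completeSpace_coe
  ⟨LinearMap.ker (q : E →ₗ[𝕜] Q)⟩

/-- The inclusion of the kernel. -/
noncomputable def kerI {E Q : Ban 𝕜} (q : E →L[𝕜] Q) : kerB q →L[𝕜] E :=
  (LinearMap.ker (q : E →ₗ[𝕜] Q)).subtypeL

theorem ses_ker {E Q : Ban 𝕜} (q : E →L[𝕜] Q) (hq : Function.Surjective q) :
    SES (kerI q) q where
  inj := Subtype.val_injective
  ex x := ⟨fun h => ⟨⟨x, h⟩, rfl⟩, by rintro ⟨y, rfl⟩; exact y.2⟩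
  surj := hq

theorem kerI_mem {E Q : Ban 𝕜} (q : E →L[𝕜] Q) (x : kerB q) : q (kerI q x) = 0 := x.2

/-- Corestriction to the kernel. -/
noncomputable def toKer {E Q Z : Ban 𝕜} (q : E →L[𝕜] Q) (f : Z →L[𝕜] E) (h : ∀ z, q (f z) = 0) :
    Z →L[𝕜] kerB q :=
  f.codRestrict (LinearMap.ker (q : E →ₗ[𝕜] Q)) h

theorem kerI_toKer {E Q Z : Ban 𝕜} (q : E →L[𝕜] Q) (f : Z →L[𝕜] E) (h : ∀ z, q (f z) = 0)
    (z : Z) : kerI q (toKer q f h z) = f z := rfl

theorem kerI_injective {E Q : Ban 𝕜} (q : E →L[𝕜] Q) : Function.Injective (kerI q) :=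
  Subtype.val_injective

/-- The open mapping theorem for bijections. -/
theorem exists_inverse {E F : Ban 𝕜} (f : E →L[𝕜] F) (hi : Function.Injective f)
    (hs : Function.Surjective f) : ∃ g : F →L[𝕜] E, (∀ x, g (f x) = x) ∧ ∀ y, f (g y) = y := by
  let e := ContinuousLinearEquiv.ofBijective f (LinearMap.ker_eq_bot.2 hi)
    (LinearMap.range_eq_top.2 hs)
  exact ⟨e.symm, fun x => e.symm_apply_apply x, fun y => e.apply_symm_apply y⟩

theorem SES.lift {K E Q Z : Ban 𝕜} {i : K →L[𝕜] E} {q : E →L[𝕜] Q} (h : SES i q)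
    (f : Z →L[𝕜] E) (hf : ∀ z, q (f z) = 0) : ∃ g : Z →L[𝕜] K, ∀ z, i (g z) = f z := by
  obtain ⟨t, -, ht⟩ := exists_inverse (toKer q i fun z => (h.ex _).2 ⟨z, rfl⟩)
    (fun x y hxy => h.inj (congrArg (kerI q) hxy))
    (fun y => by
      obtain ⟨x, hx⟩ := (h.ex (kerI q y)).1 (kerI_mem q y)
      exact ⟨x, kerI_injective q hx⟩)
  refine ⟨t ∘L toKer q f hf, fun z => ?_⟩
  have := congrArg (kerI q) (ht (toKer q f hf z))
  exact this

theorem SES.desc {K E Q Z : Ban 𝕜} {i : K →L[𝕜] E} {q : E →L[𝕜] Q} (h : SES i q)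
    (f : E →L[𝕜] Z) (hf : ∀ k, f (i k) = 0) : ∃ g : Q →L[𝕜] Z, ∀ x, g (q x) = f x := by
  obtain ⟨C, hC, hpre⟩ := q.exists_preimage_norm_le h.surj
  have key : ∀ x x', q x = q x' → f x = f x' := by
    intro x x' hxx
    obtain ⟨k, hk⟩ := (h.ex (x - x')).1 (by rw [map_sub, hxx, sub_self])
    have := hf k
    rw [hk, map_sub, sub_eq_zero] at this
    exact this
  choose s hs1 hs2 using hpre
  let g : Q →ₗ[𝕜] Z :=
    { toFun := fun y => f (s y)
      map_add' := fun y y' => by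
        rw [← map_add]
        exact key _ _ (by rw [map_add, hs1, hs1, hs1])
      map_smul' := fun c y => by
        rw [← map_smul]
        exact key _ _ (by rw [map_smul, hs1, hs1]; rfl) }
  refine ⟨g.mkContinuous (‖f‖ * C) fun y => ?_, fun x => ?_⟩
  · calc ‖f (s y)‖ ≤ ‖f‖ * ‖s y‖ := f.le_opNorm _
      _ ≤ ‖f‖ * (C * ‖y‖) := by gcongr; exact hs2 y
      _ = ‖f‖ * C * ‖y‖ := by ring
  · exact key _ _ (hs1 _)

/-! ### Duals -/

/-- The dual space. -/
noncomputable def dualB (Z : Ban 𝕜) : Ban 𝕜 := ⟨Z →L[𝕜] 𝕜⟩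

/-- An element of the dual space as a functional. -/
def ap {E : Ban 𝕜} (φ : dualB E) : E →L[𝕜] 𝕜 := φ

/-- The adjoint map. -/
noncomputable def dualMap {E F : Ban 𝕜} (f : E →L[𝕜] F) : dualB F →L[𝕜] dualB E :=
  (ContinuousLinearMap.compL 𝕜 E F 𝕜).flip f

theorem dualMap_apply {E F : Ban 𝕜} (f : E →L[𝕜] F) (φ : F →L[𝕜] 𝕜) :
    dualMap f φ = φ.comp f := rfl

theorem dualMap_comp {E F G : Ban 𝕜} (f : E →L[𝕜] F) (g : F →L[𝕜] G) (φ : dualB G) :
    dualMap f (dualMap g φ) = dualMap (g ∘L f) φ := rfl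

theorem dual_ext {E : Ban 𝕜} {φ ψ : dualB E}
    (h : ∀ x, (ap φ) x = (ap ψ) x) : φ = ψ :=
  ContinuousLinearMap.ext h

/-- The scalars as a Banach space. -/
noncomputable def scal (𝕜 : Type) [RCLike 𝕜] : Ban 𝕜 := ⟨𝕜⟩

theorem SES.dual {K E Q : Ban 𝕜} {i : K →L[𝕜] E} {q : E →L[𝕜] Q} (h : SES i q) :
    SES (dualMap q) (dualMap i) where
  inj φ ψ hφψ := by
    refine dual_ext fun y => ?_
    obtain ⟨x, rfl⟩ := h.surj y
    exact congrArg (fun χ : E →L[𝕜] 𝕜 => χ x) hφψ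
  ex φ := by
    constructor
    · intro hφ
      obtain ⟨g, hg⟩ := h.desc (Z := scal 𝕜) φ
        (fun k => congrArg (fun χ : K →L[𝕜] 𝕜 => χ k) hφ)
      exact ⟨g, dual_ext hg⟩
    · rintro ⟨ψ, rfl⟩
      refine dual_ext fun k => ?_
      change (ap ψ) (q (i k)) = 0
      rw [(h.ex _).2 ⟨k, rfl⟩, map_zero]
  surj φ := by
    obtain ⟨t, ht⟩ := h.lift (kerI q) (kerI_mem q)
    obtain ⟨ψ, hψ, -⟩ := exists_extension_norm_eq (LinearMap.ker (q : E →ₗ[𝕜] Q))
      ((ap φ) ∘L t)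
    refine ⟨ψ, dual_ext fun k => ?_⟩
    have hk : q (i k) = 0 := (h.ex _).2 ⟨k, rfl⟩
    have h1 := hψ ⟨i k, hk⟩
    change ψ (i k) = (ap φ) k
    change ψ (i k) = (ap φ) (t ⟨i k, hk⟩) at h1
    rw [h1]
    congr 1
    exact h.inj (ht ⟨i k, hk⟩)

/-! ### Classes of spaces -/

/-- The dual of `Z` is an injective Banach space. -/
def DualInj (Z : Ban 𝕜) : Prop :=
  ∀ (A B : Ban 𝕜) (j : A →L[𝕜] B) (c : ℝ), (∀ x, ‖x‖ ≤ c * ‖j x‖) →
    ∀ u : A →L[𝕜] dualB Z, ∃ v : B →L[𝕜] dualB Z, ∀ x, v (j x) = u x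

/-- Projective Banach spaces. -/
def Proj (P : Ban 𝕜) : Prop :=
  ∀ (Y X : Ban 𝕜) (g : Y →L[𝕜] X), Function.Surjective g → ∀ f : P →L[𝕜] X,
    ∃ f' : P →L[𝕜] Y, ∀ x, g (f' x) = f x

/-- The product of Banach spaces. -/
noncomputable def prodB (A B : Ban 𝕜) : Ban 𝕜 := ⟨A × B⟩

/-- The trivial Banach space. -/
noncomputable def zeroB (𝕜 : Type) [RCLike 𝕜] : Ban 𝕜 := ⟨PUnit⟩

/-- Closure properties shared by the class of projective spaces and the class of spaces with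
injective dual. -/
structure Good (C : Ban 𝕜 → Prop) : Prop where
  mem_ell1 : ∀ S : Type, C (ell1 𝕜 S)
  prod : ∀ A B, C A → C B → C (prodB A B)
  retract : ∀ (A B : Ban 𝕜) (i : A →L[𝕜] B) (r : B →L[𝕜] A), (∀ x, r (i x) = x) → C B → C A
  ker : ∀ (K E Q : Ban 𝕜) (i : K →L[𝕜] E) (q : E →L[𝕜] Q), SES i q → C E → C Q → C K

/-- Resolutions in terms of short exact sequences. -/
def Res (C : Ban 𝕜 → Prop) : ℕ → Ban 𝕜 → Prop
  | 0, X => C X
  | n + 1, X => ∃ (K P : Ban 𝕜) (i : K →L[𝕜] P) (π : P →L[𝕜] X), SES i π ∧ C P ∧ Res C n K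

section

variable {C : Ban 𝕜 → Prop} (hC : Good C)

include hC

theorem Good.zero : C (zeroB 𝕜) :=
  hC.retract (zeroB 𝕜) (ell1 𝕜 Empty) 0 0 (fun _ => rfl) (hC.mem_ell1 _)

theorem Good.iso {A B : Ban 𝕜} (f : A →L[𝕜] B) (hi : Function.Injective f)
    (hs : Function.Surjective f) (hA : C A) : C B := by
  obtain ⟨g, h1, h2⟩ := exists_inverse f hi hs
  exact hC.retract B A g f h2 hA

theorem res_succ (n : ℕ) : ∀ X : Ban 𝕜, Res C n X → Res C (n + 1) X := by
  induction n with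
  | zero =>
    intro X hX
    refine ⟨zeroB 𝕜, X, 0, ContinuousLinearMap.id 𝕜 X, ⟨fun _ _ _ => rfl, fun x => ?_,
      Function.surjective_id⟩, hX, hC.zero⟩
    constructor
    · intro h
      exact ⟨PUnit.unit, (show x = 0 from h).symm⟩
    · rintro ⟨y, hy⟩
      exact hy.symm
  | succ n ih =>
    rintro X ⟨K, P, i, π, h, hP, hK⟩
    exact ⟨K, P, i, π, h, hP, ih K hK⟩

theorem res_mono {n m : ℕ} (h : n ≤ m) {X : Ban 𝕜} (hX : Res C n X) : Res C m X := by
  induction m, h using Nat.le_induction with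
  | base => exact hX
  | succ m _ ih => exact res_succ hC m X ih

theorem res_ker (n : ℕ) {K E Q : Ban 𝕜} {k : K →L[𝕜] E} {q : E →L[𝕜] Q} (h : SES k q)
    (hQ : C Q) (hE : Res C n E) : Res C n K := by
  cases n with
  | zero => exact hC.ker K E Q k q h hE hQ
  | succ n =>
    obtain ⟨E', R, i, r, hir, hR, hE'⟩ := hE
    have hqr : Function.Surjective (q ∘L r) := h.surj.comp hir.surj
    -- the preimage of `K` in `R`
    have hK' : C (kerB (q ∘L r)) := hC.ker _ _ _ _ _ (ses_ker (q ∘L r) hqr) hR hQ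
    obtain ⟨t, ht⟩ := h.lift (r ∘L kerI (q ∘L r)) (fun z => kerI_mem (q ∘L r) z)
    have hi : ∀ z, (q ∘L r) (i z) = 0 := fun z => by
      change q (r (i z)) = 0
      rw [(hir.ex _).2 ⟨z, rfl⟩, map_zero]
    refine ⟨E', kerB (q ∘L r), toKer (q ∘L r) i hi, t, ⟨?_, ?_, ?_⟩, hK', hE'⟩
    · intro x y hxy
      exact hir.inj (congrArg (kerI (q ∘L r)) hxy)
    · intro x
      constructor
      · intro hx
        have h1 : r (kerI (q ∘L r) x) = 0 := by
          have := ht x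
          rw [hx, map_zero] at this
          exact this.symm
        obtain ⟨y, hy⟩ := (hir.ex _).1 h1
        exact ⟨y, kerI_injective _ hy⟩
      · rintro ⟨y, rfl⟩
        apply h.inj
        rw [ht, map_zero]
        change r (i y) = 0
        exact (hir.ex _).2 ⟨y, rfl⟩
    · intro y
      obtain ⟨x, hx⟩ := hir.surj (k y)
      have hx' : (q ∘L r) x = 0 := by
        change q (r x) = 0
        rw [hx]
        exact (h.ex _).2 ⟨y, rfl⟩
      exact ⟨⟨x, hx'⟩, h.inj ((ht ⟨x, hx'⟩).trans hx)⟩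

theorem res_prod (n : ℕ) {P L : Ban 𝕜} (hP : C P) (hL : Res C n L) : Res C n (prodB P L) := by
  cases n with
  | zero => exact hC.prod _ _ hP hL
  | succ n =>
    obtain ⟨K, R, i, π, h, hR, hK⟩ := hL
    refine ⟨K, prodB P R, (ContinuousLinearMap.inr 𝕜 P R) ∘L i,
      (ContinuousLinearMap.id 𝕜 P).prodMap π, ⟨?_, ?_, ?_⟩, hC.prod _ _ hP hR, hK⟩
    · intro x y hxy
      exact h.inj (congrArg Prod.snd hxy)
    · rintro ⟨a, b⟩
      constructor
      · intro hab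
        have h1 : a = 0 := congrArg Prod.fst hab
        have h2 : π b = 0 := congrArg Prod.snd hab
        obtain ⟨y, hy⟩ := (h.ex b).1 h2
        exact ⟨y, Prod.ext h1.symm hy⟩
      · rintro ⟨y, hy⟩
        have h1 : (0 : P) = a := congrArg Prod.fst hy
        have h2 : i y = b := congrArg Prod.snd hy
        subst h1 h2
        exact Prod.ext rfl ((h.ex _).2 ⟨y, rfl⟩)
    · rintro ⟨a, b⟩
      obtain ⟨c, hc⟩ := h.surj b
      exact ⟨(a, c), Prod.ext rfl hc⟩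

/-- Dimension shifting (Schanuel). -/
theorem res_shift (n : ℕ) {K P X : Ban 𝕜} {i : K →L[𝕜] P} {π : P →L[𝕜] X} (h : SES i π)
    (hP : C P) (hproj : Proj P) (hX : Res C (n + 1) X) : Res C n K := by
  obtain ⟨L, Q, l, q, hq, hQ, hL⟩ := hX
  obtain ⟨g, hg⟩ := hproj Q X q hq.surj π
  -- `P × L → Q`
  have hPL := res_prod hC n hP hL
  let t : prodB P L →L[𝕜] Q := g ∘L ContinuousLinearMap.fst 𝕜 P L +
    l ∘L ContinuousLinearMap.snd 𝕜 P L
  have ht : ∀ a b, t (a, b) = g a + l b := fun _ _ => rfl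
  -- `K → P × L`
  obtain ⟨s, hs⟩ := hq.lift (-(g ∘L i)) (fun z => by
    change q (-(g (i z))) = 0
    rw [map_neg, hg, (h.ex _).2 ⟨z, rfl⟩, neg_zero])
  refine res_ker hC n (k := i.prod s) (q := t) ⟨?_, ?_, ?_⟩ hQ hPL
  · intro x y hxy
    exact h.inj (congrArg Prod.fst hxy)
  · rintro ⟨a, b⟩
    rw [ht]
    constructor
    · intro hab
      have h1 : π a = 0 := by
        have hb0 : q (l b) = 0 := (hq.ex (l b)).2 ⟨b, rfl⟩
        have h3 : q (g a + l b) = 0 := by rw [hab, map_zero]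
        rw [map_add, hb0, add_zero, hg] at h3
        exact h3
      obtain ⟨k, hk⟩ := (h.ex a).1 h1
      refine ⟨k, Prod.ext hk (hq.inj ?_)⟩
      change l (s k) = l b
      rw [hs]
      change -(g (i k)) = l b
      rw [hk]
      exact (eq_neg_of_add_eq_zero_right hab).symm
    · rintro ⟨k, hk⟩
      have h1 : i k = a := congrArg Prod.fst hk
      have h2 : s k = b := congrArg Prod.snd hk
      rw [← h1, ← h2, hs]
      exact add_neg_cancel (g (i k))
  · intro y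
    obtain ⟨a, ha⟩ := h.surj (q y)
    obtain ⟨b, hb⟩ := (hq.ex (y - g a)).1 (by rw [map_sub, hg, ha, sub_self])
    refine ⟨(a, b), ?_⟩
    rw [ht, hb]
    abel

theorem res_shift_zero {K P X : Ban 𝕜} {i : K →L[𝕜] P} {π : P →L[𝕜] X} (h : SES i π)
    (hP : C P) (hX : Res C 0 X) : Res C 0 K := hC.ker _ _ _ _ _ h hP hX

/-- From resolutions to iterated short exact sequences. -/
theorem res_of_hasResolution (n : ℕ) : ∀ X : Ban 𝕜, HasResolution C X n → Res C n X := by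
  induction n with
  | zero =>
    intro X h
    obtain ⟨P, ε, d, hs, h0, hd, hmem, hsub⟩ := (hasResolution_iff C X 0).1 h
    refine hC.iso ε ?_ hs (hmem 0 le_rfl)
    rw [injective_iff_map_eq_zero]
    intro x hx
    obtain ⟨y, rfl⟩ := (h0 x).1 hx
    have := hsub 1 one_pos
    rw [Subsingleton.elim y 0, map_zero]
  | succ n ih =>
    intro X h
    obtain ⟨P, ε, d, hs, h0, hd, hmem, hsub⟩ := (hasResolution_iff C X (n + 1)).1 h
    refine ⟨kerB ε, P 0, kerI ε, ε, ses_ker ε hs, hmem 0 (Nat.zero_le _), ih _ ?_⟩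
    refine ⟨fun i => P (i + 1), toKer ε (d 0) (fun z => (h0 _).2 ⟨z, rfl⟩), fun i => d (i + 1),
      ?_, ?_, fun i x => hd (i + 1) x, fun i hi => hmem (i + 1) (by omega),
      fun i hi => hsub (i + 1) (by omega)⟩
    · intro y
      obtain ⟨x, hx⟩ := (h0 (kerI ε y)).1 (kerI_mem ε y)
      exact ⟨x, kerI_injective ε hx⟩
    · intro x
      rw [← hd 0 x]
      constructor
      · intro h
        exact congrArg (kerI ε) h
      · intro h
        exact kerI_injective ε h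

end

theorem HasResolution.mono {C D : Ban 𝕜 → Prop} (hCD : ∀ X, C X → D X) {X : Ban 𝕜} {n : ℕ}
    (h : HasResolution C X n) : HasResolution D X n := by
  obtain ⟨P, ε, d, hs, h0, hd, hmem, hsub⟩ := h
  exact ⟨P, ε, d, hs, h0, hd, fun i hi => hCD _ (hmem i hi), hsub⟩

/-- If `Q*` is injective, then the dual of a short exact sequence ending in `Q` splits. -/
theorem dual_section {K E Q : Ban 𝕜} {i : K →L[𝕜] E} {q : E →L[𝕜] Q} (h : SES i q)
    (hQ : DualInj Q) : ∃ σ : dualB K →L[𝕜] dualB E, ∀ φ, dualMap i (σ φ) = φ := by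
  obtain ⟨C, hC, hpre⟩ := q.exists_preimage_norm_le h.surj
  have hlow : ∀ φ : dualB Q, ‖φ‖ ≤ C * ‖dualMap q φ‖ := by
    intro φ
    refine ContinuousLinearMap.opNorm_le_bound _ (by positivity) fun y => ?_
    obtain ⟨x, rfl, hx⟩ := hpre y
    calc ‖(ap φ) (q x)‖ = ‖(ap (dualMap q φ)) x‖ := rfl
      _ ≤ ‖dualMap q φ‖ * ‖x‖ := ContinuousLinearMap.le_opNorm _ _
      _ ≤ ‖dualMap q φ‖ * (C * ‖q x‖) := by gcongr
      _ = C * ‖dualMap q φ‖ * ‖q x‖ := by ring
  obtain ⟨r, hr⟩ := hQ (dualB Q) (dualB E) (dualMap q) C hlow (ContinuousLinearMap.id 𝕜 _)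
  have hd := h.dual
  obtain ⟨σ, hσ⟩ := hd.desc (ContinuousLinearMap.id 𝕜 (dualB E) - dualMap q ∘L r) (fun φ => by
    change dualMap q φ - dualMap q (r (dualMap q φ)) = 0
    rw [hr]
    exact sub_self _)
  refine ⟨σ, fun φ => ?_⟩
  obtain ⟨ψ, rfl⟩ := hd.surj φ
  rw [hσ]
  change dualMap i (ψ - dualMap q (r ψ)) = dualMap i ψ
  rw [map_sub, (hd.ex _).2 ⟨r ψ, rfl⟩, sub_zero]

/-! ### The two good classes -/

theorem Proj.retract {A B : Ban 𝕜} (i : A →L[𝕜] B) (r : B →L[𝕜] A) (h : ∀ x, r (i x) = x)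
    (hB : Proj B) : Proj A := by
  intro Y X g hg f
  obtain ⟨f', hf'⟩ := hB Y X g hg (f ∘L r)
  refine ⟨f' ∘L i, fun x => ?_⟩
  change g (f' (i x)) = f x
  rw [hf']
  change f (r (i x)) = f x
  rw [h]

theorem Proj.prod {A B : Ban 𝕜} (hA : Proj A) (hB : Proj B) : Proj (prodB A B) := by
  intro Y X g hg f
  obtain ⟨f1, hf1⟩ := hA Y X g hg (f ∘L ContinuousLinearMap.inl 𝕜 A B)
  obtain ⟨f2, hf2⟩ := hB Y X g hg (f ∘L ContinuousLinearMap.inr 𝕜 A B)
  refine ⟨f1 ∘L ContinuousLinearMap.fst 𝕜 A B + f2 ∘L ContinuousLinearMap.snd 𝕜 A B, ?_⟩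
  rintro ⟨a, b⟩
  change g (f1 a + f2 b) = f (a, b)
  rw [map_add, hf1, hf2]
  exact (f.map_add _ _).symm.trans (congrArg f (Prod.ext (add_zero a) (zero_add b)))

theorem Proj.split {K E Q : Ban 𝕜} {i : K →L[𝕜] E} {q : E →L[𝕜] Q} (h : SES i q)
    (hQ : Proj Q) : ∃ r : E →L[𝕜] K, ∀ x, r (i x) = x := by
  obtain ⟨s, hs⟩ := hQ E Q q h.surj (ContinuousLinearMap.id 𝕜 Q)
  obtain ⟨r, hr⟩ := h.lift (ContinuousLinearMap.id 𝕜 E - s ∘L q) (fun z => by
    change q (z - s (q z)) = 0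
    rw [map_sub, hs]
    exact sub_self _)
  refine ⟨r, fun x => h.inj ?_⟩
  rw [hr]
  change i x - s (q (i x)) = i x
  rw [(h.ex _).2 ⟨x, rfl⟩, map_zero, sub_zero]

theorem good_proj (hl : ∀ S : Type, Proj (ell1 𝕜 S)) : Good (Proj : Ban 𝕜 → Prop) where
  mem_ell1 := hl
  prod _ _ := Proj.prod
  retract _ _ i r h hB := Proj.retract i r h hB
  ker _ _ _ i q h hE hQ := by
    obtain ⟨r, hr⟩ := Proj.split h hQ
    exact Proj.retract i r hr hE

theorem DualInj.retract {A B : Ban 𝕜} (i : A →L[𝕜] B) (r : B →L[𝕜] A) (h : ∀ x, r (i x) = x)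
    (hB : DualInj B) : DualInj A := by
  intro X Y j c hj u
  obtain ⟨v, hv⟩ := hB X Y j c hj (dualMap r ∘L u)
  refine ⟨dualMap i ∘L v, fun x => ?_⟩
  change dualMap i (v (j x)) = u x
  rw [hv]
  refine dual_ext fun a => ?_
  change (ap (u x)) (r (i a)) = _
  rw [h]

theorem DualInj.prod {A B : Ban 𝕜} (hA : DualInj A) (hB : DualInj B) :
    DualInj (prodB A B) := by
  intro X Y j c hj u
  obtain ⟨v1, hv1⟩ := hA X Y j c hj
    (dualMap (E := A) (F := prodB A B) (ContinuousLinearMap.inl 𝕜 A B) ∘L u)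
  obtain ⟨v2, hv2⟩ := hB X Y j c hj
    (dualMap (E := B) (F := prodB A B) (ContinuousLinearMap.inr 𝕜 A B) ∘L u)
  refine ⟨dualMap (E := prodB A B) (F := A) (ContinuousLinearMap.fst 𝕜 A B) ∘L v1 +
    dualMap (E := prodB A B) (F := B) (ContinuousLinearMap.snd 𝕜 A B) ∘L v2, fun x => ?_⟩
  refine dual_ext ?_
  rintro ⟨a, b⟩
  change (ap (v1 (j x))) a + (ap (v2 (j x))) b = _
  rw [hv1, hv2]
  exact ((ap (u x)).map_add _ _).symm.trans
    (congrArg (ap (u x)) (Prod.ext (add_zero a) (zero_add b)))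

theorem good_dualInj (hl : ∀ S : Type, DualInj (ell1 𝕜 S)) :
    Good (DualInj : Ban 𝕜 → Prop) where
  mem_ell1 := hl
  prod _ _ := DualInj.prod
  retract _ _ i r h hB := DualInj.retract i r h hB
  ker K E Q i q h hE hQ := by
    obtain ⟨σ, hσ⟩ := dual_section h hQ
    intro X Y j c hj u
    obtain ⟨v, hv⟩ := hE X Y j c hj (σ ∘L u)
    refine ⟨dualMap i ∘L v, fun x => ?_⟩
    change dualMap i (v (j x)) = u x
    rw [hv]
    exact hσ _

/-! ### The last map of a projective resolution -/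

/-- If a space with injective-dual dimension at most `m` has a resolution of length `m + 1` by
projective spaces with injective duals, then the adjoint of the last map has a right inverse. -/
theorem last_map (hl : ∀ S : Type, DualInj (ell1 𝕜 S)) (m : ℕ) :
    ∀ (X : Ban 𝕜) (P : ℕ → Ban 𝕜) (ε : P 0 →L[𝕜] X) (d : ∀ i, P (i + 1) →L[𝕜] P i),
      Function.Surjective ε → (∀ x, ε x = 0 ↔ ∃ y, d 0 y = x) →
      (∀ i x, d i x = 0 ↔ ∃ y, d (i + 1) y = x) → (∀ i, Proj (P i)) → (∀ i, DualInj (P i)) →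
      Subsingleton (P (m + 2)) → Res DualInj m X →
      ∃ r : dualB (P (m + 1)) →L[𝕜] dualB (P m), ∀ φ, dualMap (d m) (r φ) = φ := by
  induction m with
  | zero =>
    intro X P ε d hs h0 hd hproj hinj hsub hX
    refine dual_section (i := d 0) (q := ε) ⟨?_, h0, hs⟩ hX
    rw [injective_iff_map_eq_zero]
    intro x hx
    obtain ⟨y, rfl⟩ := (hd 0 x).1 hx
    rw [Subsingleton.elim y 0, map_zero]
  | succ m ih =>
    intro X P ε d hs h0 hd hproj hinj hsub hX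
    have hK : Res DualInj m (kerB ε) :=
      res_shift (good_dualInj hl) m (ses_ker ε hs) (hinj 0) (hproj 0) hX
    refine ih (kerB ε) (fun i => P (i + 1)) (toKer ε (d 0) fun z => (h0 _).2 ⟨z, rfl⟩)
      (fun i => d (i + 1)) ?_ ?_ (fun i x => hd (i + 1) x) (fun i => hproj _) (fun i => hinj _)
      hsub hK
    · intro y
      obtain ⟨x, hx⟩ := (h0 (kerI ε y)).1 (kerI_mem ε y)
      exact ⟨x, kerI_injective ε hx⟩
    · intro x
      rw [← hd 0 x]
      constructor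
      · intro h
        exact congrArg (kerI ε) h
      · intro h
        exact kerI_injective ε h

end Pool.Agent.Lib_helper54.FD
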