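import Pool.Agent.Lib_helper54.FD.Cone

set_option autoImplicit false

/-! The finite complexes of length `m`. -/

namespace Pool.Agent.Lib_helper54.FD

open Finset

variable {𝕜 : Type} [RCLike 𝕜]

/-- The index sets of the complex concentrated in one term. -/
def baseA : ℕ → Type
  | 0 => Empty
  | 1 => Unit
  | _ + 2 => Empty

instance baseInst : ∀ i, Fintype (baseA i)
  | 0 => inferInstanceAs (Fintype Empty)
  | 1 => inferInstanceAs (Fintype Unit)
  | _ + 2 => inferInstanceAs (Fintype Empty)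

/-- The complex concentrated in one term. -/
def base (𝕜 : Type) [RCLike 𝕜] : Cx 𝕜 := { A := baseA, d := fun _ => 0 }

theorem base_isGood : (base 𝕜).IsGood 0 1 where
  empty0 := inferInstanceAs (IsEmpty Empty)
  empty i hi := by
    obtain ⟨j, rfl⟩ : ∃ j, i = j + 2 := ⟨i - 2, by omega⟩
    exact inferInstanceAs (IsEmpty Empty)
  nonempty := inferInstanceAs (Nonempty Unit)
  dd _ _ := rfl
  bound i x := by
    change N (0 : (base 𝕜).A i → 𝕜) ≤ _
    rw [N_zero, one_mul]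
    exact N_nonneg _
  exact i x _ := by
    refine ⟨0, ?_, ?_⟩
    · funext a
      exact Empty.elim a
    · rw [N_zero, one_mul]
      exact N_nonneg _
  closed x := by
    refine ⟨0, rfl, ?_⟩
    rw [N_zero, one_mul]
    exact N_nonneg _

theorem base_cert : Cert ((base 𝕜).d 0) 1 0 1 := by
  refine ⟨fun _ _ => 1, fun _ => 0, fun _ _ => norm_one.le, fun _ b => Empty.elim b, ?_, ?_⟩
  · rw [sum_const_zero, zero_mul]
  · change (1 : ℝ) * Fintype.card Unit ≤ ‖∑ _y : Unit, (1 : 𝕜)‖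
    simp

/-- There are blocks for all subspaces. -/
def HasBlocks (𝕜 : Type) [RCLike 𝕜] : Prop :=
  ∀ (A : Type) [Fintype A] (S : Submodule 𝕜 (A → 𝕜)) (R : ℕ),
    ∃ (V W : Type) (_ : Fintype V) (_ : Fintype W) (t : W → V → 𝕜) (ψ : V → V → 𝕜) (β : W → ℝ),
      IsBlock S R t ψ β

theorem exists_cx (hb : HasBlocks 𝕜) (m : ℕ) : ∃ C : ℝ, 0 ≤ C ∧ ∀ R : ℕ, 1 ≤ R →
    ∃ P : Cx 𝕜, P.IsGood m C ∧
      Cert (P.d m) ((R : ℝ) ^ m) (m * (R : ℝ) ^ m / R) ((R / 2 : ℝ) ^ m) := by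
  induction m with
  | zero =>
    refine ⟨1, zero_le_one, fun R hR => ⟨base 𝕜, base_isGood, ?_⟩⟩
    have := base_cert (𝕜 := 𝕜)
    simpa using this
  | succ m ih =>
    obtain ⟨C, hC, h⟩ := ih
    refine ⟨3 * C ^ 2 + 6001 * C + 2003, by positivity, fun R hR => ?_⟩
    obtain ⟨P, hP, hc⟩ := h R hR
    obtain ⟨V, W, _, _, t, ψ, β, ht⟩ := hb (P.A 1) (LinearMap.range (P.d 1)) R
    refine ⟨cone P t, cone_isGood hC hP ht, ?_⟩
    have hR0 : (0 : ℝ) < R := by exact_mod_cast hR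
    have i1 : Nonempty (P.A (m + 1)) := hP.nonempty
    have i2 : IsEmpty (P.A (m + 2)) := hP.empty (m + 2) (by omega)
    have ht' : IsBlock (⊤ : Submodule 𝕜 (P.A (m + 1) → 𝕜)) (R : ℝ) t ψ β :=
      ⟨ht.nonempty, ht.col, fun f z _ => ⟨0, fun _ => trivial, by
        rw [sum_eq_zero (f := fun v => N ((0 : V → P.A (m + 1) → 𝕜) v)) fun _ _ => N_zero]
        exact mul_nonneg (by norm_num) (sum_nonneg fun _ _ => N_nonneg _)⟩,
        ht.psi_le, ht.t_psi, ht.sum_beta, ht.trace⟩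
    have key := Cert.step (A2 := P.A (m + 2)) hR0.le (by positivity) hc ht' ((cone P t).d (m + 1))
      (P.d (m + 1)) (fun x => c1_coneD P t m x) (fun x => c2_coneD P t m x)
    have e1 : (R : ℝ) ^ (m + 1) = R * R ^ m := by ring
    have e2 : ((m + 1 : ℕ) : ℝ) * (R : ℝ) ^ (m + 1) / R = R ^ m + R * (m * (R : ℝ) ^ m / R) := by
      field_simp
      push_cast
      ring
    have e3 : (R / 2 : ℝ) ^ (m + 1) = R / 2 * (R / 2) ^ m := by ring
    rw [e1, e3]
    rw [e1] at e2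
    rw [e2]
    exact key

/-- The left inverses of the last map of the complex have large norm. -/
theorem cert_growth {m R : ℕ} (hR : 1 ≤ R) {K : ℝ} 
    (h : ((R / 2 : ℝ) ^ (m + 1)) ≤ K * ((m + 1 : ℕ) * (R : ℝ) ^ (m + 1) / R)) :
    (R : ℝ) ≤ K * ((m + 1) * 2 ^ (m + 1)) := by
  have hR0 : (0 : ℝ) < R := by exact_mod_cast hR
  rw [div_pow] at h
  have h1 : (R : ℝ) ^ (m + 1) * R ≤ (R : ℝ) ^ (m + 1) * (K * ((m + 1) * 2 ^ (m + 1))) := by
    have h2 : (R : ℝ) ^ (m + 1) / 2 ^ (m + 1) * (R * 2 ^ (m + 1)) ≤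
        K * ((m + 1 : ℕ) * (R : ℝ) ^ (m + 1) / R) * (R * 2 ^ (m + 1)) := by gcongr
    have h3 : (R : ℝ) ^ (m + 1) / 2 ^ (m + 1) * (R * 2 ^ (m + 1)) = (R : ℝ) ^ (m + 1) * R := by
      field_simp
    have h4 : K * ((m + 1 : ℕ) * (R : ℝ) ^ (m + 1) / R) * (R * 2 ^ (m + 1)) =
        (R : ℝ) ^ (m + 1) * (K * ((m + 1) * 2 ^ (m + 1))) := by
      push_cast
      field_simp
    rwa [h3, h4] at h2
  exact le_of_mul_le_mul_left h1 (by positivity)

end Pool.Agent.Lib_helper54.FD
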