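import Pool.Agent.Lib_helper54.FD.Tech

set_option autoImplicit false

/-! The dual of an `𝓛₁`-space is injective. (Proofs by helper29.) -/

namespace Pool.Agent.Lib_helper54.FD

open Filter Topology

variable {𝕜 : Type} [RCLike 𝕜]

/-- Hahn-Banach along a bounded-below operator. -/
lemma ext_functional {A B : Type*} [NormedAddCommGroup A] [NormedSpace 𝕜 A]
    [NormedAddCommGroup B] [NormedSpace 𝕜 B] (j : A →L[𝕜] B) (c : ℝ) (hc : 0 ≤ c)
    (hj : ∀ x, ‖x‖ ≤ c * ‖j x‖) (ψ : A →L[𝕜] 𝕜) :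
    ∃ φ : B →L[𝕜] 𝕜, (∀ a, φ (j a) = ψ a) ∧ ‖φ‖ ≤ c * ‖ψ‖ := by
  have hinj : Function.Injective (j : A →ₗ[𝕜] B) := by
    rw [injective_iff_map_eq_zero]
    intro a ha
    have h := hj a
    have h0 : j a = 0 := ha
    rw [h0, norm_zero, mul_zero] at h
    exact norm_le_zero_iff.mp h
  let E := LinearEquiv.ofInjective (j : A →ₗ[𝕜] B) hinj
  let f0 : LinearMap.range (j : A →ₗ[𝕜] B) →ₗ[𝕜] 𝕜 := (ψ : A →ₗ[𝕜] 𝕜) ∘ₗ E.symm.toLinearMap
  have hb : ∀ x, ‖f0 x‖ ≤ (c * ‖ψ‖) * ‖x‖ := by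
    intro x
    have hx : j (E.symm x) = (x : B) := by
      have := E.apply_symm_apply x
      exact congrArg Subtype.val this
    have h1 : ‖ψ (E.symm x)‖ ≤ ‖ψ‖ * ‖E.symm x‖ := ψ.le_opNorm _
    have h2 : ‖E.symm x‖ ≤ c * ‖j (E.symm x)‖ := hj _
    rw [hx] at h2
    calc ‖f0 x‖ = ‖ψ (E.symm x)‖ := rfl
      _ ≤ ‖ψ‖ * ‖E.symm x‖ := h1
      _ ≤ ‖ψ‖ * (c * ‖(x : B)‖) := mul_le_mul_of_nonneg_left h2 (norm_nonneg _)
      _ = (c * ‖ψ‖) * ‖x‖ := by rw [Submodule.coe_norm]; ring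
  let f := f0.mkContinuous (c * ‖ψ‖) hb
  obtain ⟨g, hg, hgn⟩ := exists_extension_norm_eq (LinearMap.range (j : A →ₗ[𝕜] B)) f
  refine ⟨g, fun a => ?_, ?_⟩
  · have h := hg ⟨j a, ⟨a, rfl⟩⟩
    have h2 : f ⟨j a, ⟨a, rfl⟩⟩ = ψ a := by
      have h3 : E.symm ⟨j a, ⟨a, rfl⟩⟩ = a := by
        rw [LinearEquiv.symm_apply_eq]
        rfl
      change ψ (E.symm ⟨j a, ⟨a, rfl⟩⟩) = ψ a
      rw [h3]
    rw [← h2]
    exact h
  · rw [hgn]
    exact LinearMap.mkContinuous_norm_le _ (by positivity) _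

lemma step_extension {Z A B : Type*} [NormedAddCommGroup Z] [NormedSpace 𝕜 Z]
    [NormedAddCommGroup A] [NormedSpace 𝕜 A]
    [NormedAddCommGroup B] [NormedSpace 𝕜 B] (j : A →L[𝕜] B) (c : ℝ) (hc : 0 ≤ c)
    (hj : ∀ x, ‖x‖ ≤ c * ‖j x‖) (u : A →L[𝕜] (Z →L[𝕜] 𝕜)) (lam : ℝ)
    (G : Submodule 𝕜 Z) (n : ℕ) (e : G ≃L[𝕜] PiLp 1 (fun _ : Fin n => 𝕜))
    (he : ‖(e : G →L[𝕜] PiLp 1 (fun _ : Fin n => 𝕜))‖ *
      ‖(e.symm : PiLp 1 (fun _ : Fin n => 𝕜) →L[𝕜] G)‖ ≤ lam) :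
    ∃ w : B →ₗ[𝕜] G →ₗ[𝕜] 𝕜, (∀ b z, ‖w b z‖ ≤ (c * ‖u‖ * lam) * ‖b‖ * ‖z‖) ∧
      ∀ a z, w (j a) z = u a z := by
  classical
  let g : Fin n → G := fun i => e.symm (PiLp.single 1 i (1 : 𝕜))
  have hgn : ∀ i, ‖g i‖ ≤ ‖(e.symm : PiLp 1 (fun _ : Fin n => 𝕜) →L[𝕜] G)‖ := by
    intro i
    have h := (e.symm : PiLp 1 (fun _ : Fin n => 𝕜) →L[𝕜] G).le_opNorm (PiLp.single 1 i (1 : 𝕜))
    have h1 : ‖(PiLp.single 1 i (1 : 𝕜) : PiLp 1 (fun _ : Fin n => 𝕜))‖ = 1 := by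
      rw [PiLp.norm_single]; simp
    rw [h1, mul_one] at h
    exact h
  have hpsi : ∀ i, ∃ φ : B →L[𝕜] 𝕜, (∀ a, φ (j a) = u a (g i)) ∧
      ‖φ‖ ≤ c * (‖u‖ * ‖(e.symm : PiLp 1 (fun _ : Fin n => 𝕜) →L[𝕜] G)‖) := by
    intro i
    let ψ : A →L[𝕜] 𝕜 := (ContinuousLinearMap.apply 𝕜 𝕜 (g i : Z)).comp u
    obtain ⟨φ, h1, h2⟩ := ext_functional j c hc hj ψ
    refine ⟨φ, fun a => h1 a, h2.trans (mul_le_mul_of_nonneg_left ?_ hc)⟩
    refine ContinuousLinearMap.opNorm_le_bound _ (by positivity) (fun a => ?_)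
    calc ‖ψ a‖ = ‖u a (g i)‖ := rfl
      _ ≤ ‖u a‖ * ‖(g i : Z)‖ := (u a).le_opNorm _
      _ ≤ (‖u‖ * ‖a‖) * ‖(e.symm : PiLp 1 (fun _ : Fin n => 𝕜) →L[𝕜] G)‖ := by
          refine mul_le_mul (u.le_opNorm a) ?_ (norm_nonneg _) (by positivity)
          exact hgn i
      _ = _ := by ring
  choose φ hφ hφn using hpsi
  refine ⟨LinearMap.mk₂ 𝕜 (fun b z => ∑ i, φ i b * (e z) i) ?_ ?_ ?_ ?_, ?_, ?_⟩
  · intro b b' z
    rw [← Finset.sum_add_distrib]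
    exact Finset.sum_congr rfl (fun i _ => by rw [map_add]; ring)
  · intro t b z
    rw [Finset.smul_sum]
    exact Finset.sum_congr rfl (fun i _ => by rw [map_smul]; simp [mul_assoc])
  · intro b z z'
    rw [← Finset.sum_add_distrib]
    exact Finset.sum_congr rfl (fun i _ => by rw [map_add, PiLp.add_apply]; ring)
  · intro t b z
    rw [Finset.smul_sum]
    exact Finset.sum_congr rfl (fun i _ => by rw [map_smul, PiLp.smul_apply]; simp; ring)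
  · intro b z
    rw [LinearMap.mk₂_apply]
    have hK : 0 ≤ c * (‖u‖ * ‖(e.symm : PiLp 1 (fun _ : Fin n => 𝕜) →L[𝕜] G)‖) := by positivity
    calc ‖∑ i, φ i b * (e z) i‖ ≤ ∑ i, ‖φ i b * (e z) i‖ := norm_sum_le _ _
      _ ≤ ∑ i, (c * (‖u‖ * ‖(e.symm : PiLp 1 (fun _ : Fin n => 𝕜) →L[𝕜] G)‖) * ‖b‖) *
            ‖(e z) i‖ := by
          refine Finset.sum_le_sum (fun i _ => ?_)
          rw [norm_mul]
          refine mul_le_mul_of_nonneg_right ?_ (norm_nonneg _)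
          exact ((φ i).le_opNorm b).trans (mul_le_mul_of_nonneg_right (hφn i) (norm_nonneg _))
      _ = (c * (‖u‖ * ‖(e.symm : PiLp 1 (fun _ : Fin n => 𝕜) →L[𝕜] G)‖) * ‖b‖) *
            ‖e z‖ := by
          rw [← Finset.mul_sum, PiLp.norm_eq_of_L1]
      _ ≤ (c * (‖u‖ * ‖(e.symm : PiLp 1 (fun _ : Fin n => 𝕜) →L[𝕜] G)‖) * ‖b‖) *
            (‖(e : G →L[𝕜] PiLp 1 (fun _ : Fin n => 𝕜))‖ * ‖z‖) := by
          refine mul_le_mul_of_nonneg_left ?_ (by positivity)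
          exact (e : G →L[𝕜] PiLp 1 (fun _ : Fin n => 𝕜)).le_opNorm z
      _ = (c * ‖u‖ * ‖b‖ * ‖z‖) * (‖(e : G →L[𝕜] PiLp 1 (fun _ : Fin n => 𝕜))‖ *
            ‖(e.symm : PiLp 1 (fun _ : Fin n => 𝕜) →L[𝕜] G)‖) := by ring
      _ ≤ (c * ‖u‖ * ‖b‖ * ‖z‖) * lam := mul_le_mul_of_nonneg_left he (by positivity)
      _ = _ := by ring
  · intro a z
    rw [LinearMap.mk₂_apply]
    have hz : z = ∑ i, (e z) i • g i := by
      apply e.injective
      rw [map_sum]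
      simp only [map_smul, g, ContinuousLinearEquiv.apply_symm_apply]
      ext k
      simp [Pi.single_apply]
    conv_rhs => rw [hz]
    rw [Submodule.coe_sum, map_sum]
    refine Finset.sum_congr rfl (fun i _ => ?_)
    rw [hφ, Submodule.coe_smul, map_smul, smul_eq_mul, mul_comm]

theorem dual_injective (Z : Ban 𝕜) (hZ : IsL1SpaceP Z) (A B : Ban 𝕜) (j : A →L[𝕜] B)
    (c : ℝ) (hj : ∀ x, ‖x‖ ≤ c * ‖j x‖) (u : A →L[𝕜] (Z →L[𝕜] 𝕜)) :
    ∃ v : B →L[𝕜] (Z →L[𝕜] 𝕜), ∀ x, v (j x) = u x := by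
  classical
  obtain ⟨lam, hlam⟩ := hZ
  have hj' : ∀ x, ‖x‖ ≤ |c| * ‖j x‖ := fun x =>
    (hj x).trans (mul_le_mul_of_nonneg_right (le_abs_self c) (norm_nonneg _))
  have hloc : ∀ s : Finset Z, ∃ G : Submodule 𝕜 Z, (s : Set Z) ⊆ G ∧
      ∃ w : B →ₗ[𝕜] G →ₗ[𝕜] 𝕜, (∀ b z, ‖w b z‖ ≤ (|c| * ‖u‖ * lam) * ‖b‖ * ‖z‖) ∧
      ∀ a z, w (j a) z = u a z := by
    intro s
    obtain ⟨G, hG, -, e, he⟩ := hlam (Submodule.span 𝕜 (s : Set Z))
      (FiniteDimensional.span_finset 𝕜 s)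
    exact ⟨G, Submodule.span_le.mp hG, step_extension j |c| (abs_nonneg c) hj' u lam G _ e he⟩
  choose G hG w hw hwu using hloc
  let M : ℝ := max (|c| * ‖u‖ * lam) 0
  have hM : 0 ≤ M := le_max_right _ _
  let W : Finset Z → B → Z → 𝕜 := fun s b z => if h : z ∈ G s then w s b ⟨z, h⟩ else 0
  have hW : ∀ s b z, ‖W s b z‖ ≤ M * ‖b‖ * ‖z‖ := by
    intro s b z
    by_cases h : z ∈ G s
    · simp only [W, h, dite_true]
      refine (hw s b ⟨z, h⟩).trans ?_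
      refine mul_le_mul_of_nonneg_right (mul_le_mul_of_nonneg_right (le_max_left _ _)
        (norm_nonneg _)) (norm_nonneg _)
    · simp only [W, h, dite_false, norm_zero]
      positivity
  let U : Ultrafilter (Finset Z) := Ultrafilter.of atTop
  have hU : (U : Filter (Finset Z)) ≤ atTop := Ultrafilter.of_le _
  have hlim : ∀ b z, ∃ l : 𝕜, Tendsto (fun s => W s b z) U (𝓝 l) := by
    intro b z
    have hc : IsCompact (Metric.closedBall (0 : 𝕜) (M * ‖b‖ * ‖z‖)) := isCompact_closedBall _ _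
    obtain ⟨l, -, hl⟩ := hc.ultrafilter_le_nhds (U.map (fun s => W s b z)) (by
      rw [Filter.le_principal_iff]
      refine Filter.mem_map.mpr ?_
      exact Filter.Eventually.of_forall (fun s => by
        simpa [Metric.mem_closedBall, dist_zero_right] using hW s b z))
    exact ⟨l, hl⟩
  choose L hL using hlim
  have hev : ∀ z, ∀ᶠ s in (U : Filter (Finset Z)), z ∈ G s := by
    intro z
    refine hU ?_
    filter_upwards [Filter.eventually_ge_atTop ({z} : Finset Z)] with s hs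
    exact hG s (by exact_mod_cast hs (Finset.mem_singleton_self z))
  have huniq : ∀ {f : Finset Z → 𝕜} {a b : 𝕜}, Tendsto f U (𝓝 a) → Tendsto f U (𝓝 b) → a = b :=
    fun ha hb => tendsto_nhds_unique ha hb
  let V0 : B →ₗ[𝕜] Z →ₗ[𝕜] 𝕜 := LinearMap.mk₂ 𝕜 L
    (by
      intro b b' z
      refine huniq (hL (b + b') z) (((hL b z).add (hL b' z)).congr' ?_)
      filter_upwards [hev z] with s hs
      simp [W, hs])
    (by
      intro t b z
      refine huniq (hL (t • b) z) (((hL b z).const_smul t).congr' ?_)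
      filter_upwards [hev z] with s hs
      simp [W, hs])
    (by
      intro b z z'
      refine huniq (hL b (z + z')) (((hL b z).add (hL b z')).congr' ?_)
      filter_upwards [hev z, hev z'] with s hs hs'
      have hs'' : z + z' ∈ G s := add_mem hs hs'
      simp only [W, hs, hs', hs'', dite_true]
      rw [← map_add]
      rfl)
    (by
      intro t b z
      refine huniq (hL b (t • z)) (((hL b z).const_smul t).congr' ?_)
      filter_upwards [hev z] with s hs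
      have hs'' : t • z ∈ G s := Submodule.smul_mem _ t hs
      simp only [W, hs, hs'', dite_true]
      rw [← map_smul]
      rfl)
  have hV0 : ∀ b z, ‖V0 b z‖ ≤ M * ‖b‖ * ‖z‖ := by
    intro b z
    rw [LinearMap.mk₂_apply]
    exact le_of_tendsto (hL b z).norm (Filter.Eventually.of_forall (fun s => hW s b z))
  refine ⟨LinearMap.mkContinuous₂ V0 M hV0, fun a => ?_⟩
  ext z
  rw [LinearMap.mkContinuous₂_apply, LinearMap.mk₂_apply]
  refine huniq (hL (j a) z) ?_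
  refine (tendsto_const_nhds).congr' ?_
  filter_upwards [hev z] with s hs
  simp only [W, hs, dite_true]
  rw [hwu]

end Pool.Agent.Lib_helper54.FD
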