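import Pool.Agent.Lib_helper54.FD.Tech

set_option autoImplicit false

/-! `ℓ¹(S)`, `L¹(μ)` and products are `𝓛₁`-spaces. (Proofs by helper29.) -/

namespace Pool.Agent.Lib_helper54.FD

open Filter Topology MeasureTheory

variable {𝕜 : Type} [RCLike 𝕜]

/-- `F` lies in the range of a good embedding of some finite-dimensional `ℓ₁`. -/
def GoodCover (𝕜 : Type) [RCLike 𝕜] (E : Type) [NormedAddCommGroup E] [NormedSpace 𝕜 E] (lam : ℝ)
    (F : Submodule 𝕜 E) : Prop :=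
  ∃ (I : Type) (_ : Fintype I) (ι : (I → 𝕜) →ₗ[𝕜] E),
    (∀ c, ‖ι c‖ ≤ ∑ i, ‖c i‖) ∧ (∀ c, ∑ i, ‖c i‖ ≤ lam * ‖ι c‖) ∧ F ≤ LinearMap.range ι

lemma good_of_equiv {E : Type} [NormedAddCommGroup E] [NormedSpace 𝕜 E] (lam : ℝ)
    (F G : Submodule 𝕜 E) (hFG : F ≤ G) (n : ℕ) (e : G ≃L[𝕜] PiLp 1 (fun _ : Fin n => 𝕜))
    (he : ‖(e : G →L[𝕜] PiLp 1 (fun _ : Fin n => 𝕜))‖ *
      ‖(e.symm : PiLp 1 (fun _ : Fin n => 𝕜) →L[𝕜] G)‖ ≤ lam) : GoodCover 𝕜 E lam F := by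
  classical
  rcases eq_or_lt_of_le (norm_nonneg (e.symm : PiLp 1 (fun _ : Fin n => 𝕜) →L[𝕜] G)) with h0 | h0
  · refine ⟨PEmpty, inferInstance, 0, fun c => by simp, fun c => by simp, ?_⟩
    intro z hz
    have h1 := (e.symm : PiLp 1 (fun _ : Fin n => 𝕜) →L[𝕜] G).le_opNorm (e ⟨z, hFG hz⟩)
    rw [← h0, zero_mul] at h1
    have h2 : ‖(⟨z, hFG hz⟩ : G)‖ ≤ 0 := by
      have h3 : (e.symm : PiLp 1 (fun _ : Fin n => 𝕜) →L[𝕜] G) (e ⟨z, hFG hz⟩) = ⟨z, hFG hz⟩ :=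
        e.symm_apply_apply _
      rw [h3] at h1
      exact h1
    have h4 : (⟨z, hFG hz⟩ : G) = 0 := norm_le_zero_iff.mp h2
    have h5 : z = 0 := congrArg Subtype.val h4
    rw [h5]
    exact Submodule.zero_mem _
  · set b := ‖(e.symm : PiLp 1 (fun _ : Fin n => 𝕜) →L[𝕜] G)‖ with hb
    let L : (Fin n → 𝕜) ≃ₗ[𝕜] PiLp 1 (fun _ : Fin n => 𝕜) :=
      (WithLp.linearEquiv 1 𝕜 (Fin n → 𝕜)).symm
    have hLn : ∀ c : Fin n → 𝕜, ‖L c‖ = ∑ i, ‖c i‖ := fun c => by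
      rw [PiLp.norm_eq_of_L1]; rfl
    refine ⟨Fin n, inferInstance, ((b : 𝕜)⁻¹) •
      (G.subtype ∘ₗ (e.symm : PiLp 1 (fun _ : Fin n => 𝕜) →ₗ[𝕜] G) ∘ₗ L.toLinearMap), ?_, ?_, ?_⟩
    · intro c
      have h1 := (e.symm : PiLp 1 (fun _ : Fin n => 𝕜) →L[𝕜] G).le_opNorm (L c)
      rw [← hb] at h1
      calc ‖_‖ = b⁻¹ * ‖e.symm (L c)‖ := by
            rw [LinearMap.smul_apply, norm_smul, norm_inv, RCLike.norm_ofReal, abs_of_pos h0]
            rfl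
        _ ≤ b⁻¹ * (b * ‖L c‖) := mul_le_mul_of_nonneg_left h1 (by positivity)
        _ = ‖L c‖ := by rw [← mul_assoc, inv_mul_cancel₀ h0.ne', one_mul]
        _ = _ := hLn c
    · intro c
      have h1 := (e : G →L[𝕜] PiLp 1 (fun _ : Fin n => 𝕜)).le_opNorm (e.symm (L c))
      have h2 : (e : G →L[𝕜] PiLp 1 (fun _ : Fin n => 𝕜)) (e.symm (L c)) = L c :=
        e.apply_symm_apply _
      rw [h2] at h1
      have h3 : ‖((b : 𝕜)⁻¹ • (G.subtype ∘ₗ (e.symm : PiLp 1 (fun _ : Fin n => 𝕜) →ₗ[𝕜] G) ∘ₗ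
          L.toLinearMap)) c‖ = b⁻¹ * ‖e.symm (L c)‖ := by
        rw [LinearMap.smul_apply, norm_smul, norm_inv, RCLike.norm_ofReal, abs_of_pos h0]
        rfl
      rw [h3, ← hLn c]
      calc ‖L c‖ ≤ _ := h1
        _ = (‖(e : G →L[𝕜] PiLp 1 (fun _ : Fin n => 𝕜))‖ * b) * (b⁻¹ * ‖e.symm (L c)‖) := by
            field_simp
        _ ≤ lam * (b⁻¹ * ‖e.symm (L c)‖) := mul_le_mul_of_nonneg_right he (by positivity)
    · intro z hz
      refine ⟨(b : 𝕜) • L.symm (e ⟨z, hFG hz⟩), ?_⟩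
      have hb0 : (b : 𝕜) ≠ 0 := by exact_mod_cast h0.ne'
      rw [map_smul, LinearMap.smul_apply, smul_smul, mul_inv_cancel₀ hb0, one_smul]
      simp

lemma equiv_of_good {E : Type} [NormedAddCommGroup E] [NormedSpace 𝕜 E] (lam : ℝ)
    (I : Type) [Fintype I] (ι : (I → 𝕜) →ₗ[𝕜] E)
    (h1 : ∀ c, ‖ι c‖ ≤ ∑ i, ‖c i‖) (h2 : ∀ c, ∑ i, ‖c i‖ ≤ lam * ‖ι c‖) (n : ℕ)
    (hn : Module.finrank 𝕜 (LinearMap.range ι) = n) :
    ∃ e : LinearMap.range ι ≃L[𝕜] PiLp 1 (fun _ : Fin n => 𝕜),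
      ‖(e : LinearMap.range ι →L[𝕜] PiLp 1 (fun _ : Fin n => 𝕜))‖ *
      ‖(e.symm : PiLp 1 (fun _ : Fin n => 𝕜) →L[𝕜] LinearMap.range ι)‖ ≤ |lam| := by
  classical
  have hinj : Function.Injective ι := by
    rw [injective_iff_map_eq_zero]
    intro c hc
    have h := h2 c
    rw [hc, norm_zero, mul_zero] at h
    ext i
    have h3 : ‖c i‖ ≤ 0 := (Finset.single_le_sum (fun j _ => norm_nonneg (c j))
      (Finset.mem_univ i)).trans h
    simpa using h3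
  have hcard : Fintype.card I = n := by
    rw [← hn, LinearMap.finrank_range_of_inj hinj, Module.finrank_fintype_fun_eq_card]
  let σ : Fin n ≃ I := (finCongr hcard.symm).trans (Fintype.equivFin I).symm
  let L : PiLp 1 (fun _ : Fin n => 𝕜) ≃ₗ[𝕜] (I → 𝕜) :=
    (WithLp.linearEquiv 1 𝕜 (Fin n → 𝕜)).trans (LinearEquiv.funCongrLeft 𝕜 𝕜 σ.symm)
  have hLn : ∀ x : PiLp 1 (fun _ : Fin n => 𝕜), ‖x‖ = ∑ i, ‖L x i‖ := by
    intro x
    rw [PiLp.norm_eq_of_L1]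
    exact (Fintype.sum_equiv σ.symm _ _ (fun i => rfl)).symm
  let E0 : PiLp 1 (fun _ : Fin n => 𝕜) ≃ₗ[𝕜] LinearMap.range ι :=
    L.trans (LinearEquiv.ofInjective ι hinj)
  have hE0 : ∀ x, ((E0 x : LinearMap.range ι) : E) = ι (L x) := fun x => rfl
  let e := E0.symm.toContinuousLinearEquiv
  refine ⟨e, ?_⟩
  have ha : ‖(e : LinearMap.range ι →L[𝕜] PiLp 1 (fun _ : Fin n => 𝕜))‖ ≤ |lam| := by
    refine ContinuousLinearMap.opNorm_le_bound _ (abs_nonneg _) (fun z => ?_)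
    have h3 : E0 (e z) = z := E0.apply_symm_apply z
    have h4 : ι (L (e z)) = z := by rw [← hE0, h3]
    have h5 := h2 (L (e z))
    rw [h4, ← hLn] at h5
    exact h5.trans (mul_le_mul_of_nonneg_right (le_abs_self _) (norm_nonneg _))
  have hb : ‖(e.symm : PiLp 1 (fun _ : Fin n => 𝕜) →L[𝕜] LinearMap.range ι)‖ ≤ 1 := by
    refine ContinuousLinearMap.opNorm_le_bound _ zero_le_one (fun x => ?_)
    rw [one_mul, hLn]
    exact h1 (L x)
  calc _ ≤ |lam| * 1 := mul_le_mul ha hb (norm_nonneg _) (abs_nonneg _)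
    _ = |lam| := mul_one _

theorem isL1Space_iff (E : Ban 𝕜) :
    IsL1SpaceP E ↔ ∃ lam : ℝ, ∀ F : Submodule 𝕜 E, FiniteDimensional 𝕜 F →
      GoodCover 𝕜 E lam F := by
  constructor
  · rintro ⟨lam, h⟩
    refine ⟨lam, fun F hF => ?_⟩
    obtain ⟨G, hFG, -, e, he⟩ := h F hF
    exact good_of_equiv lam F G hFG _ e he
  · rintro ⟨lam, h⟩
    refine ⟨|lam|, fun F hF => ?_⟩
    obtain ⟨I, _, ι, h1, h2, h3⟩ := h F hF
    obtain ⟨e, he⟩ := equiv_of_good lam I ι h1 h2 _ rfl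
    exact ⟨LinearMap.range ι, h3, inferInstance, e, he⟩

theorem isL1Space_congr (E F : Ban 𝕜) (e : E ≃L[𝕜] F) (hE : IsL1SpaceP E) : IsL1SpaceP F := by
  rw [isL1Space_iff] at hE ⊢
  obtain ⟨lam, h⟩ := hE
  set a := ‖(e : E →L[𝕜] F)‖ with ha
  set b := ‖(e.symm : F →L[𝕜] E)‖ with hb
  refine ⟨|lam| * b * (a + 1), fun V hV => ?_⟩
  obtain ⟨I, _, ι, h1, h2, h3⟩ := h (V.map (e.symm : F →ₗ[𝕜] E)) inferInstance
  have ha0 : 0 ≤ a := norm_nonneg _
  have hb0 : 0 ≤ b := norm_nonneg _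
  have hpos : 0 < a + 1 := by positivity
  have key : ∀ c, ‖(((a + 1 : ℝ) : 𝕜)⁻¹ • ((e : E →ₗ[𝕜] F) ∘ₗ ι)) c‖ = (a + 1)⁻¹ * ‖e (ι c)‖ := by
    intro c
    rw [LinearMap.smul_apply, norm_smul, norm_inv, RCLike.norm_ofReal, abs_of_pos hpos]
    rfl
  refine ⟨I, inferInstance, ((a + 1 : ℝ) : 𝕜)⁻¹ • ((e : E →ₗ[𝕜] F) ∘ₗ ι), ?_, ?_, ?_⟩
  · intro c
    rw [key]
    have h4 : ‖e (ι c)‖ ≤ a * ‖ι c‖ := (e : E →L[𝕜] F).le_opNorm _
    calc (a + 1)⁻¹ * ‖e (ι c)‖ ≤ (a + 1)⁻¹ * ((a + 1) * ‖ι c‖) := by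
          refine mul_le_mul_of_nonneg_left (h4.trans ?_) (by positivity)
          exact mul_le_mul_of_nonneg_right (by linarith) (norm_nonneg _)
      _ = ‖ι c‖ := by rw [← mul_assoc, inv_mul_cancel₀ hpos.ne', one_mul]
      _ ≤ _ := h1 c
  · intro c
    rw [key]
    have h4 : ‖ι c‖ ≤ b * ‖e (ι c)‖ := by
      have := (e.symm : F →L[𝕜] E).le_opNorm (e (ι c))
      have h5 : (e.symm : F →L[𝕜] E) (e (ι c)) = ι c := e.symm_apply_apply _
      rwa [h5] at this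
    calc ∑ i, ‖c i‖ ≤ lam * ‖ι c‖ := h2 c
      _ ≤ |lam| * ‖ι c‖ := mul_le_mul_of_nonneg_right (le_abs_self _) (norm_nonneg _)
      _ ≤ |lam| * (b * ‖e (ι c)‖) := mul_le_mul_of_nonneg_left h4 (abs_nonneg _)
      _ = |lam| * b * (a + 1) * ((a + 1)⁻¹ * ‖e (ι c)‖) := by field_simp
  · intro z hz
    obtain ⟨c, hc⟩ := h3 (Submodule.mem_map_of_mem hz)
    refine ⟨((a + 1 : ℝ) : 𝕜) • c, ?_⟩
    have hne : ((a + 1 : ℝ) : 𝕜) ≠ 0 := by exact_mod_cast hpos.ne'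
    rw [map_smul, LinearMap.smul_apply, smul_smul, mul_inv_cancel₀ hne, one_smul,
      LinearMap.comp_apply, hc]
    simp

theorem isL1Space_prod (E F : Ban 𝕜) (hE : IsL1SpaceP E) (hF : IsL1SpaceP F) :
    IsL1SpaceP (⟨E × F⟩ : Ban 𝕜) := by
  rw [isL1Space_iff] at hE hF ⊢
  obtain ⟨lam, h⟩ := hE
  obtain ⟨mu, h'⟩ := hF
  refine ⟨|lam| + |mu|, fun V hV => ?_⟩
  change Submodule 𝕜 (E × F) at V
  have hV1 : FiniteDimensional 𝕜 (V.map (LinearMap.fst 𝕜 E F)) := by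
    have : FiniteDimensional 𝕜 V := hV
    infer_instance
  have hV2 : FiniteDimensional 𝕜 (V.map (LinearMap.snd 𝕜 E F)) := by
    have : FiniteDimensional 𝕜 V := hV
    infer_instance
  obtain ⟨I, _, ι, h1, h2, h3⟩ := h _ hV1
  obtain ⟨J, _, κ, k1, k2, k3⟩ := h' _ hV2
  let Φ : (I ⊕ J → 𝕜) →ₗ[𝕜] E × F :=
    (ι ∘ₗ LinearMap.funLeft 𝕜 𝕜 Sum.inl).prod (κ ∘ₗ LinearMap.funLeft 𝕜 𝕜 Sum.inr)
  have hΦ : ∀ c, Φ c = (ι (fun i => c (Sum.inl i)), κ (fun j => c (Sum.inr j))) := fun c => rfl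
  refine ⟨I ⊕ J, inferInstance, Φ, ?_, ?_, ?_⟩
  · intro c
    rw [Fintype.sum_sum_type]
    change ‖Φ c‖ ≤ _
    rw [hΦ, Prod.norm_def]
    refine max_le ?_ ?_
    · exact (h1 _).trans (le_add_of_nonneg_right (Finset.sum_nonneg (fun _ _ => norm_nonneg _)))
    · exact (k1 _).trans (le_add_of_nonneg_left (Finset.sum_nonneg (fun _ _ => norm_nonneg _)))
  · intro c
    rw [Fintype.sum_sum_type, add_mul]
    change _ ≤ |lam| * ‖Φ c‖ + |mu| * ‖Φ c‖
    rw [hΦ, Prod.norm_def]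
    refine add_le_add ?_ ?_
    · refine (h2 (fun i => c (Sum.inl i))).trans ?_
      exact mul_le_mul (le_abs_self _) (le_max_left _ _) (norm_nonneg _) (abs_nonneg _)
    · refine (k2 (fun i => c (Sum.inr i))).trans ?_
      exact mul_le_mul (le_abs_self _) (le_max_right _ _) (norm_nonneg _) (abs_nonneg _)
  · intro z hz
    obtain ⟨c, hc⟩ := h3 (Submodule.mem_map_of_mem (f := LinearMap.fst 𝕜 E F) hz)
    obtain ⟨d, hd⟩ := k3 (Submodule.mem_map_of_mem (f := LinearMap.snd 𝕜 E F) hz)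
    refine ⟨Sum.elim c d, ?_⟩
    rw [hΦ]
    simp only [Sum.elim_inl, Sum.elim_inr]
    rw [hc, hd]
    rfl

/-- Perturbation: it suffices to approximate finite families by good embeddings of `ℓ₁ⁿ`. -/
theorem isL1Space_of_approx (E : Ban 𝕜) (lam : ℝ)
    (h : ∀ (k : ℕ) (x : Fin k → E) (ε : ℝ), 0 < ε → ∃ (I : Type) (_ : Fintype I)
      (ι : (I → 𝕜) →ₗ[𝕜] E), (∀ c, ‖ι c‖ ≤ ∑ i, ‖c i‖) ∧ (∀ c, ∑ i, ‖c i‖ ≤ lam * ‖ι c‖) ∧
      ∃ y : Fin k → (I → 𝕜), ∀ m, ‖x m - ι (y m)‖ ≤ ε) : IsL1SpaceP E := by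
  rw [isL1Space_iff]
  refine ⟨3 * |lam|, fun F hF => ?_⟩
  let b := Module.finBasis 𝕜 F
  have hφ : ∀ m, ∃ φ : E →L[𝕜] 𝕜, ∀ z : F, φ z = b.coord m z := by
    intro m
    obtain ⟨g, hg, -⟩ := exists_extension_norm_eq F (LinearMap.toContinuousLinearMap (b.coord m))
    exact ⟨g, fun z => hg z⟩
  choose φ hφ using hφ
  set C : ℝ := ∑ m, ‖φ m‖ + 1 with hC
  have hC0 : 0 < C := by positivity
  obtain ⟨I, _, ι, h1, h2, y, hy⟩ := h _ (fun m => (b m : E)) (1 / (2 * C)) (by positivity)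
  let P : E →L[𝕜] E := ∑ m, (φ m).smulRight (ι (y m) - (b m : E))
  have hPapp : ∀ z, P z = ∑ m, φ m z • (ι (y m) - (b m : E)) := by
    intro z
    simp only [P, sum_apply, ContinuousLinearMap.smulRight_apply]
  have hP : ‖P‖ ≤ 1 / 2 := by
    calc ‖P‖ ≤ ∑ m, ‖(φ m).smulRight (ι (y m) - (b m : E))‖ := norm_sum_le _ _
      _ ≤ ∑ m, ‖φ m‖ * (1 / (2 * C)) := by
          refine Finset.sum_le_sum (fun m _ => ?_)
          rw [ContinuousLinearMap.norm_smulRight_apply, norm_sub_rev]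
          exact mul_le_mul_of_nonneg_left (hy m) (norm_nonneg _)
      _ = (∑ m, ‖φ m‖) * (1 / (2 * C)) := by rw [Finset.sum_mul]
      _ ≤ C * (1 / (2 * C)) := mul_le_mul_of_nonneg_right (by linarith) (by positivity)
      _ = 1 / 2 := by field_simp
  have hP1 : ‖-P‖ < 1 := by rw [norm_neg]; linarith
  let T : (E →L[𝕜] E)ˣ := Units.oneSub (-P) hP1
  have hT : ∀ z, (T : E →L[𝕜] E) z = z + P z := by
    intro z
    rw [Units.val_oneSub]
    simp
  let S : E →L[𝕜] E := ((T⁻¹ : (E →L[𝕜] E)ˣ) : E →L[𝕜] E)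
  have hTS : ∀ z, (T : E →L[𝕜] E) (S z) = z := by
    intro z
    have := T.mul_inv
    exact congrArg (fun A : E →L[𝕜] E => A z) this
  have hST : ∀ z, S ((T : E →L[𝕜] E) z) = z := by
    intro z
    have := T.inv_mul
    exact congrArg (fun A : E →L[𝕜] E => A z) this
  have hPz : ∀ z, ‖P z‖ ≤ (1 / 2) * ‖z‖ := fun z =>
    (P.le_opNorm z).trans (mul_le_mul_of_nonneg_right hP (norm_nonneg _))
  have hS2 : ∀ z, ‖S z‖ ≤ 2 * ‖z‖ := by
    intro z
    have h3 := hTS z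
    rw [hT] at h3
    have h4 : ‖S z‖ ≤ ‖z‖ + ‖P (S z)‖ := by
      calc ‖S z‖ = ‖z - P (S z)‖ := congrArg norm (eq_sub_of_add_eq h3)
        _ ≤ _ := norm_sub_le _ _
    have h5 := hPz (S z)
    linarith
  have hS3 : ∀ z, ‖z‖ ≤ (3 / 2) * ‖S z‖ := by
    intro z
    have h3 := hTS z
    rw [hT] at h3
    have h4 : ‖z‖ ≤ ‖S z‖ + ‖P (S z)‖ := by
      calc ‖z‖ = ‖S z + P (S z)‖ := by rw [h3]
        _ ≤ _ := norm_add_le _ _
    have h5 := hPz (S z)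
    linarith
  have key : ∀ c, ‖(((2 : ℝ) : 𝕜)⁻¹ • ((S : E →ₗ[𝕜] E) ∘ₗ ι)) c‖ = 2⁻¹ * ‖S (ι c)‖ := by
    intro c
    rw [LinearMap.smul_apply, norm_smul, norm_inv, RCLike.norm_ofReal, abs_of_pos (by norm_num)]
    rfl
  refine ⟨I, inferInstance, ((2 : ℝ) : 𝕜)⁻¹ • ((S : E →ₗ[𝕜] E) ∘ₗ ι), ?_, ?_, ?_⟩
  · intro c
    rw [key]
    have := hS2 (ι c)
    have := h1 c
    linarith
  · intro c
    rw [key]
    have h3 := hS3 (ι c)
    calc ∑ i, ‖c i‖ ≤ lam * ‖ι c‖ := h2 c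
      _ ≤ |lam| * ‖ι c‖ := mul_le_mul_of_nonneg_right (le_abs_self _) (norm_nonneg _)
      _ ≤ |lam| * ((3 / 2) * ‖S (ι c)‖) := mul_le_mul_of_nonneg_left h3 (abs_nonneg _)
      _ = 3 * |lam| * (2⁻¹ * ‖S (ι c)‖) := by ring
  · have hmem : ∀ m, (b m : E) ∈ LinearMap.range (((2 : ℝ) : 𝕜)⁻¹ • ((S : E →ₗ[𝕜] E) ∘ₗ ι)) := by
      intro m
      refine ⟨((2 : ℝ) : 𝕜) • y m, ?_⟩
      have hne : ((2 : ℝ) : 𝕜) ≠ 0 := by exact_mod_cast (two_ne_zero : (2 : ℝ) ≠ 0)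
      rw [map_smul, LinearMap.smul_apply, smul_smul, mul_inv_cancel₀ hne, one_smul]
      change S (ι (y m)) = b m
      have h3 : (T : E →L[𝕜] E) (b m : E) = ι (y m) := by
        rw [hT, hPapp, Finset.sum_eq_single m]
        · rw [hφ m (b m)]
          simp
        · intro l _ hl
          rw [hφ l (b m)]
          simp [hl.symm]
        · simp
      rw [← h3, hST]
    intro z hz
    have h4 := congrArg Subtype.val (b.sum_repr ⟨z, hz⟩)
    simp only [Submodule.coe_sum, Submodule.coe_smul] at h4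
    rw [← h4]
    exact Submodule.sum_mem _ (fun m _ => Submodule.smul_mem _ _ (hmem m))

theorem isL1Space_ell1 (S : Type) : IsL1SpaceP (ell1 𝕜 S) := by
  classical
  refine isL1Space_of_approx (ell1 𝕜 S) 1 (fun k x ε hε => ?_)
  change Fin k → lp (fun _ : S => 𝕜) 1 at x
  have hev : ∀ᶠ s in (atTop : Filter (Finset S)), ∀ m,
      ‖x m - ∑ t ∈ s, lp.single 1 t (x m t)‖ ≤ ε := by
    rw [Filter.eventually_all]
    intro m
    have h1 : Tendsto (fun s : Finset S => ∑ t ∈ s, lp.single 1 t (x m t)) atTop (𝓝 (x m)) :=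
      lp.hasSum_single (by simp) (x m)
    have h2 := (Metric.tendsto_nhds.mp h1) ε hε
    filter_upwards [h2] with s hs
    rw [dist_comm, dist_eq_norm] at hs
    exact hs.le
  obtain ⟨s, hs⟩ := hev.exists
  let ι : (s → 𝕜) →ₗ[𝕜] lp (fun _ : S => 𝕜) 1 :=
    { toFun := fun c => ∑ t : s, lp.single 1 (t : S) (c t)
      map_add' := fun c d => by
        rw [← Finset.sum_add_distrib]
        exact Finset.sum_congr rfl (fun t _ => by rw [Pi.add_apply, lp.single_add])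
      map_smul' := fun r c => by
        rw [RingHom.id_apply, Finset.smul_sum]
        exact Finset.sum_congr rfl (fun t _ => by rw [Pi.smul_apply, lp.single_smul]) }
  have hι : ∀ c, ι c = ∑ t : s, lp.single 1 (t : S) (c t) := fun c => rfl
  have hn : ∀ c : s → 𝕜, ‖ι c‖ = ∑ i, ‖c i‖ := by
    intro c
    let f : S → 𝕜 := fun t => if h : t ∈ s then c ⟨t, h⟩ else 0
    have h1 := lp.norm_sum_single (p := 1) (E := fun _ : S => 𝕜) (by simp) f s
    simp only [ENNReal.toReal_one, Real.rpow_one] at h1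
    have h2 : ι c = ∑ t ∈ s, lp.single 1 t (f t) := by
      rw [hι, ← Finset.sum_coe_sort s]
      refine Finset.sum_congr rfl (fun t _ => ?_)
      simp [f]
    rw [h2, h1, ← Finset.sum_coe_sort s]
    exact Finset.sum_congr rfl (fun t _ => by simp [f])
  refine ⟨s, inferInstance, ι, fun c => (hn c).le, fun c => by rw [one_mul]; exact (hn c).ge,
    fun m t => x m t, fun m => ?_⟩
  have h3 : ι (fun t : s => x m t) = ∑ t ∈ s, lp.single 1 t (x m t) := by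
    rw [hι, ← Finset.sum_coe_sort s]
  change ‖x m - ι (fun t : s => x m t)‖ ≤ ε
  rw [h3]
  exact hs m


theorem isL1Space_L1 {Ω : Type} [MeasurableSpace Ω] (μ : MeasureTheory.Measure Ω)
    [MeasureTheory.IsProbabilityMeasure μ] :
    IsL1SpaceP (⟨MeasureTheory.Lp 𝕜 1 μ⟩ : Ban 𝕜) := by
  classical
  refine isL1Space_of_approx (⟨MeasureTheory.Lp 𝕜 1 μ⟩ : Ban 𝕜) 1 (fun k x ε hε => ?_)
  change Fin k → Lp 𝕜 1 μ at x
  have happ : ∀ m, ∃ f : Lp.simpleFunc 𝕜 1 μ, ‖x m - (f : Lp 𝕜 1 μ)‖ ≤ ε := by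
    intro m
    have hd := (Lp.simpleFunc.denseRange (E := 𝕜) (μ := μ) (p := 1) ENNReal.one_ne_top)
    obtain ⟨f, hf⟩ := hd.exists_dist_lt (x m) hε
    refine ⟨f, ?_⟩
    rw [← dist_eq_norm]
    exact hf.le
  choose f hf using happ
  -- the joint simple function
  let g : Fin k → SimpleFunc Ω 𝕜 := fun m => Lp.simpleFunc.toSimpleFunc (f m)
  have hg : ∀ m, g m =ᵐ[μ] (f m : Lp 𝕜 1 μ) := fun m => Lp.simpleFunc.toSimpleFunc_eq_toFun (f m)
  let Y : SimpleFunc Ω (Fin k → 𝕜) :=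
    { toFun := fun ω m => g m ω
      measurableSet_fiber' := by
        intro v
        have : (fun ω m => g m ω) ⁻¹' {v} = ⋂ m, (g m) ⁻¹' {v m} := by
          ext ω
          simp [funext_iff]
        rw [this]
        exact MeasurableSet.iInter (fun m => (g m).measurableSet_fiber _)
      finite_range' := by
        refine (Set.Finite.pi' (fun m => (g m).finite_range)).subset ?_
        rintro v ⟨ω, rfl⟩
        intro m
        exact ⟨ω, rfl⟩ }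
  have hY : ∀ ω m, Y ω m = g m ω := fun ω m => rfl
  let good : (Fin k → 𝕜) → Prop := fun v => v ∈ Y.range ∧ μ (Y ⁻¹' {v}) ≠ 0
  let I : Type := {v : Fin k → 𝕜 // good v}
  have hfin : Finite I := by
    refine Set.Finite.subset Y.range.finite_toSet ?_
    intro v hv
    exact hv.1
  have : Fintype I := Fintype.ofFinite I
  let w : (Fin k → 𝕜) → ℝ := fun v => μ.real (Y ⁻¹' {v})
  have hw : ∀ v : I, 0 < w v.1 := by
    intro v
    have := v.2.2
    exact (measureReal_nonneg).lt_of_ne' (by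
      rw [Ne, measureReal_eq_zero_iff]
      exact this)
  let F : (I → 𝕜) → (Fin k → 𝕜) → 𝕜 := fun c v =>
    if h : good v then c ⟨v, h⟩ * ((w v : ℝ) : 𝕜)⁻¹ else 0
  have hmem : ∀ c, MemLp (fun ω => F c (Y ω)) 1 μ := fun c =>
    (Y.map (F c)).memLp_of_isFiniteMeasure 1 μ
  let ι : (I → 𝕜) →ₗ[𝕜] Lp 𝕜 1 μ :=
    { toFun := fun c => (hmem c).toLp _
      map_add' := fun c d => by
        rw [← MemLp.toLp_add]
        refine MemLp.toLp_congr _ _ (Filter.Eventually.of_forall (fun ω => ?_))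
        by_cases h : good (Y ω)
        · simp only [F, h, dite_true, Pi.add_apply]; ring
        · simp only [F, h, dite_false, Pi.add_apply]; ring
      map_smul' := fun r c => by
        rw [RingHom.id_apply, ← MemLp.toLp_const_smul]
        refine MemLp.toLp_congr _ _ (Filter.Eventually.of_forall (fun ω => ?_))
        by_cases h : good (Y ω)
        · simp only [F, h, dite_true, Pi.smul_apply, smul_eq_mul]; ring
        · simp only [F, h, dite_false, Pi.smul_apply, smul_eq_mul]; ring }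
  have hι : ∀ c, ι c =ᵐ[μ] fun ω => F c (Y ω) := fun c => (hmem c).coeFn_toLp
  have hnorm : ∀ c, ‖ι c‖ = ∑ i, ‖c i‖ := by
    intro c
    rw [L1.norm_eq_integral_norm]
    have h1 : ∫ ω, ‖ι c ω‖ ∂μ = ∫ ω, ∑ v : I, (Y ⁻¹' {v.1}).indicator
        (fun _ => ‖c v‖ * (w v.1)⁻¹) ω ∂μ := by
      refine integral_congr_ae ?_
      filter_upwards [hι c] with ω hω
      rw [hω]
      by_cases h : good (Y ω)
      · rw [Finset.sum_eq_single (⟨Y ω, h⟩ : I)]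
        · simp only [F, h, dite_true]
          rw [Set.indicator_of_mem (by simp)]
          rw [norm_mul, norm_inv, RCLike.norm_ofReal, abs_of_nonneg (hw ⟨Y ω, h⟩).le]
        · intro v _ hv
          rw [Set.indicator_of_notMem]
          intro h2
          exact hv (Subtype.ext (by simpa using h2.symm))
        · simp
      · rw [Finset.sum_eq_zero]
        · simp only [F, h, dite_false, norm_zero]
        · intro v _
          rw [Set.indicator_of_notMem]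
          intro h2
          apply h
          have h3 : Y ω = v.1 := by simpa using h2
          rw [h3]
          exact v.2
    rw [h1, integral_finsetSum]
    · refine Finset.sum_congr rfl (fun v _ => ?_)
      rw [integral_indicator_const _ (Y.measurableSet_fiber _), smul_eq_mul]
      have := (hw v).ne'
      change w v.1 * (‖c v‖ * (w v.1)⁻¹) = ‖c v‖
      field_simp
    · intro v _
      exact (integrable_const _).indicator (Y.measurableSet_fiber _)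
  refine ⟨I, inferInstance, ι, fun c => (hnorm c).le, fun c => by rw [one_mul]; exact (hnorm c).ge,
    fun m v => v.1 m * ((w v.1 : ℝ) : 𝕜), fun m => ?_⟩
  have hbad : ∀ᵐ ω ∂μ, good (Y ω) := by
    have h1 : ∀ v ∈ Y.range, ¬ good v → μ (Y ⁻¹' {v}) = 0 := by
      intro v hv hn
      by_contra h2
      exact hn ⟨hv, h2⟩
    rw [ae_iff]
    have h2 : {ω | ¬ good (Y ω)} ⊆ ⋃ v ∈ (Y.range.filter (fun v => ¬ good v)), Y ⁻¹' {v} := by
      intro ω hω
      simp only [Set.mem_iUnion]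
      exact ⟨Y ω, by simpa using hω, rfl⟩
    refine measure_mono_null h2 ?_
    refine le_antisymm ((measure_biUnion_finset_le _ _).trans_eq (Finset.sum_eq_zero ?_)) bot_le
    intro v hv
    rw [Finset.mem_filter] at hv
    exact h1 v hv.1 hv.2
  have hιy : ι (fun v => v.1 m * ((w v.1 : ℝ) : 𝕜)) = (f m : Lp 𝕜 1 μ) := by
    apply Lp.ext
    filter_upwards [hι (fun v => v.1 m * ((w v.1 : ℝ) : 𝕜)), hg m, hbad] with ω h1 h2 h3
    rw [h1, ← h2]
    have h4 : ((w (Y ω) : ℝ) : 𝕜) ≠ 0 := by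
      exact_mod_cast (hw ⟨Y ω, h3⟩).ne'
    simp only [F, h3, dite_true]
    rw [mul_assoc, mul_inv_cancel₀ h4, mul_one, hY]
  change ‖x m - ι (fun v => v.1 m * ((w v.1 : ℝ) : 𝕜))‖ ≤ ε
  rw [hιy]
  exact hf m

end Pool.Agent.Lib_helper54.FD
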