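import Mathlib

set_option autoImplicit false

/-! (Proofs by helper77.) -/

/-!
# T3: `L¹[0,1]` is not a retract of any `ℓ¹(S)`
-/

namespace Pool.Agent.Lib_helper54.FD.T3

open MeasureTheory Finset
open scoped Real ComplexConjugate

variable {𝕜 : Type} [RCLike 𝕜]

theorem int_cos (k : ℤ) (hk : k ≠ 0) : ∫ x in (0 : ℝ)..1, Real.cos (2 * π * k * x) = 0 := by
  have hc : (2 * π * k : ℝ) ≠ 0 := by
    have : (k : ℝ) ≠ 0 := by exact_mod_cast hk
    positivity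
  rw [intervalIntegral.integral_comp_mul_left (fun x => Real.cos x) hc, integral_cos]
  have h1 : Real.sin (2 * π * k * 1) = 0 := by
    have := Real.sin_int_mul_pi (2 * k)
    rw [← this]; congr 1; push_cast; ring
  rw [h1]; simp

theorem int_cc (n m : ℕ) : ∫ x in (0 : ℝ)..1,
    Real.cos (2 * π * (n + 1) * x) * Real.cos (2 * π * (m + 1) * x)
      = if n = m then 1 / 2 else 0 := by
  have h1 : ∀ x : ℝ, Real.cos (2 * π * (n + 1) * x) * Real.cos (2 * π * (m + 1) * x)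
      = (1 / 2) * Real.cos (2 * π * ((n : ℤ) - (m : ℤ) : ℤ) * x)
        + (1 / 2) * Real.cos (2 * π * ((n : ℤ) + (m : ℤ) + 2 : ℤ) * x) := by
    intro x
    have e1 : (2 * π * ((n : ℤ) - (m : ℤ) : ℤ) * x : ℝ)
        = 2 * π * (n + 1) * x - 2 * π * (m + 1) * x := by push_cast; ring
    have e2 : (2 * π * ((n : ℤ) + (m : ℤ) + 2 : ℤ) * x : ℝ)
        = 2 * π * (n + 1) * x + 2 * π * (m + 1) * x := by push_cast; ring
    rw [e1, e2, Real.cos_sub, Real.cos_add]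
    ring
  rw [intervalIntegral.integral_congr (g := fun x =>
    (1 / 2) * Real.cos (2 * π * ((n : ℤ) - (m : ℤ) : ℤ) * x)
        + (1 / 2) * Real.cos (2 * π * ((n : ℤ) + (m : ℤ) + 2 : ℤ) * x)) (fun x _ => h1 x)]
  rw [intervalIntegral.integral_add, intervalIntegral.integral_const_mul,
    intervalIntegral.integral_const_mul, int_cos ((n : ℤ) + (m : ℤ) + 2) (by positivity)]
  · split_ifs with h
    · subst h
      simp
    · rw [int_cos ((n : ℤ) - (m : ℤ)) (by omega)]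
      simp
  · apply Continuous.intervalIntegrable; fun_prop
  · apply Continuous.intervalIntegrable; fun_prop

/-- The cosine functions. -/
noncomputable def rc (𝕜 : Type) [RCLike 𝕜] (n : ℕ) : C(unitInterval, 𝕜) :=
  ⟨fun x => ((Real.cos (2 * π * (n + 1) * (x : ℝ)) : ℝ) : 𝕜), by
    exact RCLike.continuous_ofReal.comp (by fun_prop)⟩

theorem rc_apply (n : ℕ) (x : unitInterval) :
    rc 𝕜 n x = ((Real.cos (2 * π * (n + 1) * (x : ℝ)) : ℝ) : 𝕜) := rfl

theorem integral_unit (f : ℝ → ℝ) : ∫ x : unitInterval, f x = ∫ x in (0 : ℝ)..1, f x := by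
  have h := integral_subtype (measurableSet_Icc (a := (0 : ℝ)) (b := 1)) f
  rw [intervalIntegral.integral_of_le zero_le_one, ← integral_Icc_eq_integral_Ioc]
  exact h

/-- The inclusion of continuous functions into `L¹`. -/
noncomputable def J (𝕜 : Type) [RCLike 𝕜] : C(unitInterval, 𝕜) →L[𝕜]
    Lp 𝕜 1 (volume : Measure unitInterval) :=
  ContinuousMap.toLp (E := 𝕜) 1 volume 𝕜

theorem norm_J (f : C(unitInterval, 𝕜)) : ‖J 𝕜 f‖ = ∫ x : unitInterval, ‖f x‖ := by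
  rw [L1.norm_eq_integral_norm]
  apply integral_congr_ae
  filter_upwards [ContinuousMap.coeFn_toLp (p := 1) (μ := (volume : Measure unitInterval))
    (𝕜 := 𝕜) f] with x hx
  unfold J
  rw [hx]

theorem cont_int (f : unitInterval → ℝ) (hf : Continuous f) :
    Integrable f (volume : Measure unitInterval) :=
  hf.integrable_of_hasCompactSupport (HasCompactSupport.of_compactSpace f)

theorem norm_sq_sum (F : Finset ℕ) (c : ℕ → 𝕜) (t : ℕ → ℝ) :
    ‖∑ n ∈ F, c n * (t n : 𝕜)‖ ^ 2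
      = ∑ n ∈ F, ∑ m ∈ F, RCLike.re (c n * conj (c m)) * (t n * t m) := by
  have h1 : ((‖∑ n ∈ F, c n * (t n : 𝕜)‖ ^ 2 : ℝ) : 𝕜)
      = (∑ n ∈ F, c n * (t n : 𝕜)) * conj (∑ n ∈ F, c n * (t n : 𝕜)) := by
    rw [RCLike.mul_conj]; push_cast; rfl
  have h2 : ‖∑ n ∈ F, c n * (t n : 𝕜)‖ ^ 2
      = RCLike.re ((∑ n ∈ F, c n * (t n : 𝕜)) * conj (∑ n ∈ F, c n * (t n : 𝕜))) := by
    rw [← h1, RCLike.ofReal_re]
  rw [h2, map_sum, Finset.sum_mul_sum, map_sum]
  refine Finset.sum_congr rfl fun n _ => ?_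
  rw [map_sum]
  refine Finset.sum_congr rfl fun m _ => ?_
  rw [map_mul (starRingEnd 𝕜), RCLike.conj_ofReal]
  have h3 : c n * (t n : 𝕜) * (conj (c m) * (t m : 𝕜))
      = ((t n * t m : ℝ) : 𝕜) * (c n * conj (c m)) := by push_cast; ring
  rw [h3, RCLike.re_ofReal_mul]
  ring

theorem l2_sum (F : Finset ℕ) (c : ℕ → 𝕜) :
    ∫ x : unitInterval, ‖(∑ n ∈ F, c n • rc 𝕜 n) x‖ ^ 2 = (1 / 2) * ∑ n ∈ F, ‖c n‖ ^ 2 := by
  have h1 : ∀ x : unitInterval, ‖(∑ n ∈ F, c n • rc 𝕜 n) x‖ ^ 2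
      = ∑ n ∈ F, ∑ m ∈ F, RCLike.re (c n * conj (c m)) *
        (Real.cos (2 * π * (n + 1) * (x : ℝ)) * Real.cos (2 * π * (m + 1) * (x : ℝ))) := by
    intro x
    rw [← norm_sq_sum, ContinuousMap.coe_sum, Finset.sum_apply]
    rfl
  simp_rw [h1]
  rw [integral_finsetSum]
  · have h2 : ∀ n ∈ F, ∫ x : unitInterval, ∑ m ∈ F, RCLike.re (c n * conj (c m)) *
        (Real.cos (2 * π * (n + 1) * (x : ℝ)) * Real.cos (2 * π * (m + 1) * (x : ℝ)))
        = (1 / 2) * ‖c n‖ ^ 2 := by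
      intro n hn
      rw [integral_finsetSum]
      · rw [Finset.sum_eq_single n]
        · rw [integral_const_mul]
          have h3 := integral_unit (fun x =>
            Real.cos (2 * π * (n + 1) * x) * Real.cos (2 * π * (n + 1) * x))
          rw [h3, int_cc, if_pos rfl, RCLike.mul_conj]
          have h4 : RCLike.re ((‖c n‖ : 𝕜) ^ 2) = ‖c n‖ ^ 2 := by
            rw [← RCLike.ofReal_pow, RCLike.ofReal_re]
          rw [h4]; ring
        · intro m _ hm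
          rw [integral_const_mul]
          have h3 := integral_unit (fun x =>
            Real.cos (2 * π * (n + 1) * x) * Real.cos (2 * π * (m + 1) * x))
          rw [h3, int_cc, if_neg (Ne.symm hm), mul_zero]
        · intro h; exact absurd hn h
      · intro m _
        apply cont_int
        fun_prop
    rw [Finset.sum_congr rfl h2, Finset.mul_sum]
  · intro n _
    apply cont_int
    fun_prop

/-- The `L¹` bound for sums. -/
theorem norm_sum_le (F : Finset ℕ) (c : ℕ → 𝕜) (hc : ∀ n, ‖c n‖ ≤ 1) :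
    ‖∑ n ∈ F, c n • J 𝕜 (rc 𝕜 n)‖ ≤ Real.sqrt F.card := by
  have h0 : ∑ n ∈ F, c n • J 𝕜 (rc 𝕜 n) = J 𝕜 (∑ n ∈ F, c n • rc 𝕜 n) := by
    rw [map_sum]
    exact Finset.sum_congr rfl fun n _ => (map_smul _ _ _).symm
  rw [h0, norm_J]
  rcases Finset.eq_empty_or_nonempty F with hF | hF
  · subst hF; simp
  · have hcard : (0 : ℝ) < F.card := by exact_mod_cast hF.card_pos
    set l : ℝ := Real.sqrt F.card with hl
    have hlpos : 0 < l := Real.sqrt_pos.mpr hcard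
    have hl2 : l ^ 2 = F.card := Real.sq_sqrt hcard.le
    have hcont : Continuous fun x : unitInterval => (∑ n ∈ F, c n • rc 𝕜 n) x :=
      (∑ n ∈ F, c n • rc 𝕜 n).continuous
    have h1 : ∫ x : unitInterval, ‖(∑ n ∈ F, c n • rc 𝕜 n) x‖
        ≤ ∫ x : unitInterval, ((1 / 2) * l + (1 / (2 * l)) * ‖(∑ n ∈ F, c n • rc 𝕜 n) x‖ ^ 2) := by
      apply integral_mono
      · exact cont_int _ hcont.norm
      · exact cont_int _ (by fun_prop)
      · intro x
        simp only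
        set y : ℝ := ‖(∑ n ∈ F, c n • rc 𝕜 n) x‖
        have h2 : (1 / 2) * l + (1 / (2 * l)) * y ^ 2 - y = (l - y) ^ 2 / (2 * l) := by
          field_simp; ring
        have h3 : 0 ≤ (l - y) ^ 2 / (2 * l) := by positivity
        linarith
    have h4 : ∫ x : unitInterval, ((1 / 2) * l + (1 / (2 * l)) *
        ‖(∑ n ∈ F, c n • rc 𝕜 n) x‖ ^ 2) = (1 / 2) * l + (1 / (2 * l)) *
          ((1 / 2) * ∑ n ∈ F, ‖c n‖ ^ 2) := by
      rw [integral_add (integrable_const _) (cont_int _ (by fun_prop)),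
        integral_const_mul (1 / (2 * l)) (fun x : unitInterval =>
          ‖(∑ n ∈ F, c n • rc 𝕜 n) x‖ ^ 2), l2_sum]
      simp
    have h5 : ∑ n ∈ F, ‖c n‖ ^ 2 ≤ F.card := by
      calc ∑ n ∈ F, ‖c n‖ ^ 2 ≤ ∑ _n ∈ F, (1 : ℝ) := by
            refine Finset.sum_le_sum fun n _ => ?_
            have := hc n
            nlinarith [norm_nonneg (c n)]
        _ = F.card := by simp
    rw [h4] at h1
    refine h1.trans ?_
    have h6 : (1 / (2 * l)) * ((1 / 2) * ∑ n ∈ F, ‖c n‖ ^ 2) ≤ (1 / (2 * l)) * ((1 / 2) * l ^ 2) := by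
      rw [hl2]; gcongr
    have h7 : (1 / (2 * l)) * ((1 / 2) * l ^ 2) = l / 4 := by field_simp; ring
    linarith

theorem half_le_norm (n : ℕ) : 1 / 2 ≤ ‖J 𝕜 (rc 𝕜 n)‖ := by
  rw [norm_J]
  have h3 := integral_unit (fun x =>
            Real.cos (2 * π * (n + 1) * x) * Real.cos (2 * π * (n + 1) * x))
  rw [int_cc, if_pos rfl] at h3
  rw [← h3]
  apply integral_mono
  · exact cont_int _ (by fun_prop)
  · exact cont_int _ (rc 𝕜 n).continuous.norm
  · intro x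
    simp only [rc_apply, RCLike.norm_ofReal]
    set y := Real.cos (2 * π * (n + 1) * (x : ℝ))
    have h1 : |y| ≤ 1 := Real.abs_cos_le_one _
    calc y * y = |y| * |y| := (abs_mul_abs_self y).symm
      _ ≤ |y| * 1 := mul_le_mul_of_nonneg_left h1 (abs_nonneg _)
      _ = |y| := mul_one _

/-! ## The gliding hump -/

section hump
variable {E : Type*} [NormedAddCommGroup E] [NormedSpace 𝕜 E] (r : ℕ → E)

theorem functional_small (hr : ∀ (F : Finset ℕ) (c : ℕ → 𝕜), (∀ n, ‖c n‖ ≤ 1) →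
    ‖∑ n ∈ F, c n • r n‖ ≤ Real.sqrt F.card) (φ : E →L[𝕜] 𝕜) (δ : ℝ) (hδ : 0 < δ) :
    {n | δ ≤ ‖φ (r n)‖}.Finite := by
  classical
  obtain ⟨K, hK⟩ := exists_nat_gt ((‖φ‖ / δ) ^ 2)
  by_contra hinf
  have hinf' : {n | δ ≤ ‖φ (r n)‖}.Infinite := hinf
  obtain ⟨F, hF, hFc⟩ := hinf'.exists_subset_card_eq K
  let c : ℕ → 𝕜 := fun n => if φ (r n) = 0 then 0 else conj (φ (r n)) / (‖φ (r n)‖ : 𝕜)
  have hc : ∀ n, ‖c n‖ ≤ 1 := by
    intro n
    simp only [c]
    split_ifs with h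
    · simp
    · rw [norm_div, RCLike.norm_conj, RCLike.norm_ofReal, abs_norm, div_self]
      exact norm_ne_zero_iff.mpr h
  have hcφ : ∀ n, c n * φ (r n) = (‖φ (r n)‖ : 𝕜) := by
    intro n
    simp only [c]
    split_ifs with h
    · rw [h]; simp
    · have h2 : (‖φ (r n)‖ : 𝕜) ≠ 0 := by
        rw [Ne, RCLike.ofReal_eq_zero]; exact norm_ne_zero_iff.mpr h
      rw [div_mul_eq_mul_div, RCLike.conj_mul, pow_two, mul_div_assoc, div_self h2, mul_one]
  have h1 : φ (∑ n ∈ F, c n • r n) = ((∑ n ∈ F, ‖φ (r n)‖ : ℝ) : 𝕜) := by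
    rw [map_sum]
    push_cast
    refine Finset.sum_congr rfl fun n _ => ?_
    rw [map_smul, smul_eq_mul, hcφ]
  have h2 : ∑ n ∈ F, ‖φ (r n)‖ ≤ ‖φ‖ * Real.sqrt K := by
    have h3 : ‖φ (∑ n ∈ F, c n • r n)‖ ≤ ‖φ‖ * Real.sqrt K := by
      refine (φ.le_opNorm _).trans ?_
      refine mul_le_mul_of_nonneg_left ?_ (norm_nonneg _)
      rw [← hFc]; exact hr F c hc
    rw [h1, RCLike.norm_ofReal] at h3
    exact (le_abs_self _).trans h3
  have h4 : δ * K ≤ ∑ n ∈ F, ‖φ (r n)‖ := by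
    calc δ * K = ∑ _n ∈ F, δ := by rw [Finset.sum_const, hFc, nsmul_eq_mul]; ring
      _ ≤ _ := Finset.sum_le_sum fun n hn => hF hn
  have hKpos : (0 : ℝ) < K := lt_of_le_of_lt (by positivity) hK
  have h5 : δ * K ≤ ‖φ‖ * Real.sqrt K := h4.trans h2
  have hs : 0 < Real.sqrt K := Real.sqrt_pos.mpr hKpos
  have h6 : Real.sqrt K * Real.sqrt K = K := Real.mul_self_sqrt hKpos.le
  have h7 : δ * Real.sqrt K ≤ ‖φ‖ := by
    have : δ * Real.sqrt K * Real.sqrt K ≤ ‖φ‖ * Real.sqrt K := by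
      rw [mul_assoc, h6]; exact h5
    exact le_of_mul_le_mul_right this hs
  have h8 : Real.sqrt K ≤ ‖φ‖ / δ := by
    rw [le_div_iff₀ hδ]; linarith
  have h9 : (K : ℝ) ≤ (‖φ‖ / δ) ^ 2 := by
    rw [← h6, ← pow_two]; exact pow_le_pow_left₀ hs.le h8 2
  linarith

theorem norm_eq_tsum {S : Type} (x : lp (fun _ : S => 𝕜) 1) : ‖x‖ = ∑' s, ‖x s‖ := by
  rw [lp.norm_eq_tsum_rpow (by simp)]
  simp

theorem summable_norm' {S : Type} (x : lp (fun _ : S => 𝕜) 1) : Summable fun s => ‖x s‖ := by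
  have := (lp.memℓp x).summable (by simp)
  simpa using this

theorem add_big {S : Type} (w u : lp (fun _ : S => 𝕜) 1) (η : ℝ) (S0 : Finset S)
    (h1 : ∑' s : {s // s ∉ S0}, ‖w s‖ ≤ η) (h2 : ∑ s ∈ S0, ‖u s‖ ≤ η) :
    ‖w‖ + ‖u‖ - 4 * η ≤ ‖w + u‖ := by
  classical
  have sw := summable_norm' w
  have su := summable_norm' u
  have swu := summable_norm' (w + u)
  rw [norm_eq_tsum, norm_eq_tsum, norm_eq_tsum]
  rw [← sw.sum_add_tsum_subtype_compl S0, ← su.sum_add_tsum_subtype_compl S0,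
    ← swu.sum_add_tsum_subtype_compl S0]
  have a1 : ∑ s ∈ S0, ‖w s‖ - ∑ s ∈ S0, ‖u s‖ ≤ ∑ s ∈ S0, ‖(w + u) s‖ := by
    rw [← Finset.sum_sub_distrib]
    refine Finset.sum_le_sum fun s _ => ?_
    rw [lp.coeFn_add, Pi.add_apply]
    have := norm_sub_norm_le (w s) (-(u s))
    rw [norm_neg, sub_neg_eq_add] at this
    exact this
  have sw' : Summable (fun s : {s // s ∉ S0} => ‖w s‖) := sw.subtype _
  have su' : Summable (fun s : {s // s ∉ S0} => ‖u s‖) := su.subtype _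
  have swu' : Summable (fun s : {s // s ∉ S0} => ‖(w + u) s‖) := swu.subtype _
  have a2 : ∑' s : {s // s ∉ S0}, ‖u s‖
      ≤ ∑' s : {s // s ∉ S0}, ‖(w + u) s‖ + ∑' s : {s // s ∉ S0}, ‖w s‖ := by
    have e1 : ∑' s : {s // s ∉ S0}, (‖(w + u) s‖ + ‖w s‖)
        = ∑' s : {s // s ∉ S0}, ‖(w + u) s‖ + ∑' s : {s // s ∉ S0}, ‖w s‖ := swu'.tsum_add sw'
    rw [← e1]
    refine Summable.tsum_le_tsum ?_ su' (swu'.add sw')
    intro s
    have h3 := norm_sub_le ((w + u) s) (w s)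
    have h4 : (w + u) s - w s = u s := by
      rw [lp.coeFn_add, Pi.add_apply]; abel
    rw [h4] at h3
    exact h3
  linarith

theorem hump (hr : ∀ (F : Finset ℕ) (c : ℕ → 𝕜), (∀ n, ‖c n‖ ≤ 1) →
    ‖∑ n ∈ F, c n • r n‖ ≤ Real.sqrt F.card) {S : Type} (a : E →L[𝕜] lp (fun _ : S => 𝕜) 1)
    (c : ℝ) (hc : 0 < c) (hlow : ∀ n, c ≤ ‖a (r n)‖) : False := by
  classical
  -- sums with large norm
  have key : ∀ K : ℕ, ∃ F : Finset ℕ, F.card = K ∧ (K : ℝ) * (c / 2) ≤ ‖∑ n ∈ F, a (r n)‖ := by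
    intro K
    induction K with
    | zero => exact ⟨∅, rfl, by simp⟩
    | succ K ih =>
      obtain ⟨F, hFc, hF⟩ := ih
      set w := ∑ n ∈ F, a (r n) with hw
      have hη : 0 < c / 8 := by positivity
      -- tail of w
      have htail := tendsto_tsum_compl_atTop_zero (fun s => ‖w s‖)
      have hev := (htail.eventually (gt_mem_nhds hη)).exists
      obtain ⟨S0, hS0⟩ := hev
      -- small coordinates
      have hfin : (⋃ s ∈ S0, {n | c / 8 / (S0.card + 1) ≤ ‖(a (r n)) s‖}).Finite := by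
        refine Set.Finite.biUnion S0.finite_toSet fun s _ => ?_
        have hδ : 0 < c / 8 / ((S0.card : ℝ) + 1) := by positivity
        exact functional_small r hr ((lp.evalCLM 𝕜 (fun _ : S => 𝕜) 1 s).comp a) _ hδ
      obtain ⟨n, hn⟩ := (hfin.union F.finite_toSet).infinite_compl.nonempty
      have hn1 : n ∉ F := fun h => hn (Or.inr h)
      have hn2 : ∀ s ∈ S0, ‖(a (r n)) s‖ ≤ c / 8 / (S0.card + 1) := by
        intro s hs
        by_contra hlt
        push Not at hlt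
        exact hn (Or.inl (Set.mem_biUnion hs hlt.le))
      have hsum : ∑ s ∈ S0, ‖(a (r n)) s‖ ≤ c / 8 := by
        calc _ ≤ ∑ _s ∈ S0, c / 8 / ((S0.card : ℝ) + 1) := Finset.sum_le_sum hn2
          _ = (S0.card : ℝ) * (c / 8 / ((S0.card : ℝ) + 1)) := by
              rw [Finset.sum_const, nsmul_eq_mul]
          _ ≤ c / 8 := by
              rw [mul_div_assoc', div_le_iff₀ (by positivity)]
              nlinarith
      have hbig := add_big w (a (r n)) (c / 8) S0 hS0.le hsum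
      refine ⟨insert n F, by rw [Finset.card_insert_of_notMem hn1, hFc], ?_⟩
      rw [Finset.sum_insert hn1, add_comm (a (r n))]
      have := hlow n
      push_cast
      linarith
  obtain ⟨K, hK⟩ := exists_nat_gt ((2 * ‖a‖ / c) ^ 2)
  obtain ⟨F, hFc, hF⟩ := key K
  have h1 : ‖∑ n ∈ F, a (r n)‖ ≤ ‖a‖ * Real.sqrt K := by
    rw [← map_sum]
    refine (a.le_opNorm _).trans (mul_le_mul_of_nonneg_left ?_ (norm_nonneg _))
    have := hr F (fun _ => 1) (by simp)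
    rw [hFc] at this
    simpa using this
  have hKpos : (0 : ℝ) < K := lt_of_le_of_lt (by positivity) hK
  have hs : 0 < Real.sqrt K := Real.sqrt_pos.mpr hKpos
  have h6 : Real.sqrt K * Real.sqrt K = K := Real.mul_self_sqrt hKpos.le
  have h7 : Real.sqrt K ≤ 2 * ‖a‖ / c := by
    rw [le_div_iff₀ hc]
    have : Real.sqrt K * c * Real.sqrt K ≤ 2 * ‖a‖ * Real.sqrt K := by
      calc Real.sqrt K * c * Real.sqrt K = (Real.sqrt K * Real.sqrt K) * c := by ring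
        _ = 2 * (K * (c / 2)) := by rw [h6]; ring
        _ ≤ 2 * (‖a‖ * Real.sqrt K) := by linarith
        _ = _ := by ring
    exact le_of_mul_le_mul_right this hs
  have h9 : (K : ℝ) ≤ (2 * ‖a‖ / c) ^ 2 := by
    rw [← h6, ← pow_two]; exact pow_le_pow_left₀ hs.le h7 2
  linarith

end hump

theorem not_retract (𝕜 : Type) [RCLike 𝕜] (S : Type)
    (a : Lp 𝕜 1 (volume : Measure unitInterval) →L[𝕜] lp (fun _ : S => 𝕜) 1)
    (b : lp (fun _ : S => 𝕜) 1 →L[𝕜] Lp 𝕜 1 (volume : Measure unitInterval)) :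
    ¬ ∀ x, b (a x) = x := by
  intro h
  refine hump (fun n => J 𝕜 (rc 𝕜 n)) (fun F c hc => norm_sum_le F c hc) a
    (1 / (2 * (‖b‖ + 1))) (by positivity) ?_
  intro n
  have h1 := half_le_norm (𝕜 := 𝕜) n
  have h2 : ‖J 𝕜 (rc 𝕜 n)‖ ≤ (‖b‖ + 1) * ‖a (J 𝕜 (rc 𝕜 n))‖ := by
    calc ‖J 𝕜 (rc 𝕜 n)‖ = ‖b (a (J 𝕜 (rc 𝕜 n)))‖ := by rw [h]
      _ ≤ ‖b‖ * ‖a (J 𝕜 (rc 𝕜 n))‖ := b.le_opNorm _
      _ ≤ _ := by
        have := norm_nonneg (a (J 𝕜 (rc 𝕜 n)))
        nlinarith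
  have hb : 0 < ‖b‖ + 1 := by positivity
  rw [div_le_iff₀ (by positivity)]
  calc (1 : ℝ) ≤ 2 * ‖J 𝕜 (rc 𝕜 n)‖ := by linarith
    _ ≤ 2 * ((‖b‖ + 1) * ‖a (J 𝕜 (rc 𝕜 n))‖) := by linarith
    _ = _ := by ring

end Pool.Agent.Lib_helper54.FD.T3

namespace Pool.Agent.Lib_helper54.FD

/-- A concrete `L¹(μ)` that is not a retract of any `ℓ¹(S)`. -/
theorem exists_L1_not_retract' (𝕜 : Type) [RCLike 𝕜] :
    ∃ (Ω : Type) (_ : MeasurableSpace Ω) (μ : MeasureTheory.Measure Ω)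
      (_ : MeasureTheory.IsProbabilityMeasure μ),
      ∀ (S : Type) (a : MeasureTheory.Lp 𝕜 1 μ →L[𝕜] lp (fun _ : S => 𝕜) 1)
        (b : lp (fun _ : S => 𝕜) 1 →L[𝕜] MeasureTheory.Lp 𝕜 1 μ), ¬ ∀ x, b (a x) = x :=
  ⟨unitInterval, inferInstance, MeasureTheory.volume, inferInstance,
    fun S a b => T3.not_retract 𝕜 S a b⟩

end Pool.Agent.Lib_helper54.FD
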