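import Pool.Agent.Lib_helper54.FD.Assembly
import Pool.Agent.Lib_helper54.FD.T1
import Pool.Agent.Lib_helper54.FD.T2
import Pool.Agent.Lib_helper54.FD.T3

set_option autoImplicit false

/-! All flat dimensions occur among spaces of infinite projective dimension. -/

namespace Pool.Agent.Lib_helper54.FD

variable {𝕜 : Type} [RCLike 𝕜]

theorem isEll1_proj (P : Ban 𝕜) (h : IsEll1 P) : Proj P := by
  obtain ⟨S, f, g, h1, h2⟩ := h
  exact Proj.retract (A := P) (B := ell1 𝕜 S) f g h1 (proj_ell1 S)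

theorem isL1Space_dualInj (Z : Ban 𝕜) (h : IsL1Space Z) : DualInj Z := fun A B j c hj u =>
  dual_injective Z ((isL1Space_iff_P Z).1 h) A B j c hj u

theorem isEll1_isL1Space (P : Ban 𝕜) (h : IsEll1 P) : IsL1Space P := by
  obtain ⟨S, f, g, h1, h2⟩ := h
  let e : ell1 𝕜 S ≃L[𝕜] P := ContinuousLinearEquiv.equivOfInverse g f h2 h1
  exact (isL1Space_iff_P P).2 (isL1Space_congr (ell1 𝕜 S) P e (isL1Space_ell1 S))

theorem dimension_eq {C : Ban 𝕜 → Prop} {X : Ban 𝕜} {m : ℕ} (h1 : HasResolution C X m)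
    (h2 : ∀ n, HasResolution C X n → m ≤ n) : dimension C X = m := by
  refine le_antisymm (sInf_le ⟨m, rfl, h1⟩) (le_sInf ?_)
  rintro _ ⟨n, rfl, hn⟩
  exact_mod_cast h2 n hn

theorem dimension_eq_top {C : Ban 𝕜 → Prop} {X : Ban 𝕜} (h : ∀ n, ¬ HasResolution C X n) :
    dimension C X = ⊤ := by
  refine top_le_iff.1 (le_sInf ?_)
  rintro _ ⟨n, rfl, hn⟩
  exact absurd hn (h n)

/-- Adding a member of the class to a space with a resolution. -/
theorem hasResolution_prod {C : Ban 𝕜 → Prop} {X F : Ban 𝕜} {n : ℕ} (h : HasResolution C X n)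
    (hF : ∀ P, C P → C (prodB P F)) : HasResolution C (prodB X F) n := by
  obtain ⟨P, ε, d, hs, h0, hd, hmem, hsub⟩ := (hasResolution_iff C X n).1 h
  let P' : ℕ → Ban 𝕜 := fun i => match i with
    | 0 => prodB (P 0) F
    | i + 1 => P (i + 1)
  let d' : ∀ i, P' (i + 1) →L[𝕜] P' i := fun i => match i with
    | 0 => ContinuousLinearMap.inl 𝕜 (P 0) F ∘L d 0
    | i + 1 => d (i + 1)
  refine (hasResolution_iff C (prodB X F) n).2
    ⟨P', (ε.prodMap (ContinuousLinearMap.id 𝕜 F) : prodB (P 0) F →L[𝕜] prodB X F), d',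
    ?_, ?_, ?_, ?_, ?_⟩
  · rintro ⟨x, f⟩
    obtain ⟨p, hp⟩ := hs x
    exact ⟨(p, f), Prod.ext hp rfl⟩
  · rintro ⟨p, f⟩
    constructor
    · intro hx
      have h1 : ε p = 0 := congrArg Prod.fst hx
      have h2 : f = 0 := congrArg Prod.snd hx
      obtain ⟨y, hy⟩ := (h0 p).1 h1
      exact ⟨y, Prod.ext hy h2.symm⟩
    · rintro ⟨y, hy⟩
      have h1 : d 0 y = p := congrArg Prod.fst hy
      have h2 : (0 : F) = f := congrArg Prod.snd hy
      exact Prod.ext ((h0 p).2 ⟨y, h1⟩) h2.symm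
  · intro i x
    cases i with
    | zero =>
      refine Iff.trans ?_ (hd 0 x)
      constructor
      · intro hx
        exact congrArg Prod.fst hx
      · intro hx
        exact Prod.ext hx rfl
    | succ i => exact hd (i + 1) x
  · intro i hi
    cases i with
    | zero => exact hF _ (hmem 0 hi)
    | succ i => exact hmem (i + 1) hi
  · intro i hi
    cases i with
    | zero => exact absurd hi (Nat.not_lt_zero _)
    | succ i => exact hsub (i + 1) hi

/-- There is a space which contains all the spaces of a sequence as retracts. -/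
theorem exists_sum (X : ℕ → Ban 𝕜) : ∃ Z : Ban 𝕜, ∀ m, ∃ (i : X m →L[𝕜] Z) (r : Z →L[𝕜] X m),
    ∀ x, r (i x) = x := by
  refine ⟨⟨lp (fun m => X m) 1⟩, fun m => ?_⟩
  refine ⟨LinearMap.mkContinuous (lp.lsingle (𝕜 := 𝕜) (E := fun m => X m) 1 m) 1 fun x => ?_,
    lp.evalCLM 𝕜 (fun m => X m) 1 m, fun x => ?_⟩
  · rw [one_mul]
    exact (lp.norm_single (E := fun m => X m) (p := 1) zero_lt_one m x).le
  · exact lp.single_apply_self (E := fun m => X m) 1 m x

theorem all_dims (𝕜 : Type) [RCLike 𝕜] :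
    {n : ℕ∞ | ∃ X : Ban 𝕜, pd X = ⊤ ∧ fd X = n} = Set.univ := by
  obtain ⟨Ω, _, μ, _, hF⟩ := exists_L1_not_retract' 𝕜
  let F : Ban 𝕜 := ⟨MeasureTheory.Lp 𝕜 1 μ⟩
  have hFL : IsL1Space F := (isL1Space_iff_P F).2 (isL1Space_L1 μ)
  have hFP : ¬ Proj F := by
    intro h
    obtain ⟨S, a, b, hab⟩ := h.exists_retract
    exact hF S a b hab
  -- the projective dimension
  have hpd : ∀ X : Ban 𝕜, pd (prodB X F) = ⊤ := by
    intro X
    refine dimension_eq_top fun n hn => hFP ?_
    have h1 : Res Proj n (prodB X F) := res_of_hasResolution good_P n _ (hn.mono isEll1_proj)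
    have h2 : Res Proj n F := res_retract good_P n F (prodB X F)
      (ContinuousLinearMap.inr 𝕜 X F) (ContinuousLinearMap.snd 𝕜 X F) (fun x => rfl) h1
    exact proj_of_res n F (isL1Space_dualInj F hFL) h2
  -- the flat dimension
  have hres : ∀ (X : Ban 𝕜) n, HasResolution IsL1Space (prodB X F) n → Res DualInj n X := by
    intro X n hn
    exact res_retract good_D n X (prodB X F)
      (ContinuousLinearMap.inl 𝕜 X F) (ContinuousLinearMap.fst 𝕜 X F) (fun x => rfl)
      (res_of_hasResolution good_D n _ (hn.mono isL1Space_dualInj))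
  choose X hX1 hX2 using exists_space (hasBlocks 𝕜)
  refine Set.eq_univ_of_forall fun n => ?_
  induction n using ENat.recTopCoe with
  | top =>
    obtain ⟨Z, hZ⟩ := exists_sum X
    refine ⟨prodB Z F, hpd Z, dimension_eq_top fun n hn => ?_⟩
    obtain ⟨i, r, hir⟩ := hZ (n + 1)
    have h1 := hX2 (n + 1) n (res_retract good_D n _ Z i r hir (hres Z n hn))
    omega
  | coe m =>
    refine ⟨prodB (X m) F, hpd _, dimension_eq ?_ fun n hn => hX2 m n (hres _ n hn)⟩
    exact hasResolution_prod ((hX1 m).mono isEll1_isL1Space) fun P hP =>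
      (isL1Space_iff_P (prodB P F)).2
        (isL1Space_prod P F ((isL1Space_iff_P P).1 hP) ((isL1Space_iff_P F).1 hFL))

end Pool.Agent.Lib_helper54.FD
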