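import Pool.Agent.Lib_helper54.FD.Ell1

set_option autoImplicit false

/-! `ℓ¹(S)*` is injective; retracts; spaces of finite projective dimension with injective dual. -/

namespace Pool.Agent.Lib_helper54.FD

variable {𝕜 : Type} [RCLike 𝕜] {S : Type}

/-- Hahn-Banach along an embedding. -/
theorem extend_functional {A B : Ban 𝕜} (j : A →L[𝕜] B) (c : ℝ) (hj : ∀ x, ‖x‖ ≤ c * ‖j x‖)
    (φ : A →L[𝕜] 𝕜) : ∃ ψ : B →L[𝕜] 𝕜, (∀ x, ψ (j x) = φ x) ∧ ∀ y, ‖ψ y‖ ≤ |c| * ‖φ‖ * ‖y‖ := by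
  have hinj : Function.Injective (j : A →ₗ[𝕜] B) := by
    rw [injective_iff_map_eq_zero]
    intro x hx
    have h := hj x
    change j x = 0 at hx
    rw [hx, norm_zero, mul_zero] at h
    exact norm_le_zero_iff.1 h
  let e := LinearEquiv.ofInjective (j : A →ₗ[𝕜] B) hinj
  have he : ∀ y : LinearMap.range (j : A →ₗ[𝕜] B), j (e.symm y) = y := fun y => by
    have := e.apply_symm_apply y
    exact congrArg Subtype.val this
  let f : LinearMap.range (j : A →ₗ[𝕜] B) →L[𝕜] 𝕜 :=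
    ((φ : A →ₗ[𝕜] 𝕜) ∘ₗ (e.symm : _ →ₗ[𝕜] A)).mkContinuous (|c| * ‖φ‖) (fun y => by
      change ‖φ (e.symm y)‖ ≤ _
      calc ‖φ (e.symm y)‖ ≤ ‖φ‖ * ‖e.symm y‖ := φ.le_opNorm _
        _ ≤ ‖φ‖ * (|c| * ‖y‖) := by
            gcongr
            refine (hj _).trans ?_
            rw [he]
            exact mul_le_mul_of_nonneg_right (le_abs_self c) (norm_nonneg _)
        _ = |c| * ‖φ‖ * ‖y‖ := by ring)
  obtain ⟨ψ, hψ, hn⟩ := exists_extension_norm_eq (LinearMap.range (j : A →ₗ[𝕜] B)) f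
  refine ⟨ψ, fun x => ?_, fun y => ?_⟩
  · have h1 := hψ ⟨j x, ⟨x, rfl⟩⟩
    change ψ (j x) = φ (e.symm ⟨j x, ⟨x, rfl⟩⟩) at h1
    rw [h1]
    congr 1
    exact e.symm_apply_apply x
  · calc ‖ψ y‖ ≤ ‖ψ‖ * ‖y‖ := ψ.le_opNorm _
      _ = ‖f‖ * ‖y‖ := by rw [hn]
      _ ≤ |c| * ‖φ‖ * ‖y‖ := by
          gcongr
          exact LinearMap.mkContinuous_norm_le _ (by positivity) _

theorem dualInj_ell1 (S : Type) : DualInj (ell1 𝕜 S) := by
  intro A B j c hj u
  have h1 : ∀ s : S, ∃ ψ : B →L[𝕜] 𝕜, (∀ x, ψ (j x) = ap (u x) (e1 s)) ∧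
      ∀ y, ‖ψ y‖ ≤ |c| * ‖u‖ * ‖y‖ := by
    intro s
    let φ : A →L[𝕜] 𝕜 := LinearMap.mkContinuous
      { toFun := fun x => ap (u x) (e1 s)
        map_add' := fun x y => by rw [map_add]; rfl
        map_smul' := fun a x => by rw [map_smul]; rfl } ‖u‖ (fun x => by
          change ‖ap (u x) (e1 s)‖ ≤ _
          calc ‖ap (u x) (e1 s)‖ ≤ ‖ap (u x)‖ * ‖(e1 s : ell1 𝕜 S)‖ := (ap (u x)).le_opNorm _
            _ = ‖u x‖ := by rw [norm_e1, mul_one]; rfl
            _ ≤ ‖u‖ * ‖x‖ := u.le_opNorm _)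
    obtain ⟨ψ, h2, h3⟩ := extend_functional j c hj φ
    refine ⟨ψ, h2, fun y => (h3 y).trans ?_⟩
    gcongr
    exact LinearMap.mkContinuous_norm_le _ (by positivity) _
  choose β hβ1 hβ2 using h1
  have hb : ∀ y s, ‖(β s y : scal 𝕜)‖ ≤ |c| * ‖u‖ * ‖y‖ := fun y s => hβ2 s y
  let v : B →L[𝕜] dualB (ell1 𝕜 S) := LinearMap.mkContinuous
    { toFun := fun y => (lift1 (Y := scal 𝕜) (fun s => β s y) _ (hb y) : ell1 𝕜 S →L[𝕜] 𝕜)
      map_add' := fun y y' => by
        refine ext_e1 (Y := scal 𝕜) fun s => ?_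
        refine (lift1_e1 (Y := scal 𝕜) _ _ (hb (y + y')) s).trans ?_
        rw [map_add]
        exact (congrArg₂ (fun a b : 𝕜 => a + b) (lift1_e1 (Y := scal 𝕜) _ _ (hb y) s)
          (lift1_e1 (Y := scal 𝕜) _ _ (hb y') s)).symm
      map_smul' := fun a y => by
        refine ext_e1 (Y := scal 𝕜) fun s => ?_
        refine (lift1_e1 (Y := scal 𝕜) _ _ (hb (a • y)) s).trans ?_
        rw [map_smul]
        exact (congrArg (fun b : 𝕜 => a • b) (lift1_e1 (Y := scal 𝕜) _ _ (hb y) s)).symm }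
    (|c| * ‖u‖) (fun y => by
      refine ContinuousLinearMap.opNorm_le_bound _ (by positivity) fun x => ?_
      have := (lift1 (Y := scal 𝕜) (fun s => β s y) _ (hb y)).le_opNorm x
      refine this.trans ?_
      gcongr
      exact LinearMap.mkContinuous_norm_le _ (by positivity) _)
  refine ⟨v, fun x => ?_⟩
  refine ext_e1 (Y := scal 𝕜) fun s => ?_
  refine (lift1_e1 (Y := scal 𝕜) _ _ (hb (j x)) s).trans ?_
  exact hβ1 s x

theorem good_D : Good (DualInj : Ban 𝕜 → Prop) := good_dualInj dualInj_ell1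

theorem good_P : Good (Proj : Ban 𝕜 → Prop) := good_proj proj_ell1

/-- Retracts of spaces with a resolution of length `n` have such a resolution. -/
theorem res_retract {C : Ban 𝕜 → Prop} (hC : Good C) (n : ℕ) :
    ∀ (Z X : Ban 𝕜) (i : Z →L[𝕜] X) (r : X →L[𝕜] Z), (∀ x, r (i x) = x) →
      Res C n X → Res C n Z := by
  induction n with
  | zero => exact fun Z X i r h hX => hC.retract Z X i r h hX
  | succ n ih =>
    intro Z X i r h hX
    obtain ⟨S, π, hπ⟩ := exists_surj Z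
    obtain ⟨S', π', hπ'⟩ := exists_surj X
    -- the surjection `(a, b) ↦ i π a + (1 - i r) π' b`
    let Pm : prodB (ell1 𝕜 S) (ell1 𝕜 S') →L[𝕜] X :=
      i ∘L π ∘L ContinuousLinearMap.fst 𝕜 (ell1 𝕜 S) (ell1 𝕜 S') +
      (ContinuousLinearMap.id 𝕜 X - i ∘L r) ∘L π' ∘L
        ContinuousLinearMap.snd 𝕜 (ell1 𝕜 S) (ell1 𝕜 S')
    have hPm : ∀ a b, Pm (a, b) = i (π a) + (π' b - i (r (π' b))) := fun _ _ => rfl
    have hs : Function.Surjective Pm := by
      intro x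
      obtain ⟨a, ha⟩ := hπ (r x)
      obtain ⟨b, hb⟩ := hπ' x
      refine ⟨(a, b), ?_⟩
      rw [hPm, ha, hb]
      abel
    have hK : Res C n (kerB Pm) := res_shift hC n (ses_ker Pm hs)
      (hC.prod _ _ (hC.mem_ell1 S) (hC.mem_ell1 S')) (Proj.prod (proj_ell1 S) (proj_ell1 S')) hX
    -- `ker π` is a retract of `ker Pm`
    let α : kerB π →L[𝕜] kerB Pm := toKer Pm
      (ContinuousLinearMap.inl 𝕜 (ell1 𝕜 S) (ell1 𝕜 S') ∘L kerI π) (fun z => by
        change i (π (kerI π z)) + (π' 0 - i (r (π' 0))) = 0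
        rw [kerI_mem]; simp)
    let β : kerB Pm →L[𝕜] kerB π := toKer π
      (ContinuousLinearMap.fst 𝕜 (ell1 𝕜 S) (ell1 𝕜 S') ∘L kerI Pm) (fun z => by
        have h1 := kerI_mem Pm z
        have h2 : r (Pm (kerI Pm z)) = 0 := by rw [h1, map_zero]
        change π (kerI Pm z).1 = 0
        rw [← h2]
        change π (kerI Pm z).1 = r (i (π (kerI Pm z).1) +
          (π' (kerI Pm z).2 - i (r (π' (kerI Pm z).2))))
        rw [map_add, map_sub, h, h, sub_self, add_zero])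
    exact ⟨kerB π, ell1 𝕜 S, kerI π, π, ses_ker π hπ, hC.mem_ell1 S,
      ih (kerB π) (kerB Pm) α β (fun x => kerI_injective π rfl) hK⟩

/-- A projective space is a retract of some `ℓ¹(S)`. -/
theorem Proj.exists_retract {P : Ban 𝕜} (hP : Proj P) :
    ∃ (S : Type) (a : P →L[𝕜] ell1 𝕜 S) (b : ell1 𝕜 S →L[𝕜] P), ∀ x, b (a x) = x := by
  obtain ⟨S, π, hπ⟩ := exists_surj P
  obtain ⟨a, ha⟩ := hP (ell1 𝕜 S) P π hπ (ContinuousLinearMap.id 𝕜 P)
  exact ⟨S, a, π, ha⟩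

/-- A short exact sequence with projective kernel and quotient with injective dual splits. -/
theorem split_of_dualInj {K E Q : Ban 𝕜} {i : K →L[𝕜] E} {q : E →L[𝕜] Q} (h : SES i q)
    (hK : Proj K) (hQ : DualInj Q) : ∃ ρ : E →L[𝕜] K, ∀ x, ρ (i x) = x := by
  obtain ⟨σ, hσ⟩ := dual_section h hQ
  obtain ⟨S, a, b, hab⟩ := hK.exists_retract
  refine ⟨b ∘L coordMap (σ ∘L dualMap a), fun x => ?_⟩
  have h1 : coordMap (σ ∘L dualMap a) (i x) = a x := by
    refine co_injective (funext fun s => ?_)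
    rw [co_coordMap]
    change ap (dualMap i (σ (dualMap a (coord s)))) x = co (a x) s
    rw [hσ]
    rfl
  change b (coordMap (σ ∘L dualMap a) (i x)) = x
  rw [h1, hab]

/-- A space with injective dual and finite projective dimension is projective. -/
theorem proj_of_res (n : ℕ) : ∀ F : Ban 𝕜, DualInj F → Res Proj n F → Proj F := by
  induction n with
  | zero => exact fun F _ hF => hF
  | succ n ih =>
    rintro F hF ⟨K, P, i, π, h, hP, hK⟩
    have hPinj : DualInj P := by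
      obtain ⟨S, a, b, hab⟩ := hP.exists_retract
      exact good_D.retract P _ a b hab (dualInj_ell1 S)
    have hKP : Proj K := ih K (good_D.ker _ _ _ _ _ h hPinj hF) hK
    obtain ⟨ρ, hρ⟩ := split_of_dualInj h hKP hF
    -- a section of `π`
    obtain ⟨s, hs⟩ := h.desc (ContinuousLinearMap.id 𝕜 P - i ∘L ρ) (fun k => by
      change i k - i (ρ (i k)) = 0
      rw [hρ, sub_self])
    refine Proj.retract s π (fun y => ?_) hP
    obtain ⟨x, rfl⟩ := h.surj y
    rw [hs]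
    change π (x - i (ρ x)) = π x
    rw [map_sub, (h.ex _).2 ⟨ρ x, rfl⟩, sub_zero]

end Pool.Agent.Lib_helper54.FD
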