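import Pool.Agent.Lib_helper54.FD.Defs

set_option autoImplicit false

/-!
Technical reformulations of the definitions.
-/

namespace Pool.Agent.Lib_helper54.FD

variable {𝕜 : Type} [RCLike 𝕜]

/-- `IsL1Space` in terms of `PiLp`. -/
def IsL1SpaceP (E : Ban 𝕜) : Prop :=
  ∃ lam : ℝ, ∀ F : Submodule 𝕜 E, FiniteDimensional 𝕜 F →
    ∃ G : Submodule 𝕜 E, F ≤ G ∧ FiniteDimensional 𝕜 G ∧
      ∃ e : G ≃L[𝕜] PiLp 1 (fun _ : Fin (Module.finrank 𝕜 G) => 𝕜),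
        ‖(e : G →L[𝕜] PiLp 1 (fun _ : Fin (Module.finrank 𝕜 G) => 𝕜))‖ *
          ‖(e.symm : PiLp 1 (fun _ : Fin (Module.finrank 𝕜 G) => 𝕜) →L[𝕜] G)‖ ≤ lam

theorem exact_iff {E F Q : Ban 𝕜} (f : E →L[𝕜] F) (g : F →L[𝕜] Q) :
    Exact f g ↔ ∀ x, g x = 0 ↔ ∃ y, f y = x := Iff.rfl

theorem hasResolution_iff (C : Ban 𝕜 → Prop) (X : Ban 𝕜) (n : ℕ) : HasResolution C X n ↔
    ∃ (P : ℕ → Ban 𝕜) (ε : P 0 →L[𝕜] X) (d : ∀ i, P (i + 1) →L[𝕜] P i),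
      Function.Surjective ε ∧
      (∀ x, ε x = 0 ↔ ∃ y, d 0 y = x) ∧
      (∀ i x, d i x = 0 ↔ ∃ y, d (i + 1) y = x) ∧
      (∀ i, i ≤ n → C (P i)) ∧
      ∀ i, n < i → Subsingleton (P i) := Iff.rfl

theorem isEll1_of_equiv {P : Ban 𝕜} {S : Type} (e : P ≃L[𝕜] ell1 𝕜 S) : IsEll1 P :=
  ⟨S, e, e.symm, e.symm_apply_apply, e.apply_symm_apply⟩

theorem isEll1_ell1 (S : Type) : IsEll1 (ell1 𝕜 S) :=
  isEll1_of_equiv (ContinuousLinearEquiv.refl 𝕜 _)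

/-- `ℓ¹(Fin n)` and `PiLp` are isometric. -/
noncomputable def l1equiv (𝕜 : Type) [RCLike 𝕜] (n : ℕ) :
    ell1 𝕜 (Fin n) ≃ₗᵢ[𝕜] PiLp 1 (fun _ : Fin n => 𝕜) :=
  lpPiLpₗᵢ (fun _ : Fin n => 𝕜) 𝕜

theorem norm_equiv_comp {A B B' : Type} [NormedAddCommGroup A] [NormedSpace 𝕜 A]
    [NormedAddCommGroup B] [NormedSpace 𝕜 B] [NormedAddCommGroup B'] [NormedSpace 𝕜 B']
    (e : B ≃ₗᵢ[𝕜] B') (f : A →L[𝕜] B) : ‖(e : B →L[𝕜] B') ∘L f‖ ≤ ‖f‖ :=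
  ContinuousLinearMap.opNorm_le_bound _ (norm_nonneg _) fun x => by
    change ‖e (f x)‖ ≤ _
    rw [e.norm_map]
    exact f.le_opNorm x

theorem norm_comp_equiv {A A' B : Type} [NormedAddCommGroup A] [NormedSpace 𝕜 A]
    [NormedAddCommGroup A'] [NormedSpace 𝕜 A'] [NormedAddCommGroup B] [NormedSpace 𝕜 B]
    (e : A' ≃ₗᵢ[𝕜] A) (f : A →L[𝕜] B) : ‖f ∘L (e : A' →L[𝕜] A)‖ ≤ ‖f‖ :=
  ContinuousLinearMap.opNorm_le_bound _ (norm_nonneg _) fun x => by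
    change ‖f (e x)‖ ≤ _
    rw [← e.norm_map x]
    exact f.le_opNorm _

theorem isL1Space_iff_P (E : Ban 𝕜) : IsL1Space E ↔ IsL1SpaceP E := by
  constructor
  · rintro ⟨lam, h⟩
    refine ⟨lam, fun F hF => ?_⟩
    obtain ⟨G, hG, hFG, f, g, ⟨h1, h2⟩, h3⟩ := h F hF
    let f0 : G →L[𝕜] ell1 𝕜 (Fin (Module.finrank 𝕜 G)) := f
    let g0 : ell1 𝕜 (Fin (Module.finrank 𝕜 G)) →L[𝕜] G := g
    let e : G ≃L[𝕜] PiLp 1 (fun _ : Fin (Module.finrank 𝕜 G) => 𝕜) :=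
      (ContinuousLinearEquiv.equivOfInverse f0 g0 h1 h2).trans
        (l1equiv 𝕜 (Module.finrank 𝕜 G)).toContinuousLinearEquiv
    refine ⟨G, hFG, hG, e, ?_⟩
    have h4 : ‖(e : G →L[𝕜] PiLp 1 (fun _ : Fin (Module.finrank 𝕜 G) => 𝕜))‖ ≤ ‖f0‖ :=
      norm_equiv_comp (l1equiv 𝕜 (Module.finrank 𝕜 G)) f0
    have h5 : ‖(e.symm : PiLp 1 (fun _ : Fin (Module.finrank 𝕜 G) => 𝕜) →L[𝕜] G)‖ ≤ ‖g0‖ :=
      norm_comp_equiv (l1equiv 𝕜 (Module.finrank 𝕜 G)).symm g0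
    exact (mul_le_mul h4 h5 (norm_nonneg _) (norm_nonneg _)).trans h3
  · rintro ⟨lam, h⟩
    refine ⟨lam, fun F hF => ?_⟩
    obtain ⟨G, hFG, hG, e, he⟩ := h F hF
    let L := l1equiv 𝕜 (Module.finrank 𝕜 G)
    let f : G →L[𝕜] ell1 𝕜 (Fin (Module.finrank 𝕜 G)) :=
      (L.symm : PiLp 1 (fun _ : Fin (Module.finrank 𝕜 G) => 𝕜) →L[𝕜] _) ∘L
        (e : G →L[𝕜] PiLp 1 (fun _ : Fin (Module.finrank 𝕜 G) => 𝕜))
    let g : ell1 𝕜 (Fin (Module.finrank 𝕜 G)) →L[𝕜] G :=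
      (e.symm : PiLp 1 (fun _ : Fin (Module.finrank 𝕜 G) => 𝕜) →L[𝕜] G) ∘L
        (L : _ →L[𝕜] PiLp 1 (fun _ : Fin (Module.finrank 𝕜 G) => 𝕜))
    refine ⟨G, hG, hFG, f, g, ⟨fun x => ?_, fun y => ?_⟩, ?_⟩
    · change e.symm (L (L.symm (e x))) = x
      rw [L.apply_symm_apply]
      exact e.symm_apply_apply x
    · change L.symm (e (e.symm (L y))) = y
      rw [e.apply_symm_apply, L.symm_apply_apply]
    · have h4 : ‖f‖ ≤ ‖(e : G →L[𝕜] PiLp 1 (fun _ : Fin (Module.finrank 𝕜 G) => 𝕜))‖ :=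
        norm_equiv_comp L.symm _
      have h5 : ‖g‖ ≤ ‖(e.symm : PiLp 1 (fun _ : Fin (Module.finrank 𝕜 G) => 𝕜) →L[𝕜] G)‖ :=
        norm_comp_equiv L _
      exact (mul_le_mul h4 h5 (norm_nonneg _) (norm_nonneg _)).trans he

end Pool.Agent.Lib_helper54.FD
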